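import Pool.Agent.Lib.Npa.Defs

/-!
# Digits

`exists_digits`: let `n = e / P` and write `n = ∑_{s < w} n_s 2^(x s)` with `n_s < 2^x` for `s < w - 1` and
`n_{w-1} = n / 2^(x (w - 1))`. For `s < w - 1`: `X (s, 0) = P`, `X (s, 1) = n_s`, `X (s, j) = 2^x` for `2 ≤ j ≤ s + 1`,
`X (s, j) = 1` for `j > s + 1`; but if `w - 1 ≥ 1` the last one `j = w - 1` is then `1 ≤ 2^x`, or `n_s`, or `2^x`. For
`s = w - 1`: `X (s, 0) = P * n_{w-1}` and `X (s, j) = 2^x` for `1 ≤ j`. Since `P * n_{w-1} * 2^(x (w - 1)) ≤ e ≤ 2^(x w)`, `P * n_{w-1} ≤ 2^x`.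
A possible way to organise the proof: `∏ j, X (s, j) = P * n_s * 2^(x s)`, and `∑ s, n_s 2^(x s) = n` by induction on
`w` (`n = n % 2^(x (w-1)) + ..`, or write `n_s = (n / 2^(x s)) % 2^x` for `s < w - 1`).
-/

set_option autoImplicit false
set_option linter.unusedSectionVars false

namespace Pool.Agent.Lib.Npa

namespace DigitsAux

/-- the digits -/
def XX (w x P n : ℕ) (s j : ℕ) : ℕ :=
  if s + 1 = w then (if j = 0 then P * (n / 2 ^ (x * s)) else 2 ^ x)
  else if j = 0 then P else if j = 1 then (n / 2 ^ (x * s)) % 2 ^ x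
  else if j ≤ s + 1 then 2 ^ x else 1

theorem prod_last (x P n s : ℕ) :
    ∏ j ∈ Finset.range (s + 1), XX (s + 1) x P n s j = P * (n / 2 ^ (x * s)) * 2 ^ (x * s) := by
  rw [Finset.prod_range_succ']
  have h1 : ∏ k ∈ Finset.range s, XX (s + 1) x P n s (k + 1) = 2 ^ (x * s) := by
    rw [Finset.prod_congr rfl (g := fun _ => 2 ^ x) fun k _ => by simp [XX], Finset.prod_const,
      Finset.card_range, pow_mul]
  rw [h1]
  simp only [XX, if_true]
  ring

theorem prod_other (x P n s r : ℕ) :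
    ∏ j ∈ Finset.range (s + r + 2), XX (s + r + 2) x P n s j =
      P * ((n / 2 ^ (x * s)) % 2 ^ x) * 2 ^ (x * s) := by
  rw [Finset.prod_range_succ', Finset.prod_range_succ']
  have hs : s ≠ s + r + 1 := by omega
  have h1 : ∏ k ∈ Finset.range (s + r), XX (s + r + 2) x P n s (k + 1 + 1) = 2 ^ (x * s) := by
    rw [Finset.prod_range_add, Finset.prod_congr rfl (g := fun _ => 2 ^ x) fun k hk => by
      have hk' : k + 1 + 1 ≤ s + 1 := by
        have := Finset.mem_range.1 hk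
        omega
      simp [XX, hk'], Finset.prod_const, Finset.card_range, Finset.prod_eq_one fun k hk => by
      have hk' : ¬ s + k + 1 + 1 ≤ s + 1 := by omega
      simp [XX, hk', hs], mul_one, pow_mul]
  rw [h1]
  have h2 : XX (s + r + 2) x P n s (0 + 1) = (n / 2 ^ (x * s)) % 2 ^ x := by
    simp [XX, hs]
  have h3 : XX (s + r + 2) x P n s 0 = P := by
    simp [XX, hs]
  rw [h2, h3]
  ring

theorem digit_sum (x n k : ℕ) :
    ∑ s ∈ Finset.range k, ((n / 2 ^ (x * s)) % 2 ^ x) * 2 ^ (x * s) +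
      n / 2 ^ (x * k) * 2 ^ (x * k) = n := by
  induction k with
  | zero => simp
  | succ k ih =>
    rw [Finset.sum_range_succ]
    have h1 : n / 2 ^ (x * (k + 1)) = n / 2 ^ (x * k) / 2 ^ x := by
      rw [Nat.div_div_eq_div_mul, ← pow_add, Nat.mul_succ]
    have h2 : n / 2 ^ (x * k) % 2 ^ x + 2 ^ x * (n / 2 ^ (x * k) / 2 ^ x) = n / 2 ^ (x * k) :=
      Nat.mod_add_div _ _
    have h3 : 2 ^ (x * (k + 1)) = 2 ^ (x * k) * 2 ^ x := by rw [← pow_add, Nat.mul_succ]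
    rw [h1, h3]
    calc ∑ s ∈ Finset.range k, ((n / 2 ^ (x * s)) % 2 ^ x) * 2 ^ (x * s) +
          n / 2 ^ (x * k) % 2 ^ x * 2 ^ (x * k) +
          n / 2 ^ (x * k) / 2 ^ x * (2 ^ (x * k) * 2 ^ x)
        = ∑ s ∈ Finset.range k, ((n / 2 ^ (x * s)) % 2 ^ x) * 2 ^ (x * s) +
          (n / 2 ^ (x * k) % 2 ^ x + 2 ^ x * (n / 2 ^ (x * k) / 2 ^ x)) * 2 ^ (x * k) := by ring
      _ = n := by rw [h2, ih]

end DigitsAux

open DigitsAux in
theorem exists_digits {w : ℕ} (hw : 0 < w) (x : ℕ) {P e : ℕ} (hP : 0 < P) (hPe : P ∣ e)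
    (he : e ≤ 2 ^ (x * w)) :
    ∃ X : Fin w × Fin w → ℕ, dsum w X = e ∧ (∀ s, P ∣ X (s, ⟨0, hw⟩)) ∧
      (∀ p, X p ≤ max P (2 ^ x)) ∧ ∀ s, X (s, ⟨w - 1, Nat.sub_lt hw Nat.one_pos⟩) ≤ 2 ^ x := by
  obtain ⟨n, rfl⟩ := hPe
  obtain ⟨k, rfl⟩ : ∃ k, w = k + 1 := ⟨w - 1, by omega⟩
  have h2x : 1 ≤ 2 ^ x := Nat.one_le_two_pow
  have hlast : P * (n / 2 ^ (x * k)) ≤ 2 ^ x := by
    have h1 : P * (n / 2 ^ (x * k)) * 2 ^ (x * k) ≤ 2 ^ x * 2 ^ (x * k) := by
      calc P * (n / 2 ^ (x * k)) * 2 ^ (x * k) = P * (n / 2 ^ (x * k) * 2 ^ (x * k)) := by ring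
        _ ≤ P * n := Nat.mul_le_mul_left _ (Nat.div_mul_le_self _ _)
        _ ≤ 2 ^ (x * (k + 1)) := he
        _ = 2 ^ x * 2 ^ (x * k) := by rw [← pow_add, Nat.mul_succ, Nat.add_comm]
    exact Nat.le_of_mul_le_mul_right h1 (by positivity)
  have hmod : ∀ s, (n / 2 ^ (x * s)) % 2 ^ x ≤ 2 ^ x := fun s =>
    (Nat.mod_lt _ (by positivity)).le
  refine ⟨fun p => XX (k + 1) x P n p.1 p.2, ?_, ?_, ?_, ?_⟩
  · have h1 : ∀ s : Fin (k + 1), ∏ j : Fin (k + 1), XX (k + 1) x P n s j =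
        ∏ j ∈ Finset.range (k + 1), XX (k + 1) x P n s j := fun s =>
      Fin.prod_univ_eq_prod_range (fun j => XX (k + 1) x P n s j) (k + 1)
    unfold dsum
    simp only [h1]
    rw [Fin.sum_univ_eq_sum_range
      (fun s => ∏ j ∈ Finset.range (k + 1), XX (k + 1) x P n s j) (k + 1),
      Finset.sum_range_succ, prod_last]
    have h2 : ∑ s ∈ Finset.range k, ∏ j ∈ Finset.range (k + 1), XX (k + 1) x P n s j =
        ∑ s ∈ Finset.range k, P * (((n / 2 ^ (x * s)) % 2 ^ x) * 2 ^ (x * s)) := by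
      refine Finset.sum_congr rfl fun s hs => ?_
      have hs' := Finset.mem_range.1 hs
      obtain ⟨r, rfl⟩ : ∃ r, k = s + r + 1 := ⟨k - s - 1, by omega⟩
      rw [prod_other, mul_assoc]
    rw [h2, ← Finset.mul_sum, mul_assoc, ← mul_add, digit_sum]
  · intro s
    simp only [XX, if_true]
    split_ifs
    · exact dvd_mul_right _ _
    · exact dvd_rfl
  · rintro ⟨s, j⟩
    simp only [XX]
    split_ifs with h1 h2 h3 h4 h5
    · have hs : (s : ℕ) = k := by omega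
      rw [hs]
      exact hlast.trans (le_max_right _ _)
    · exact le_max_right _ _
    · exact le_max_left _ _
    · exact (hmod _).trans (le_max_right _ _)
    · exact le_max_right _ _
    · exact h2x.trans (le_max_right _ _)
  · intro s
    simp only [XX, Nat.add_sub_cancel]
    split_ifs with h1 h2 h3 h4 h5
    · have hs : (s : ℕ) = k := by omega
      rw [hs]
      exact hlast
    · exact le_rfl
    · exact absurd s.2 (by omega)
    · exact hmod _
    · exact le_rfl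
    · exact h2x

/-- a sum of products vanishes if one factor of each product does -/
theorem dsum_zero {w : ℕ} (j : Fin w) {X : Fin w × Fin w → ℕ} (hX : ∀ s, X (s, j) = 0) :
    dsum w X = 0 :=
  Finset.sum_eq_zero fun s _ => Finset.prod_eq_zero (Finset.mem_univ j) (hX s)

end Pool.Agent.Lib.Npa
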