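import Pool.Agent.Lib.Npa.ThmT
import Pool.Agent.Lib.Npa.Digits

/-!
# Commutators of powers

For signs `σ, σ' ∈ {1, -1}`, `w = lv c`, `w' = lv c'`, on `I = (Fin w × Fin w) ⊕ (Fin w' × Fin w')`:
`F X = ⁅z c ^ (σ * dsum w (X ∘ inl)), z c' ^ (σ' * dsum w' (X ∘ inr))⁆` is `PolF H 0` (`polF_zpow`, `ed_dsum`, `ed_comp`,
`PolF.commu`), with values in `H (w + w')`, `w + w' ≥ 1`. Apply `thmT` for the four choices of `A` (the coordinates `(s, 0)` of
the first or of the second summand) and `B` (the coordinates `(s, w - 1)` of the first, or `(s, w' - 1)` of the second);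
`dsum_zero`. The constant: sum over all `c, c', σ, σ'` and choices (`exists_unif`; `Rep.mono`). Given `e, e'`: `exists_digits`
for `|e|` with `P = kk J w * q` (if it divides `e`), or `P = 1`, and similarly for `e'`. All digits are
`≤ max (kk J 0 * q) 2^m ≤ 2^m`. `J! * (kk J (w + w') * q) ∣ kk J w * q`, because `J - (w + w') + 1 ≤ J - w` if `w < J`; if
`w = J` then `H (w + w') = ⊥` and `F = 1`: the empty list. For `B` take the summand with the smaller of `x, y`.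
-/

set_option autoImplicit false
set_option linter.unusedSectionVars false

namespace Pool.Agent.Lib.Npa

open scoped commutatorElement

/-- uniform constants over a finite type -/
theorem exists_unif {X : Type} [Finite X] {P : X → ℕ → Prop}
    (hm : ∀ x C C', C ≤ C' → P x C → P x C') (h : ∀ x, ∃ C, P x C) : ∃ C, ∀ x, P x C := by
  have := Fintype.ofFinite X
  choose f hf using h
  refine ⟨Finset.univ.sup f, fun x => ?_⟩
  exact hm x (f x) _ (Finset.le_sup (Finset.mem_univ x)) (hf x)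

open Pool.Agent.Lib.Pf720nn (dg dgs PolF)

private def sg (b : Bool) : ℤ := if b then 1 else -1

private theorem exists_sg (e : ℤ) : ∃ b, sg b * (e.natAbs : ℤ) = e := by
  rcases le_total 0 e with h | h
  · exact ⟨true, by simp [sg, abs_of_nonneg h]⟩
  · exact ⟨false, by simp [sg, abs_of_nonpos h]⟩

private abbrev II (w w' : ℕ) : Type := (Fin w × Fin w) ⊕ (Fin w' × Fin w')

private def FF {Γ : Type} [Group Γ] (g g' : Γ) (w w' : ℕ) (b b' : Bool) (X : II w w' → ℕ) : Γ :=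
  ⁅g ^ (sg b * (dsum w (X ∘ Sum.inl) : ℤ)), g' ^ (sg b' * (dsum w' (X ∘ Sum.inr) : ℤ))⁆

private theorem ed_const (n : ℤ) {κ : Type} : Ed 1 (fun _ : κ → ℕ => n) := by
  intro h m
  simp

private theorem FF_L {Γ : Type} [Group Γ] {g g' : Γ} {w w' : ℕ} {b b' : Bool} {X : II w w' → ℕ}
    (j : Fin w) (h : ∀ s, X (Sum.inl (s, j)) = 0) : FF g g' w w' b b' X = 1 := by
  have : dsum w (X ∘ Sum.inl) = 0 := dsum_zero j h
  unfold FF
  rw [this]
  simp

private theorem FF_R {Γ : Type} [Group Γ] {g g' : Γ} {w w' : ℕ} {b b' : Bool} {X : II w w' → ℕ}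
    (j : Fin w') (h : ∀ s, X (Sum.inr (s, j)) = 0) : FF g g' w w' b b' X = 1 := by
  have : dsum w' (X ∘ Sum.inr) = 0 := dsum_zero j h
  unfold FF
  rw [this]
  simp

private theorem FF_pol {Γ : Type} [Group Γ] {H : ℕ → Subgroup Γ} (hF : Antitone H)
    (hc : ∀ i j, ⁅H i, H j⁆ ≤ H (i + j)) {w w' : ℕ} {g g' : Γ} (hg : g ∈ H w) (hg' : g' ∈ H w')
    (b b' : Bool) : PolF H 0 (FF g g' w w' b b') := by
  have e1 : Ed (w + 1) fun X : II w w' → ℕ => sg b * (dsum w (X ∘ Sum.inl) : ℤ) := by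
    have h1 := ed_comp (ed_dsum w) (κ' := II w w')
      { toFun := fun X => X ∘ Sum.inl, map_zero' := rfl, map_add' := fun _ _ => rfl }
    have h2 := ed_mul (a := 0) (b := w) (ed_const (sg b)) h1
    rw [zero_add] at h2
    exact h2
  have e2 : Ed (w' + 1) fun X : II w w' → ℕ => sg b' * (dsum w' (X ∘ Sum.inr) : ℤ) := by
    have h1 := ed_comp (ed_dsum w') (κ' := II w w')
      { toFun := fun X => X ∘ Sum.inr, map_zero' := rfl, map_add' := fun _ _ => rfl }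
    have h2 := ed_mul (a := 0) (b := w') (ed_const (sg b')) h1
    rw [zero_add] at h2
    exact h2
  exact PolF.commu hF hc (polF_zpow hF hg e1) (polF_zpow hF hg' e2)

private theorem FF_mem {Γ : Type} [Group Γ] {H : ℕ → Subgroup Γ}
    (hc : ∀ i j, ⁅H i, H j⁆ ≤ H (i + j)) {w w' : ℕ} {g g' : Γ} (hg : g ∈ H w) (hg' : g' ∈ H w')
    (b b' : Bool) (X : II w w' → ℕ) : FF g g' w w' b b' X ∈ H (w + w') :=
  hc w w' (Subgroup.commutator_mem_commutator (Subgroup.zpow_mem _ hg _)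
    (Subgroup.zpow_mem _ hg' _))

/-- the coordinates `(s, j)` of the first or of the second summand -/
private def sel {w w' : ℕ} (k : Bool) (j : Fin w) (j' : Fin w') : Finset (II w w') :=
  if k then Finset.univ.image (fun s => Sum.inl (s, j))
  else Finset.univ.image (fun s => Sum.inr (s, j'))

private theorem sel_van {Γ : Type} [Group Γ] {g g' : Γ} {w w' : ℕ} {b b' : Bool} (k : Bool)
    (j : Fin w) (j' : Fin w') (X : II w w' → ℕ) (h : ∀ l ∈ sel k j j', X l = 0) :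
    FF g g' w w' b b' X = 1 := by
  cases k with
  | true =>
    exact FF_L j (fun s => h _ (by
      show _ ∈ Finset.univ.image _
      exact Finset.mem_image_of_mem _ (Finset.mem_univ s)))
  | false =>
    exact FF_R j' (fun s => h _ (by
      show _ ∈ Finset.univ.image _
      exact Finset.mem_image_of_mem _ (Finset.mem_univ s)))

private theorem sel_all {w w' : ℕ} {p : ℕ → Prop} (k : Bool)
    (j : Fin w) (j' : Fin w') {X1 : Fin w × Fin w → ℕ} {X2 : Fin w' × Fin w' → ℕ}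
    (h1 : k = true → ∀ s, p (X1 (s, j))) (h2 : k = false → ∀ s, p (X2 (s, j'))) :
    ∀ l ∈ sel k j j', p ((Sum.elim X1 X2 : II w w' → ℕ) l) := by
  intro l hl
  cases k with
  | true =>
    have hl' : l ∈ Finset.univ.image (fun s : Fin w => (Sum.inl (s, j) : II w w')) := hl
    obtain ⟨s, -, rfl⟩ := Finset.mem_image.1 hl'
    exact h1 rfl s
  | false =>
    have hl' : l ∈ Finset.univ.image (fun s : Fin w' => (Sum.inr (s, j') : II w w')) := hl
    obtain ⟨s, -, rfl⟩ := Finset.mem_image.1 hl'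
    exact h2 rfl s

private theorem kk_dvd {J w w' q : ℕ} (hw : w < J) (hw' : 0 < w') :
    J.factorial * (kk J (w + w') * q) ∣ kk J w * q := by
  unfold kk
  rw [← mul_assoc, ← pow_succ']
  exact Nat.mul_dvd_mul_right (pow_dvd_pow _ (by omega)) _

private theorem kk_le {J w : ℕ} : kk J w ≤ kk J 0 := by
  unfold kk
  exact Nat.pow_le_pow_right (Nat.factorial_pos J) (by omega)

private theorem kk_pos {J w : ℕ} : 0 < kk J w := by
  unfold kk
  exact pow_pos (Nat.factorial_pos J) _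

private theorem unif {Γ : Type} [Group Γ] {H : ℕ → Subgroup Γ} {J D : ℕ} {z : Fin D → Γ}
    {lv : Fin D → ℕ} (h : Alg H J z lv) : ∃ C : ℕ, ∀ (c c' : Fin D) (b b' k l : Bool)
      (q X Y : ℕ) (X1 : Fin (lv c) × Fin (lv c) → ℕ) (X2 : Fin (lv c') × Fin (lv c') → ℕ),
      (k = true → ∀ s, J.factorial * (kk J (lv c + lv c') * q) ∣ X1 (s, ⟨0, h.lv_pos c⟩)) →
      (k = false → ∀ s, J.factorial * (kk J (lv c + lv c') * q) ∣ X2 (s, ⟨0, h.lv_pos c'⟩)) →
      (l = true → ∀ s, X1 (s, ⟨lv c - 1, Nat.sub_lt (h.lv_pos c) Nat.one_pos⟩) ≤ X) →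
      (l = false → ∀ s, X2 (s, ⟨lv c' - 1, Nat.sub_lt (h.lv_pos c') Nat.one_pos⟩) ≤ X) →
      (∀ p, X1 p ≤ Y) → (∀ p, X2 p ≤ Y) →
      Rep J z lv (lv c + lv c') C q X Y
        ⁅z c ^ (sg b * (dsum (lv c) X1 : ℤ)), z c' ^ (sg b' * (dsum (lv c') X2 : ℤ))⁆ := by
  have key : ∀ x : Fin D × Fin D × Bool × Bool × Bool × Bool, ∃ C : ℕ,
      ∀ (q X Y : ℕ) (m : II (lv x.1) (lv x.2.1) → ℕ),
      (∀ l ∈ sel x.2.2.2.2.1 (⟨0, h.lv_pos x.1⟩ : Fin (lv x.1)) (⟨0, h.lv_pos x.2.1⟩ : Fin (lv x.2.1)),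
        J.factorial * (kk J (lv x.1 + lv x.2.1) * q) ∣ m l) →
      (∀ l ∈ sel x.2.2.2.2.2
        (⟨lv x.1 - 1, Nat.sub_lt (h.lv_pos x.1) Nat.one_pos⟩ : Fin (lv x.1))
        (⟨lv x.2.1 - 1, Nat.sub_lt (h.lv_pos x.2.1) Nat.one_pos⟩ : Fin (lv x.2.1)), m l ≤ X) →
      (∀ l, m l ≤ Y) → Rep J z lv (lv x.1 + lv x.2.1) C q X Y
        (FF (z x.1) (z x.2.1) (lv x.1) (lv x.2.1) x.2.2.1 x.2.2.2.1 m) := by
    rintro ⟨c, c', b, b', k, l⟩
    exact thmT h (by have := h.lv_pos c; omega) (FF_pol h.anti h.comm (h.mem c) (h.mem c') b b')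
      (FF_mem h.comm (h.mem c) (h.mem c') b b') (sel_van k _ _) (sel_van l _ _)
  obtain ⟨C, hC⟩ := exists_unif (P := fun (x : Fin D × Fin D × Bool × Bool × Bool × Bool) C =>
      ∀ (q X Y : ℕ) (m : II (lv x.1) (lv x.2.1) → ℕ),
      (∀ l ∈ sel x.2.2.2.2.1 (⟨0, h.lv_pos x.1⟩ : Fin (lv x.1)) (⟨0, h.lv_pos x.2.1⟩ : Fin (lv x.2.1)),
        J.factorial * (kk J (lv x.1 + lv x.2.1) * q) ∣ m l) →
      (∀ l ∈ sel x.2.2.2.2.2
        (⟨lv x.1 - 1, Nat.sub_lt (h.lv_pos x.1) Nat.one_pos⟩ : Fin (lv x.1))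
        (⟨lv x.2.1 - 1, Nat.sub_lt (h.lv_pos x.2.1) Nat.one_pos⟩ : Fin (lv x.2.1)), m l ≤ X) →
      (∀ l, m l ≤ Y) → Rep J z lv (lv x.1 + lv x.2.1) C q X Y
        (FF (z x.1) (z x.2.1) (lv x.1) (lv x.2.1) x.2.2.1 x.2.2.2.1 m))
    (fun x C C' hCC h q X Y m h1 h2 h3 => (h q X Y m h1 h2 h3).mono hCC) key
  refine ⟨C, ?_⟩
  intro c c' b b' k l q X Y X1 X2 h1 h2 h3 h4 h5 h6
  exact hC (c, c', b, b', k, l) q X Y (Sum.elim X1 X2)
    (sel_all (p := fun n => J.factorial * (kk J (lv c + lv c') * q) ∣ n) k _ _ h1 h2)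
    (sel_all (p := fun n => n ≤ X) l _ _ h3 h4)
    (by
      rintro (p | p)
      · exact h5 p
      · exact h6 p)

private theorem rep_one {Γ : Type} [Group Γ] {J D : ℕ} {z : Fin D → Γ} {lv : Fin D → ℕ}
    (i C q X Y : ℕ) : Rep J z lv i C q X Y 1 :=
  ⟨[], Nat.zero_le _, rfl, fun p hp => by simp at hp⟩

private theorem comm_bot {Γ : Type} [Group Γ] {H : ℕ → Subgroup Γ} {J D : ℕ} {z : Fin D → Γ}
    {lv : Fin D → ℕ} (h : Alg H J z lv) {c c' : Fin D} (hJ : J + 1 ≤ lv c + lv c') (e e' : ℤ) :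
    ⁅z c ^ e, z c' ^ e'⁆ = 1 := by
  have h1 : ⁅z c ^ e, z c' ^ e'⁆ ∈ H (lv c + lv c') :=
    h.comm _ _ (Subgroup.commutator_mem_commutator (Subgroup.zpow_mem _ (h.mem c) _)
      (Subgroup.zpow_mem _ (h.mem c') _))
  have h2 := h.anti hJ h1
  rw [h.bot] at h2
  exact Subgroup.mem_bot.1 h2

theorem A1 {Γ : Type} [Group Γ] {H : ℕ → Subgroup Γ} {J D : ℕ} {z : Fin D → Γ}
    {lv : Fin D → ℕ} (h : Alg H J z lv) : ∃ C : ℕ, ∀ (c c' : Fin D) (q x y m : ℕ) (e e' : ℤ),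
      0 < q → kk J 0 * q ≤ 2 ^ m → x ≤ m → y ≤ m → |e| ≤ ((2 ^ (x * lv c) : ℕ) : ℤ) →
      |e'| ≤ ((2 ^ (y * lv c') : ℕ) : ℤ) →
      (((kk J (lv c) * q : ℕ) : ℤ) ∣ e ∨ ((kk J (lv c') * q : ℕ) : ℤ) ∣ e') →
      Rep J z lv (lv c + lv c') C q (2 ^ min x y) (2 ^ m) ⁅z c ^ e, z c' ^ e'⁆ := by
  obtain ⟨C, hC⟩ := unif h
  refine ⟨C, ?_⟩
  intro c c' q x y m e e' hq hk hx hy he he' hd
  obtain ⟨b, hb⟩ := exists_sg e
  obtain ⟨b', hb'⟩ := exists_sg e'
  have hn : e.natAbs ≤ 2 ^ (x * lv c) := by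
    have : (e.natAbs : ℤ) ≤ ((2 ^ (x * lv c) : ℕ) : ℤ) := by rw [Int.natCast_natAbs]; exact he
    exact_mod_cast this
  have hn' : e'.natAbs ≤ 2 ^ (y * lv c') := by
    have : (e'.natAbs : ℤ) ≤ ((2 ^ (y * lv c') : ℕ) : ℤ) := by
      rw [Int.natCast_natAbs]; exact he'
    exact_mod_cast this
  have hpx : 2 ^ x ≤ 2 ^ m := Nat.pow_le_pow_right (by norm_num) hx
  have hpy : 2 ^ y ≤ 2 ^ m := Nat.pow_le_pow_right (by norm_num) hy
  have h1m : 1 ≤ 2 ^ m := Nat.one_le_two_pow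
  have hPm : ∀ w, kk J w * q ≤ 2 ^ m := fun w => (Nat.mul_le_mul_right q kk_le).trans hk
  rcases hd with hd | hd
  · -- divisibility of the first exponent
    rcases Nat.lt_or_ge (lv c) J with hJ | hJ
    · have hPe : kk J (lv c) * q ∣ e.natAbs := Int.natCast_dvd.1 hd
      obtain ⟨X1, s1, s2, s3, s4⟩ := exists_digits (h.lv_pos c) x
        (Nat.mul_pos kk_pos hq) hPe hn
      obtain ⟨X2, t1, t2, t3, t4⟩ := exists_digits (h.lv_pos c') y (P := 1)
        Nat.one_pos (one_dvd _) hn'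
      have hY1 : ∀ p, X1 p ≤ 2 ^ m := fun p => (s3 p).trans (max_le (hPm _) hpx)
      have hY2 : ∀ p, X2 p ≤ 2 ^ m := fun p => (t3 p).trans (max_le h1m hpy)
      have hA : ∀ s, J.factorial * (kk J (lv c + lv c') * q) ∣ X1 (s, ⟨0, h.lv_pos c⟩) :=
        fun s => (kk_dvd hJ (h.lv_pos c')).trans (s2 s)
      rw [← hb, ← hb', ← s1, ← t1]
      rcases le_total x y with hxy | hxy
      · rw [min_eq_left hxy]
        exact hC c c' b b' true true q (2 ^ x) (2 ^ m) X1 X2 (fun _ => hA)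
          (fun h => by simp at h) (fun _ => s4) (fun h => by simp at h) hY1 hY2
      · rw [min_eq_right hxy]
        exact hC c c' b b' true false q (2 ^ y) (2 ^ m) X1 X2 (fun _ => hA)
          (fun h => by simp at h) (fun h => by simp at h) (fun _ => t4) hY1 hY2
    · rw [comm_bot h (by have := h.lv_pos c'; omega)]
      exact rep_one _ _ _ _ _
  · rcases Nat.lt_or_ge (lv c') J with hJ | hJ
    · have hPe : kk J (lv c') * q ∣ e'.natAbs := Int.natCast_dvd.1 hd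
      obtain ⟨X1, s1, s2, s3, s4⟩ := exists_digits (h.lv_pos c) x (P := 1)
        Nat.one_pos (one_dvd _) hn
      obtain ⟨X2, t1, t2, t3, t4⟩ := exists_digits (h.lv_pos c') y
        (Nat.mul_pos kk_pos hq) hPe hn'
      have hY1 : ∀ p, X1 p ≤ 2 ^ m := fun p => (s3 p).trans (max_le h1m hpx)
      have hY2 : ∀ p, X2 p ≤ 2 ^ m := fun p => (t3 p).trans (max_le (hPm _) hpy)
      have hA : ∀ s, J.factorial * (kk J (lv c + lv c') * q) ∣ X2 (s, ⟨0, h.lv_pos c'⟩) := by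
        intro s
        have := kk_dvd (q := q) hJ (h.lv_pos c)
        rw [add_comm (lv c') (lv c)] at this
        exact this.trans (t2 s)
      rw [← hb, ← hb', ← s1, ← t1]
      rcases le_total x y with hxy | hxy
      · rw [min_eq_left hxy]
        exact hC c c' b b' false true q (2 ^ x) (2 ^ m) X1 X2 (fun h => by simp at h)
          (fun _ => hA) (fun _ => s4) (fun h => by simp at h) hY1 hY2
      · rw [min_eq_right hxy]
        exact hC c c' b b' false false q (2 ^ y) (2 ^ m) X1 X2 (fun h => by simp at h)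
          (fun _ => hA) (fun h => by simp at h) (fun _ => t4) hY1 hY2
    · rw [comm_bot h (by have := h.lv_pos c; omega)]
      exact rep_one _ _ _ _ _

end Pool.Agent.Lib.Npa
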