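import Pool.Agent.Lib.Npa.A1

/-!
# Commutators of values of `S` with powers

As in `A1.lean`, with `F (n, X) = ⁅S n, z c ^ (σ * dsum w X)⁆` and `⁅(S n)⁻¹, z c ^ (σ * dsum w X)⁆` on
`I = ι ⊕ (Fin w × Fin w)`, `w = lv c`, values in `H (1 + w)` (`H 1 = ⊤`); `A` = the coordinates `(s, 0)`; `B` = all coordinates
in `ι`, or the coordinates `(s, w - 1)`.
-/

set_option autoImplicit false
set_option linter.unusedSectionVars false

namespace Pool.Agent.Lib.Npa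

open Pool.Agent.Lib.Pf720nn (dg dgs PolF)

open scoped commutatorElement

namespace A2Aux

variable {Γ : Type} [Group Γ] {H : ℕ → Subgroup Γ} {J D : ℕ} {z : Fin D → Γ}
    {lv : Fin D → ℕ} {ι : Type}

/-- the commutator map on `ι ⊕ (Fin w × Fin w)` -/
def fm (T : (ι → ℕ) → Γ) (g : Γ) (w : ℕ) (m : ι ⊕ (Fin w × Fin w) → ℕ) : Γ :=
  ⁅T (fun l => m (Sum.inl l)), g ^ ((dsum w fun p => m (Sum.inr p) : ℕ) : ℤ)⁆

/-- the projection to the second summand -/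
def pr2 (ι : Type) (w : ℕ) : (ι ⊕ (Fin w × Fin w) → ℕ) →+ (Fin w × Fin w → ℕ) where
  toFun m := fun p => m (Sum.inr p)
  map_zero' := rfl
  map_add' _ _ := rfl

theorem polF_fm (h : Alg H J z lv) {T : (ι → ℕ) → Γ} (hT : PolF H 0 T) {g : Γ} {w : ℕ}
    (hg : g ∈ H w) : PolF H 0 (fm T g w) := by
  have h1 : PolF H 0 fun m : ι ⊕ (Fin w × Fin w) → ℕ => T (fun l => m (Sum.inl l)) := by
    have := hT.comp (κ' := ι ⊕ (Fin w × Fin w)) (fun m l => m (Sum.inl l)) (fun _ _ => rfl) 0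
    simpa only [add_zero] using this
  have h2 : PolF H 0 fun m : ι ⊕ (Fin w × Fin w) → ℕ =>
      g ^ ((dsum w fun p => m (Sum.inr p) : ℕ) : ℤ) :=
    polF_zpow h.anti hg (ed_comp (ed_dsum w) (pr2 ι w))
  exact PolF.commu h.anti h.comm h1 h2

theorem fm_mem (h : Alg H J z lv) (T : (ι → ℕ) → Γ) {g : Γ} {w : ℕ} (hg : g ∈ H w)
    (m : ι ⊕ (Fin w × Fin w) → ℕ) : fm T g w m ∈ H (w + 1) := by
  have h1 : fm T g w m ∈ ⁅H 1, H w⁆ := by
    refine Subgroup.commutator_mem_commutator ?_ ((H w).zpow_mem hg _)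
    rw [h.top]
    exact Subgroup.mem_top _
  have h2 := h.comm 1 w h1
  rwa [add_comm] at h2

theorem rep_one (i C q X Y : ℕ) : Rep J z lv i C q X Y (1 : Γ) :=
  ⟨[], Nat.zero_le _, rfl, fun _ hp => absurd hp List.not_mem_nil⟩

theorem kk_le (J i : ℕ) : kk J i ≤ kk J 0 :=
  Nat.pow_le_pow_right (Nat.factorial_pos J) (by omega)

theorem kk_pos (J i : ℕ) : 0 < kk J i := Nat.pow_pos (Nat.factorial_pos J)

theorem kk_succ {J i : ℕ} (hi : i < J) : kk J i = J.factorial * kk J (i + 1) := by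
  unfold kk
  rw [← pow_succ']
  congr 1
  omega

theorem main [Fintype ι] [DecidableEq ι] (h : Alg H J z lv) {T : (ι → ℕ) → Γ} (hT : PolF H 0 T)
    (h0 : T 0 = 1) {w : ℕ} (hw : 0 < w) (hwJ : w ≤ J) {g : Γ} (hg : g ∈ H w) :
    ∃ C : ℕ, ∀ (q x y m e : ℕ) (n : ι → ℕ),
      0 < q → kk J 0 * q ≤ 2 ^ m → x ≤ m → y ≤ m → e ≤ 2 ^ (x * w) →
      (∀ l, n l ≤ 2 ^ y) → kk J w * q ∣ e →
      Rep J z lv (w + 1) C q (2 ^ min x y) (2 ^ m) ⁅T n, g ^ e⁆ := by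
  rcases hwJ.eq_or_lt with hwJ | hwJ
  · refine ⟨0, fun q x y m e n _ _ _ _ _ _ _ => ?_⟩
    have h1 : ⁅T n, g ^ e⁆ ∈ H (J + 1) := by
      have h2 : ⁅T n, g ^ e⁆ ∈ ⁅H 1, H w⁆ := by
        refine Subgroup.commutator_mem_commutator ?_ ((H w).pow_mem hg _)
        rw [h.top]
        exact Subgroup.mem_top _
      have h3 := h.comm 1 w h2
      rwa [add_comm, hwJ] at h3
    rw [h.bot, Subgroup.mem_bot] at h1
    rw [h1]
    exact rep_one _ _ _ _ _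
  have hF := polF_fm h hT hg
  have hv := fm_mem h T hg
  have hA : ∀ m : ι ⊕ (Fin w × Fin w) → ℕ,
      (∀ l ∈ (Finset.univ.image fun s : Fin w => (Sum.inr (s, ⟨0, hw⟩) : ι ⊕ (Fin w × Fin w))),
        m l = 0) → fm T g w m = 1 := by
    intro m hm
    have h1 : (dsum w fun p => m (Sum.inr p)) = 0 :=
      dsum_zero ⟨0, hw⟩ fun s => hm _ (Finset.mem_image_of_mem _ (Finset.mem_univ s))
    unfold fm
    rw [h1, Nat.cast_zero, zpow_zero, commutatorElement_one_right]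
  have hB1 : ∀ m : ι ⊕ (Fin w × Fin w) → ℕ,
      (∀ l ∈ (Finset.univ.image fun s : ι => (Sum.inl s : ι ⊕ (Fin w × Fin w))),
        m l = 0) → fm T g w m = 1 := by
    intro m hm
    have h1 : (fun l => m (Sum.inl l)) = (0 : ι → ℕ) :=
      funext fun l => hm _ (Finset.mem_image_of_mem _ (Finset.mem_univ l))
    unfold fm
    rw [h1, h0, commutatorElement_one_left]
  have hB2 : ∀ m : ι ⊕ (Fin w × Fin w) → ℕ,
      (∀ l ∈ (Finset.univ.image fun s : Fin w =>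
        (Sum.inr (s, ⟨w - 1, Nat.sub_lt hw Nat.one_pos⟩) : ι ⊕ (Fin w × Fin w))),
        m l = 0) → fm T g w m = 1 := by
    intro m hm
    have h1 : (dsum w fun p => m (Sum.inr p)) = 0 :=
      dsum_zero ⟨w - 1, Nat.sub_lt hw Nat.one_pos⟩
        fun s => hm _ (Finset.mem_image_of_mem _ (Finset.mem_univ s))
    unfold fm
    rw [h1, Nat.cast_zero, zpow_zero, commutatorElement_one_right]
  obtain ⟨C₁, hC₁⟩ := thmT h (Nat.succ_pos w) hF hv hA hB1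
  obtain ⟨C₂, hC₂⟩ := thmT h (Nat.succ_pos w) hF hv hA hB2
  refine ⟨C₁ + C₂, fun q x y m e n hq hm hx hy he hn hd => ?_⟩
  obtain ⟨X, hX1, hX2, hX3, hX4⟩ :=
    exists_digits hw x (Nat.mul_pos (kk_pos J w) hq) hd he
  have hFm : fm T g w (Sum.elim n X) = ⁅T n, g ^ e⁆ := by
    have h1 : dsum w (fun p => Sum.elim n X (Sum.inr p)) = e := hX1
    unfold fm
    rw [h1, zpow_natCast]
    rfl
  have hYm : ∀ l, Sum.elim n X l ≤ 2 ^ m := by
    rintro (l | p)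
    · exact (hn l).trans (Nat.pow_le_pow_right Nat.two_pos hy)
    · refine (hX3 p).trans (max_le ?_ (Nat.pow_le_pow_right Nat.two_pos hx))
      exact (Nat.mul_le_mul_right q (kk_le J w)).trans hm
  have hAd : ∀ l ∈ (Finset.univ.image fun s : Fin w =>
      (Sum.inr (s, ⟨0, hw⟩) : ι ⊕ (Fin w × Fin w))),
      J.factorial * (kk J (w + 1) * q) ∣ Sum.elim n X l := by
    intro l hl
    obtain ⟨s, -, rfl⟩ := Finset.mem_image.1 hl
    have h1 := hX2 s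
    rw [kk_succ hwJ, mul_assoc] at h1
    exact h1
  rw [← hFm]
  rcases le_total y x with hyx | hxy
  · refine (hC₁ q (2 ^ min x y) (2 ^ m) (Sum.elim n X) hAd ?_ hYm).mono (Nat.le_add_right _ _)
    intro l hl
    obtain ⟨s, -, rfl⟩ := Finset.mem_image.1 hl
    rw [min_eq_right hyx]
    exact hn s
  · refine (hC₂ q (2 ^ min x y) (2 ^ m) (Sum.elim n X) hAd ?_ hYm).mono (Nat.le_add_left _ _)
    intro l hl
    obtain ⟨s, -, rfl⟩ := Finset.mem_image.1 hl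
    rw [min_eq_left hxy]
    exact hX4 s

theorem main2 [Fintype ι] [DecidableEq ι] (h : Alg H J z lv) {T : (ι → ℕ) → Γ}
    (hT : PolF H 0 T) (h0 : T 0 = 1) :
    ∃ C : ℕ, ∀ (c : Fin D) (q x y m : ℕ) (e : ℤ) (n : ι → ℕ),
      0 < q → kk J 0 * q ≤ 2 ^ m → x ≤ m → y ≤ m → |e| ≤ ((2 ^ (x * lv c) : ℕ) : ℤ) →
      (∀ l, n l ≤ 2 ^ y) → ((kk J (lv c) * q : ℕ) : ℤ) ∣ e →
      Rep J z lv (lv c + 1) C q (2 ^ min x y) (2 ^ m) ⁅T n, z c ^ e⁆ := by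
  refine exists_unif ?_ ?_
  · intro c C C' hCC hC q x y m e n hq hm hx hy he hn hd
    exact (hC q x y m e n hq hm hx hy he hn hd).mono hCC
  · intro c
    obtain ⟨C₁, hC₁⟩ := main h hT h0 (h.lv_pos c) (h.lv_le c) (h.mem c)
    obtain ⟨C₂, hC₂⟩ := main h hT h0 (h.lv_pos c) (h.lv_le c) ((H (lv c)).inv_mem (h.mem c))
    refine ⟨C₁ + C₂, fun q x y m e n hq hm hx hy he hn hd => ?_⟩
    have he' : e.natAbs ≤ 2 ^ (x * lv c) := by
      rw [Int.abs_eq_natAbs] at he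
      exact_mod_cast he
    have hd' : kk J (lv c) * q ∣ e.natAbs := Int.natCast_dvd.1 hd
    rcases le_total 0 e with h1 | h1
    · have h2 : z c ^ e = z c ^ e.natAbs := by
        rw [← zpow_natCast, Int.natAbs_of_nonneg h1]
      rw [h2]
      exact (hC₁ q x y m _ n hq hm hx hy he' hn hd').mono (Nat.le_add_right _ _)
    · have h2 : z c ^ e = (z c)⁻¹ ^ e.natAbs := by
        rw [← zpow_natCast, Int.ofNat_natAbs_of_nonpos h1, inv_zpow, zpow_neg, inv_inv]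
      rw [h2]
      exact (hC₂ q x y m _ n hq hm hx hy he' hn hd').mono (Nat.le_add_left _ _)

end A2Aux

theorem A2 {Γ : Type} [Group Γ] {H : ℕ → Subgroup Γ} {J D : ℕ} {z : Fin D → Γ}
    {lv : Fin D → ℕ} (h : Alg H J z lv) {ι : Type} [Fintype ι] [DecidableEq ι]
    {S : (ι → ℕ) → Γ} (hS : PolF H 0 S) (h0 : S 0 = 1) :
    ∃ C : ℕ, ∀ (c : Fin D) (q x y m : ℕ) (e : ℤ) (n : ι → ℕ),
      0 < q → kk J 0 * q ≤ 2 ^ m → x ≤ m → y ≤ m → |e| ≤ ((2 ^ (x * lv c) : ℕ) : ℤ) →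
      (∀ l, n l ≤ 2 ^ y) → ((kk J (lv c) * q : ℕ) : ℤ) ∣ e →
      Rep J z lv (lv c + 1) C q (2 ^ min x y) (2 ^ m) ⁅S n, z c ^ e⁆ ∧
      Rep J z lv (lv c + 1) C q (2 ^ min x y) (2 ^ m) ⁅(S n)⁻¹, z c ^ e⁆ := by
  obtain ⟨C₁, hC₁⟩ := A2Aux.main2 h hS h0
  obtain ⟨C₂, hC₂⟩ := A2Aux.main2 h (hS.inv h.anti h.comm) (by rw [h0, inv_one])
  refine ⟨C₁ + C₂, fun c q x y m e n hq hm hx hy he hn hd => ⟨?_, ?_⟩⟩
  · exact (hC₁ c q x y m e n hq hm hx hy he hn hd).mono (Nat.le_add_right _ _)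
  · exact (hC₂ c q x y m e n hq hm hx hy he hn hd).mono (Nat.le_add_left _ _)

end Pool.Agent.Lib.Npa
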