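import Pool.Agent.Lib.Npa.ThmT

/-!
# Quotients of values of `S`

`thmT` for `F (m, h) = (S m)⁻¹ * S (m + h)` on `ι ⊕ ι`, `i = 1`, `A = B` = the coordinates of `h`;
`J! * (kk J 1 * q) = kk J 0 * q` if `J ≥ 1`; if `J = 0` then `H 1 = ⊥` and `F = 1`.
-/

set_option autoImplicit false
set_option linter.unusedSectionVars false

namespace Pool.Agent.Lib.Npa

open Pool.Agent.Lib.Pf720nn (dg dgs PolF)

theorem A3 {Γ : Type} [Group Γ] {H : ℕ → Subgroup Γ} {J D : ℕ} {z : Fin D → Γ}
    {lv : Fin D → ℕ} (h : Alg H J z lv) {ι : Type} [Fintype ι] [DecidableEq ι]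
    {S : (ι → ℕ) → Γ} (hS : PolF H 0 S) (h0 : S 0 = 1) :
    ∃ C : ℕ, ∀ (q X Y : ℕ) (m k : ι → ℕ), (∀ l, kk J 0 * q ∣ k l) → (∀ l, m l ≤ Y) →
      (∀ l, k l ≤ X) → X ≤ Y → Rep J z lv 1 C q X Y ((S m)⁻¹ * S (m + k)) := by
  rcases Nat.eq_zero_or_pos J with hJ | hJ
  · subst hJ
    refine ⟨0, fun q X Y m k _ _ _ _ => ⟨[], by simp, ?_, by simp⟩⟩
    have h1 : (S m)⁻¹ * S (m + k) ∈ H (0 + 1) := by
      rw [Nat.zero_add, h.top]
      exact Subgroup.mem_top _
    rw [h.bot, Subgroup.mem_bot] at h1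
    rw [h1]
    simp
  · set F : (ι ⊕ ι → ℕ) → Γ := fun x =>
      (S (fun l => x (Sum.inl l)))⁻¹ * S (fun l => x (Sum.inl l) + x (Sum.inr l)) with hF
    have hp1 : PolF H 0 (fun x : ι ⊕ ι → ℕ => S (fun l => x (Sum.inl l))) := by
      have := hS.comp (fun (x : ι ⊕ ι → ℕ) (l : ι) => x (Sum.inl l)) (fun _ _ => rfl) 0
      simpa using this
    have hp2 : PolF H 0 (fun x : ι ⊕ ι → ℕ => S (fun l => x (Sum.inl l) + x (Sum.inr l))) := by
      have := hS.comp (fun (x : ι ⊕ ι → ℕ) (l : ι) => x (Sum.inl l) + x (Sum.inr l))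
        (fun a b => by funext l; simp only [Pi.add_apply]; ring) 0
      simpa using this
    have hFp : PolF H 0 F := (hp1.inv h.anti h.comm).mul h.anti h.comm hp2
    obtain ⟨C, hC⟩ := thmT h (I := ι ⊕ ι) (i := 1) le_rfl hFp
      (fun m => by rw [h.top]; exact Subgroup.mem_top _)
      (A := Finset.univ.image Sum.inr) (B := Finset.univ.image Sum.inr)
      (fun m hm => by
        have : (fun l : ι => m (Sum.inl l) + m (Sum.inr l)) = fun l => m (Sum.inl l) := by
          funext l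
          rw [hm (Sum.inr l) (by simp), add_zero]
        simp only [hF, this, inv_mul_cancel])
      (fun m hm => by
        have : (fun l : ι => m (Sum.inl l) + m (Sum.inr l)) = fun l => m (Sum.inl l) := by
          funext l
          rw [hm (Sum.inr l) (by simp), add_zero]
        simp only [hF, this, inv_mul_cancel])
    refine ⟨C, fun q X Y m k hk hm hkX hXY => ?_⟩
    have hkk : J.factorial * (kk J 1 * q) = kk J 0 * q := by
      unfold kk
      rw [← mul_assoc, ← pow_succ', Nat.sub_zero, Nat.sub_add_cancel hJ]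
    have := hC q X Y (Sum.elim m k) ?_ ?_ ?_
    · exact this
    · intro l hl
      simp only [Finset.mem_image, Finset.mem_univ, true_and] at hl
      obtain ⟨a, rfl⟩ := hl
      rw [hkk]
      exact hk a
    · intro l hl
      simp only [Finset.mem_image, Finset.mem_univ, true_and] at hl
      obtain ⟨a, rfl⟩ := hl
      exact hkX a
    · rintro (l | l)
      · exact hm l
      · exact (hkX l).trans hXY

end Pool.Agent.Lib.Npa
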