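import Pool.Agent.Lib.Npa.A1

/-!
# Iterated differences in coordinate directions

`z = (dgs (s.map e) V 0)⁻¹` (`e j = Pi.single j 1`) has level `s.length = i`. For `η : Fin i → ℕ` or a list `η` of length `i`:
`F (m, η) = (z c ^ η.prod)⁻¹ * (dgs (η_1 e_{s_1}, …, η_i e_{s_i}) V m)⁻¹` is a map on `κ ⊕ Fin i`, `PolF H 0`: the second
factor is the inverse of a map obtained from `V` by additive substitutions, products and inverses (compare
`IsWord.inD`: `dgs (L ++ [h]) V m = dgs L V (m + h) * (dgs L V m)⁻¹`, induction on the length), the first is `polF_zpow` with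
`Ed (i + 1) (∏ η)` (`ed_mul`, `ed_coord`). Values in `H (i + 1)`: `slots_smul` (for `w = V`, `a = 0`). `A = B` = the last
coordinate of `η`: if it is `0` the difference is trivial and so is the power. `J! * (kk J (i + 1) * q) ∣ kk J 0 * q`
always (`J ≥ 1`).
-/

set_option autoImplicit false
set_option linter.unusedSectionVars false

namespace Pool.Agent.Lib.Npa

open Pool.Agent.Lib.Pf720nn (dg dgs PolF dgs_nil dgs_cons)

namespace A4Aux

/-- iterated differences with variable directions are polynomial -/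
lemma polF_dgs {Γ : Type} [Group Γ] {H : ℕ → Subgroup Γ} (hF : Antitone H)
    (hc : ∀ i j, ⁅H i, H j⁆ ≤ H (i + j)) {κ I : Type} {V : (κ → ℕ) → Γ} (hV : PolF H 0 V)
    (L : List ((I → ℕ) →+ (κ → ℕ))) :
    ∀ ρ : (I → ℕ) →+ (κ → ℕ), PolF H 0 fun x => dgs (L.map fun r => r x) V (ρ x) := by
  induction L using List.reverseRecOn with
  | nil =>
    intro ρ
    have := hV.comp (fun x : I → ℕ => ρ x) (fun a b => map_add ρ a b) 0
    simpa using this
  | append_singleton L r ih =>
    intro ρ
    have h1 := ih (ρ + r)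
    have h2 := Pool.Agent.Lib.Pf720nn.PolF.inv hF hc (ih ρ)
    have h3 := Pool.Agent.Lib.Pf720nn.PolF.mul hF hc h1 h2
    have e : (fun x => dgs ((L ++ [r]).map fun r => r x) V (ρ x)) =
        fun x => dgs (L.map fun r => r x) V ((ρ + r) x) * (dgs (L.map fun r => r x) V (ρ x))⁻¹ := by
      funext x
      rw [List.map_append, dgs_append]
      rfl
    rw [e]
    exact h3

lemma ed_const {κ : Type} (z : ℤ) : Ed 1 fun _ : κ → ℕ => z := by
  intro h m
  exact sub_self z

lemma ed_prod {κ : Type} {T : Type} [DecidableEq T] (ι : T → κ) (S : Finset T) :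
    Ed (S.card + 1) fun x : κ → ℕ => ∏ t ∈ S, (x (ι t) : ℤ) := by
  induction S using Finset.induction_on with
  | empty =>
    simp only [Finset.prod_empty, Finset.card_empty, zero_add]
    exact ed_const 1
  | insert a S ha ih =>
    rw [Finset.card_insert_of_notMem ha]
    have := ed_mul (a := 1) (b := S.card) (ed_coord (ι a)) ih
    rw [show 1 + S.card + 1 = S.card + 1 + 1 by ring] at this
    simpa only [Finset.prod_insert ha] using this

lemma zip_eq {κ : Type} [DecidableEq κ] (s : List κ) (η : List ℕ) (hl : η.length = s.length) :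
    List.zipWith (fun n j => (Pi.single j n : κ → ℕ)) η s =
      (List.finRange s.length).map fun t => (Pi.single (s.get t) (η.get (t.cast hl.symm)) : κ → ℕ) := by
  apply List.ext_getElem
  · simp [hl]
  · intro n h1 h2
    simp

lemma zip_smul {κ : Type} [DecidableEq κ] (s : List κ) (η : List ℕ) :
    List.zipWith (fun n j => (Pi.single j n : κ → ℕ)) η s =
      List.zipWith (fun n h => n • h) η (s.map fun j => (Pi.single j 1 : κ → ℕ)) := by
  rw [List.zipWith_map_right]
  congr 1
  funext n j
  rw [← Pi.single_smul]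
  simp

end A4Aux

open A4Aux in
theorem A4 {Γ : Type} [Group Γ] {H : ℕ → Subgroup Γ} {J D : ℕ} {z : Fin D → Γ}
    {lv : Fin D → ℕ} (h : Alg H J z lv) {κ : Type} [Fintype κ] [DecidableEq κ]
    {V : (κ → ℕ) → Γ} (hV : PolF H 0 V) (c : Fin D) (s : List κ) (j : κ)
    (hs : s.length + 1 = lv c)
    (hz : (dgs ((s ++ [j]).map fun j => (Pi.single j 1 : κ → ℕ)) V 0)⁻¹ = z c) :
    ∃ C : ℕ, ∀ (q X Y : ℕ) (m : κ → ℕ) (η : List ℕ) (k : ℕ), η.length = s.length →
      kk J 0 * q ∣ k → (∀ l, m l ≤ Y) → (∀ n ∈ η, n ≤ Y) → k ≤ X → X ≤ Y →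
      Rep J z lv (lv c + 1) C q X Y ((z c ^ (η.prod * k))⁻¹ *
        (dgs (List.zipWith (fun n j => (Pi.single j n : κ → ℕ)) (η ++ [k]) (s ++ [j])) V m)⁻¹) := by
  classical
  obtain ⟨s', hs'⟩ : ∃ s', s' = s ++ [j] := ⟨_, rfl⟩
  have hl : s'.length = lv c := by rw [hs', ← hs]; simp
  have hpos : 0 < s'.length := by rw [hs']; simp
  -- the map
  let ρ (t : Fin s'.length) : (κ ⊕ Fin s'.length → ℕ) →+ (κ → ℕ) :=
    { toFun := fun x => Pi.single (s'.get t) (x (Sum.inr t))
      map_zero' := by simp
      map_add' := fun x y => by simp [Pi.single_add] }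
  let ρ0 : (κ ⊕ Fin s'.length → ℕ) →+ (κ → ℕ) :=
    { toFun := fun x l => x (Sum.inl l)
      map_zero' := rfl
      map_add' := fun x y => rfl }
  let F : (κ ⊕ Fin s'.length → ℕ) → Γ := fun x =>
    (z c ^ (∏ t, (x (Sum.inr t) : ℤ)))⁻¹ *
      (dgs (((List.finRange s'.length).map ρ).map fun r => r x) V (ρ0 x))⁻¹
  have hz' : z c ∈ H (lv c) := h.mem c
  have hFp : PolF H 0 F := by
    refine Pool.Agent.Lib.Pf720nn.PolF.mul h.anti h.comm
      (Pool.Agent.Lib.Pf720nn.PolF.inv h.anti h.comm ?_)
      (Pool.Agent.Lib.Pf720nn.PolF.inv h.anti h.comm (polF_dgs h.anti h.comm hV _ ρ0))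
    refine polF_zpow h.anti hz' ?_
    have := ed_prod (κ := κ ⊕ Fin s'.length) (T := Fin s'.length) Sum.inr Finset.univ
    have e : (Finset.univ : Finset (Fin s'.length)).card = lv c := by
      rw [Finset.card_univ, Fintype.card_fin, hl]
    rw [e] at this
    exact this
  -- the value at a point, in terms of lists
  have hval : ∀ (m : κ → ℕ) (η : List ℕ) (hη : η.length = s'.length),
      F (Sum.elim m fun t => η.get (t.cast hη.symm)) = (z c ^ η.prod)⁻¹ *
        (dgs (List.zipWith (fun n j => (Pi.single j n : κ → ℕ)) η s') V m)⁻¹ := by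
    intro m η hη
    have e1 : (∏ t : Fin s'.length, (((Sum.elim m fun t => η.get (t.cast hη.symm) :
        κ ⊕ Fin s'.length → ℕ) (Sum.inr t) : ℕ) : ℤ)) = ((η.prod : ℕ) : ℤ) := by
      simp only [Sum.elim_inr]
      rw [← Nat.cast_prod]
      congr 1
      rw [← List.prod_ofFn]
      congr 1
      apply List.ext_getElem
      · simp [hη]
      · intro n h1 h2
        simp
    have e2 : (((List.finRange s'.length).map ρ).map fun r =>
        r (Sum.elim m fun t => η.get (t.cast hη.symm))) =
        List.zipWith (fun n j => (Pi.single j n : κ → ℕ)) η s' := by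
      rw [zip_eq s' η hη, List.map_map]
      rfl
    show (z c ^ (∏ t : Fin s'.length, (((Sum.elim m fun t => η.get (t.cast hη.symm) :
        κ ⊕ Fin s'.length → ℕ) (Sum.inr t) : ℕ) : ℤ)))⁻¹ *
      (dgs (((List.finRange s'.length).map ρ).map fun r =>
        r (Sum.elim m fun t => η.get (t.cast hη.symm))) V
        (ρ0 (Sum.elim m fun t => η.get (t.cast hη.symm))))⁻¹ = _
    rw [e1, e2, zpow_natCast]
    rfl
  -- every point has this form
  have hpt : ∀ x : κ ⊕ Fin s'.length → ℕ, ∃ (m : κ → ℕ) (η : List ℕ) (hη : η.length = s'.length),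
      x = Sum.elim m fun t => η.get (t.cast hη.symm) := by
    intro x
    refine ⟨fun l => x (Sum.inl l), List.ofFn fun t => x (Sum.inr t), by simp, ?_⟩
    funext l
    cases l with
    | inl l => rfl
    | inr t => simp
  -- level
  have hN := H_normal h.anti h.comm h.top (lv c + 1)
  have hmem : ∀ x, F x ∈ H (lv c + 1) := by
    intro x
    obtain ⟨m, η, hη, rfl⟩ := hpt x
    rw [hval m η hη]
    have h1 := slots_smul h.anti h.comm h.top hV η (s'.map fun j => (Pi.single j 1 : κ → ℕ))
      (by rw [List.length_map]; exact hη) m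
    rw [← zip_smul, List.length_map, zero_add, hl] at h1
    rw [hs'] at h1 ⊢
    rw [← hz, inv_pow, inv_inv]
    set g := dgs ((s ++ [j]).map fun j => (Pi.single j 1 : κ → ℕ)) V 0 ^ η.prod with hg
    set d := dgs (List.zipWith (fun n j => (Pi.single j n : κ → ℕ)) η (s ++ [j])) V m with hd
    have h2 := hN.conj_mem _ ((H (lv c + 1)).inv_mem h1) g
    have e : g * (g⁻¹ * d)⁻¹ * g⁻¹ = g * d⁻¹ := by group
    rwa [e] at h2
  -- the last coordinate
  let last : Fin s'.length := ⟨s'.length - 1, Nat.sub_lt hpos Nat.one_pos⟩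
  have hzero : ∀ x : κ ⊕ Fin s'.length → ℕ,
      (∀ l ∈ ({Sum.inr last} : Finset (κ ⊕ Fin s'.length)), x l = 0) → F x = 1 := by
    intro x hx
    have hx0 : x (Sum.inr last) = 0 := hx _ (Finset.mem_singleton_self _)
    have e1 : (∏ t, (x (Sum.inr t) : ℤ)) = 0 :=
      Finset.prod_eq_zero (Finset.mem_univ last) (by rw [hx0]; rfl)
    have e2 : dgs (((List.finRange s'.length).map ρ).map fun r => r x) V (ρ0 x) = 1 := by
      apply dgs_of_zero_mem
      rw [List.map_map, List.mem_map]
      refine ⟨last, List.mem_finRange _, ?_⟩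
      show (Pi.single (s'.get last) (x (Sum.inr last)) : κ → ℕ) = 0
      rw [hx0]
      exact Pi.single_zero _
    show (z c ^ (∏ t, (x (Sum.inr t) : ℤ)))⁻¹ *
      (dgs (((List.finRange s'.length).map ρ).map fun r => r x) V (ρ0 x))⁻¹ = 1
    rw [e1, e2]
    simp
  obtain ⟨C, hC⟩ := thmT h (i := lv c + 1) (by omega) hFp hmem hzero hzero
  refine ⟨C, fun q X Y m η k hη hk hm hηY hkX hXY => ?_⟩
  have hlen : (η ++ [k]).length = s'.length := by rw [hs']; simp [hη]
  have key := hC q X Y (Sum.elim m fun t => (η ++ [k]).get (t.cast hlen.symm)) ?_ ?_ ?_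
  · rw [hval m (η ++ [k]) hlen] at key
    rw [hs'] at key
    simpa [List.prod_append] using key
  all_goals
    have hlast : (η ++ [k]).get (last.cast hlen.symm) = k := by
      have e : s'.length - 1 = η.length := by rw [hs', hη]; simp
      simp only [List.get_eq_getElem, Fin.val_cast]
      show (η ++ [k])[s'.length - 1]'_ = k
      simp [e]
  · intro l hl'
    rw [Finset.mem_singleton] at hl'
    subst hl'
    rw [Sum.elim_inr, hlast]
    refine Dvd.dvd.trans ?_ hk
    rw [← mul_assoc]
    refine mul_dvd_mul ?_ dvd_rfl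
    unfold kk
    rw [← pow_succ']
    have := h.lv_pos c
    have := h.lv_le c
    exact pow_dvd_pow _ (by omega)
  · intro l hl'
    rw [Finset.mem_singleton] at hl'
    subst hl'
    rw [Sum.elim_inr, hlast]
    exact hkX
  · intro l
    cases l with
    | inl l => exact hm l
    | inr t =>
      rw [Sum.elim_inr]
      have : (η ++ [k]).get (t.cast hlen.symm) ∈ η ++ [k] := List.get_mem _ _
      rw [List.mem_append, List.mem_singleton] at this
      rcases this with h1 | h1
      · exact hηY _ h1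
      · rw [h1]; omega

end Pool.Agent.Lib.Npa
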