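import Pool.Agent.Lib.Npa.Defs

/-!
# Differences of binomial monomials; powers with polynomial exponents

`Ed n` is closed under sums, negatives, translations `f ↦ f (· + r)` and is increasing in `n`. One variable:
`m ↦ (m l).choose j` is in `Ed (j + 1)`: induction on `j`, `(x + h choose j + 1) - (x choose j + 1) = ∑ t < h, (x + t choose j)`.
Products: `Ed (a + 1) f → Ed (b + 1) g → Ed (a + b + 1) (f g)`, by induction on `a + b` (or on both), with
`Δ_h (f g) = Δ_h f * g (· + h) + f * Δ_h g`. So `bin · α ∈ Ed (∑ α + 1)` (`Finset` induction over the variables).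

`polF_zpow`: `dgs hs (fun m => g ^ p m) m = g ^ (Δ_hs p m)` (compare `PPowAux.dgs_zpow`, `PPowAux.dz_zero` in
Lib/Pf720nn/PPow.lean); it is `1` for `hs.length ≥ i + 1` and in `H i ≤ H hs.length` for `hs.length ≤ i`.
-/

set_option autoImplicit false
set_option linter.unusedSectionVars false

namespace Pool.Agent.Lib.Npa

open Pool.Agent.Lib.Pf720nn (dg dgs PolF)

namespace BinAux

section

variable {κ : Type} {A : Type} [AddCommGroup A]

lemma ed_zero (n : ℕ) {f : (κ → ℕ) → A} (hf : ∀ m, f m = 0) : Ed n f := by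
  induction n generalizing f with
  | zero => exact hf
  | succ n ih => exact fun h => ih fun m => by rw [hf, hf, sub_zero]

lemma ed_succ {n : ℕ} {f : (κ → ℕ) → A} (hf : Ed n f) : Ed (n + 1) f := by
  induction n generalizing f with
  | zero => exact ed_zero 1 hf
  | succ n ih => exact fun h => ih (hf h)

lemma ed_mono {n k : ℕ} (hnk : n ≤ k) {f : (κ → ℕ) → A} (hf : Ed n f) : Ed k f := by
  induction hnk with
  | refl => exact hf
  | step _ ih => exact ed_succ ih

lemma ed_const (n : ℕ) (c : A) : Ed (n + 1) (fun _ : κ → ℕ => c) := by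
  intro h
  exact ed_zero n fun m => sub_self c

lemma ed_add {n : ℕ} {f g : (κ → ℕ) → A} (hf : Ed n f) (hg : Ed n g) :
    Ed n (fun m => f m + g m) := by
  induction n generalizing f g with
  | zero =>
    intro m
    show f m + g m = 0
    rw [hf m, hg m, add_zero]
  | succ n ih =>
    intro h
    have h1 := ih (hf h) (hg h)
    have e : (fun m => f (m + h) + g (m + h) - (f m + g m)) =
        fun m => (f (m + h) - f m) + (g (m + h) - g m) := by
      funext m
      abel
    show Ed n (fun m => f (m + h) + g (m + h) - (f m + g m))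
    rw [e]
    exact h1

lemma ed_neg {n : ℕ} {f : (κ → ℕ) → A} (hf : Ed n f) : Ed n (fun m => -f m) := by
  induction n generalizing f with
  | zero =>
    intro m
    show -f m = 0
    rw [hf m, neg_zero]
  | succ n ih =>
    intro h
    have h1 := ih (hf h)
    have e : (fun m => -f (m + h) - -f m) = fun m => -(f (m + h) - f m) := by
      funext m
      abel
    show Ed n (fun m => -f (m + h) - -f m)
    rw [e]
    exact h1

lemma ed_trans {n : ℕ} (r : κ → ℕ) {f : (κ → ℕ) → A} (hf : Ed n f) :
    Ed n (fun m => f (m + r)) := by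
  induction n generalizing f with
  | zero => exact fun m => hf (m + r)
  | succ n ih =>
    intro h
    have h1 := ih (hf h)
    have e : (fun m => f (m + h + r) - f (m + r)) = fun m => f (m + r + h) - f (m + r) := by
      funext m
      rw [add_right_comm]
    show Ed n (fun m => f (m + h + r) - f (m + r))
    rw [e]
    exact h1

lemma ed_sum {σ : Type} {n : ℕ} (s : Finset σ) (f : σ → (κ → ℕ) → A)
    (hf : ∀ i ∈ s, Ed n (f i)) : Ed n (fun m => ∑ i ∈ s, f i m) := by
  classical
  induction s using Finset.induction_on with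
  | empty => exact ed_zero n fun m => by simp
  | insert a s ha ih =>
    have e : (fun m => ∑ i ∈ insert a s, f i m) = fun m => f a m + ∑ i ∈ s, f i m := by
      funext m
      rw [Finset.sum_insert ha]
    rw [e]
    exact ed_add (hf a (Finset.mem_insert_self a s))
      (ih fun i hi => hf i (Finset.mem_insert_of_mem hi))

end

section

variable {κ : Type}

lemma ed_mul_aux (n : ℕ) : ∀ (a b : ℕ) (f g : (κ → ℕ) → ℤ), a + b = n → Ed (a + 1) f →
    Ed (b + 1) g → Ed (n + 1) (fun m => f m * g m) := by
  induction n with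
  | zero =>
    intro a b f g hab hf hg h
    obtain rfl : a = 0 := by omega
    obtain rfl : b = 0 := by omega
    intro m
    have h1 : f (m + h) = f m := sub_eq_zero.1 (hf h m)
    have h2 : g (m + h) = g m := sub_eq_zero.1 (hg h m)
    show f (m + h) * g (m + h) - f m * g m = 0
    rw [h1, h2, sub_self]
  | succ n ih =>
    intro a b f g hab hf hg h
    have e : (fun m => f (m + h) * g (m + h) - f m * g m) =
        fun m => (f (m + h) - f m) * g (m + h) + f m * (g (m + h) - g m) := by
      funext m
      ring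
    show Ed (n + 1) (fun m => f (m + h) * g (m + h) - f m * g m)
    rw [e]
    apply ed_add
    · rcases a with _ | a
      · exact ed_zero _ fun m => by
          have h1 : f (m + h) - f m = 0 := hf h m
          rw [h1, zero_mul]
      · exact ih a b _ _ (by omega) (hf h) (ed_trans h hg)
    · rcases b with _ | b
      · exact ed_zero _ fun m => by
          have h1 : g (m + h) - g m = 0 := hg h m
          rw [h1, mul_zero]
      · exact ih a b _ _ (by omega) hf (hg h)

lemma choose_add_sub (x h j : ℕ) : (((x + h).choose (j + 1) : ℕ) : ℤ) - (x.choose (j + 1) : ℕ) =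
    ∑ t ∈ Finset.range h, ((x + t).choose j : ℤ) := by
  induction h with
  | zero => simp
  | succ h ih =>
    rw [Finset.sum_range_succ, ← ih, ← add_assoc, Nat.choose_succ_succ]
    push_cast
    ring

lemma ed_choose (l : κ) (j : ℕ) : Ed (j + 1) (fun m : κ → ℕ => ((m l).choose j : ℤ)) := by
  induction j with
  | zero =>
    have e : (fun m : κ → ℕ => ((m l).choose 0 : ℤ)) = fun _ => 1 := by
      funext m
      simp
    rw [e]
    exact ed_const 0 1
  | succ j ih =>
    intro h
    have e : (fun m : κ → ℕ => (((m + h) l).choose (j + 1) : ℤ) - ((m l).choose (j + 1) : ℤ)) =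
        fun m => ∑ t ∈ Finset.range (h l), (((m + (fun _ => t : κ → ℕ)) l).choose j : ℤ) := by
      funext m
      exact choose_add_sub (m l) (h l) j
    show Ed (j + 1)
      (fun m : κ → ℕ => (((m + h) l).choose (j + 1) : ℤ) - ((m l).choose (j + 1) : ℤ))
    rw [e]
    exact ed_sum _ _ fun t _ => ed_trans (fun _ => t) ih

lemma ed_prod {σ : Type} (s : Finset σ) (a : σ → ℕ) (f : σ → (κ → ℕ) → ℤ)
    (hf : ∀ i ∈ s, Ed (a i + 1) (f i)) :
    Ed (∑ i ∈ s, a i + 1) (fun m => ∏ i ∈ s, f i m) := by
  classical
  induction s using Finset.induction_on with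
  | empty =>
    have e : (fun m : κ → ℕ => ∏ i ∈ (∅ : Finset σ), f i m) = fun _ => 1 := by
      funext m
      simp
    rw [e]
    exact ed_const _ 1
  | insert c s hc ih =>
    have e : (fun m => ∏ i ∈ insert c s, f i m) = fun m => f c m * ∏ i ∈ s, f i m := by
      funext m
      rw [Finset.prod_insert hc]
    rw [e]
    exact ed_mul_aux _ (a c) (∑ i ∈ s, a i) _ _ (Finset.sum_insert hc).symm
      (hf c (Finset.mem_insert_self c s)) (ih fun i hi => hf i (Finset.mem_insert_of_mem hi))

/-- iterated additive differences -/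
def dz : List (κ → ℕ) → ((κ → ℕ) → ℤ) → (κ → ℕ) → ℤ
  | [], f => f
  | h :: hs, f => dz hs (fun m => f (m + h) - f m)

lemma dgs_zpow {G : Type} [Group G] (g : G) (hs : List (κ → ℕ)) (f : (κ → ℕ) → ℤ) (m : κ → ℕ) :
    dgs hs (fun m => g ^ f m) m = g ^ dz hs f m := by
  induction hs generalizing f with
  | nil => rfl
  | cons h hs ih =>
    show dgs hs (dg h fun m => g ^ f m) m = _
    have e : dg h (fun m => g ^ f m) = fun m => g ^ ((fun m => f (m + h) - f m) m) := by
      funext n
      show g ^ f (n + h) * (g ^ f n)⁻¹ = g ^ (f (n + h) - f n)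
      rw [zpow_sub]
    rw [e, ih]
    rfl

lemma dz_zero (hs : List (κ → ℕ)) : ∀ {n : ℕ} {f : (κ → ℕ) → ℤ}, Ed n f → n ≤ hs.length →
    ∀ m, dz hs f m = 0 := by
  induction hs with
  | nil =>
    intro n f hf hn m
    obtain rfl : n = 0 := by simpa using hn
    exact hf m
  | cons h hs ih =>
    intro n f hf hn m
    rcases n with _ | n
    · exact ih (n := 0) (f := fun m => f (m + h) - f m)
        (fun m => by
          show f (m + h) - f m = 0
          rw [hf (m + h), hf m, sub_zero]) (Nat.zero_le _) m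
    · exact ih (hf h) (by simpa using hn) m

end

end BinAux

open BinAux in
theorem ed_mul {κ : Type} {a b : ℕ} {f g : (κ → ℕ) → ℤ} (hf : Ed (a + 1) f) (hg : Ed (b + 1) g) :
    Ed (a + b + 1) fun m => f m * g m := ed_mul_aux _ a b f g rfl hf hg

theorem ed_coord {κ : Type} (l : κ) : Ed 2 fun m : κ → ℕ => (m l : ℤ) := by
  have h := BinAux.ed_choose l 1
  simpa using h

theorem ed_bin {I : Type} [Fintype I] (α : I → ℕ) :
    Ed (∑ l, α l + 1) fun m : I → ℕ => (bin m α : ℤ) := by
  have h := BinAux.ed_prod (κ := I) Finset.univ α (fun l m => ((m l).choose (α l) : ℤ))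
    fun l _ => BinAux.ed_choose l (α l)
  have e : (fun m : I → ℕ => (bin m α : ℤ)) = fun m => ∏ l, ((m l).choose (α l) : ℤ) := by
    funext m
    unfold bin
    push_cast
    rfl
  rw [e]
  exact h

theorem ed_PC0 {I : Type} [Fintype I] {i : ℕ} {p : (I → ℕ) → ℤ} (hp : p ∈ PC0 I i) :
    Ed (i + 1) p := by
  unfold PC0 at hp
  induction hp using AddSubgroup.closure_induction with
  | mem x hx =>
    obtain ⟨α, h1, rfl⟩ := hx
    exact BinAux.ed_mono (by omega) (ed_bin α)
  | zero => exact BinAux.ed_zero _ fun m => rfl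
  | add x y _ _ hx hy => exact BinAux.ed_add hx hy
  | neg x _ hx => exact BinAux.ed_neg hx

theorem ed_dsum (w : ℕ) : Ed (w + 1) fun X : Fin w × Fin w → ℕ => (dsum w X : ℤ) := by
  have e : (fun X : Fin w × Fin w → ℕ => (dsum w X : ℤ)) =
      fun X => ∑ s : Fin w, ∏ j : Fin w, (X (s, j) : ℤ) := by
    funext X
    unfold dsum
    push_cast
    rfl
  rw [e]
  refine BinAux.ed_sum Finset.univ _ fun s _ => ?_
  have h := BinAux.ed_prod (κ := Fin w × Fin w) Finset.univ (fun _ : Fin w => 1)
    (fun j X => (X (s, j) : ℤ)) fun j _ => ed_coord (s, j)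
  have h2 : ∑ _i : Fin w, 1 = w := by simp
  rw [h2] at h
  exact h

theorem ed_comp {κ κ' : Type} {A : Type} [AddCommGroup A] {n : ℕ} {f : (κ → ℕ) → A} (hf : Ed n f)
    (ρ : (κ' → ℕ) →+ (κ → ℕ)) : Ed n fun m => f (ρ m) := by
  induction n generalizing f with
  | zero => exact fun m => hf (ρ m)
  | succ n ih =>
    intro h
    have h1 := ih (hf (ρ h))
    have e : (fun m => f (ρ (m + h)) - f (ρ m)) = fun m => f (ρ m + ρ h) - f (ρ m) := by
      funext m
      rw [map_add]
    show Ed n (fun m => f (ρ (m + h)) - f (ρ m))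
    rw [e]
    exact h1

theorem polF_zpow {Γ : Type} [Group Γ] {κ : Type} {H : ℕ → Subgroup Γ} (hF : Antitone H) {i : ℕ}
    {g : Γ} (hg : g ∈ H i) {p : (κ → ℕ) → ℤ} (hp : Ed (i + 1) p) :
    PolF H 0 fun m => g ^ p m := by
  intro hs m
  rw [BinAux.dgs_zpow]
  by_cases h : i + 1 ≤ hs.length
  · rw [BinAux.dz_zero hs hp h m, zpow_zero]
    exact Subgroup.one_mem _
  · exact Subgroup.zpow_mem _ (hF (by omega) hg) _

end Pool.Agent.Lib.Npa
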