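import Pool.Agent.Lib.Npa.Defs

/-!
# From `Rep` to bounded products of elements of boxes
-/

set_option autoImplicit false
set_option linter.unusedSectionVars false

namespace Pool.Agent.Lib.Npa

variable {Γ : Type} [Group Γ] {J D : ℕ} {z : Fin D → Γ} {lv : Fin D → ℕ}

/-- a product of at most `C` powers `z c ^ e` with `c0 ≤ c`, `kk J (lv c) * q ∣ e`, `|e| ≤ 2 ^ (x * lv c)` -/
def RepB (J : ℕ) {D : ℕ} (z : Fin D → Γ) (lv : Fin D → ℕ) (C c0 q x : ℕ) (g : Γ) : Prop :=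
  ∃ L : List (Fin D × ℤ), L.length ≤ C ∧ (L.map fun p => z p.1 ^ p.2).prod = g ∧
    ∀ p ∈ L, c0 ≤ p.1.1 ∧ ((kk J (lv p.1) * q : ℕ) : ℤ) ∣ p.2 ∧
      |p.2| ≤ ((2 ^ (x * lv p.1) : ℕ) : ℤ)

theorem Rep.toB {i C q x m t c0 : ℕ} {g : Γ} (h : Rep J z lv i C q (2 ^ x) (2 ^ m) g)
    (h1 : ∀ c, 1 ≤ lv c) (hJ : ∀ c, lv c ≤ J) (hJ1 : 1 ≤ J) (hc : ∀ c : Fin D, i ≤ lv c → c0 ≤ c.1)
    (hx : x + J * t ≤ m) {C' : ℕ} (hC : C ≤ C') : RepB J z lv C' c0 q (m + C' - t) g := by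
  obtain ⟨L, hL, hg, hp⟩ := h
  refine ⟨L, hL.trans hC, hg, fun p hpL => ?_⟩
  obtain ⟨h2, h3, h4⟩ := hp p hpL
  refine ⟨hc _ h2, h3, h4.trans ?_⟩
  norm_cast
  have hl1 := h1 p.1
  have hlJ := hJ p.1
  obtain ⟨l, hl⟩ : ∃ l, lv p.1 = l + 1 := ⟨lv p.1 - 1, by omega⟩
  rw [hl] at hlJ ⊢
  have e1 : C ≤ 2 ^ C := (Nat.lt_two_pow_self).le
  calc C * 2 ^ x * (2 ^ m) ^ (l + 1 - 1) ≤ 2 ^ C * 2 ^ x * (2 ^ m) ^ l := by
        rw [Nat.add_sub_cancel]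
        gcongr
    _ = 2 ^ (C + x + m * l) := by
        rw [← pow_add, ← pow_mul, ← pow_add]
    _ ≤ 2 ^ ((m + C' - t) * (l + 1)) := by
        refine Nat.pow_le_pow_right (by norm_num) ?_
        have ht : t ≤ J * t := Nat.le_mul_of_pos_left _ hJ1
        obtain ⟨s, hs⟩ : ∃ s, m + C' = s + t := ⟨m + C' - t, by omega⟩
        rw [hs, Nat.add_sub_cancel]
        have h5 : t * (l + 1) ≤ J * t := by
          rw [mul_comm]
          exact Nat.mul_le_mul_right _ hlJ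
        have h6 : (s + t) * (l + 1) = (m + C') * (l + 1) := by rw [hs]
        have h7 : C' ≤ C' * (l + 1) := Nat.le_mul_of_pos_right _ (by omega)
        nlinarith

theorem RepB.mono {C C' c0 q x : ℕ} {g : Γ} (hC : C ≤ C') (h : RepB J z lv C c0 q x g) :
    RepB J z lv C' c0 q x g := by
  obtain ⟨L, hL, hg, hp⟩ := h
  exact ⟨L, hL.trans hC, hg, hp⟩

theorem RepB.map {Γ' : Type} [Group Γ'] (φ : Γ →* Γ') {C c0 q x : ℕ} {g : Γ}
    (h : RepB J z lv C c0 q x g) : RepB J (fun c => φ (z c)) lv C c0 q x (φ g) := by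
  obtain ⟨L, hL, hg, hp⟩ := h
  refine ⟨L, hL, ?_, hp⟩
  rw [← hg, map_list_prod, List.map_map]
  congr 1
  refine List.map_congr_left fun p _ => ?_
  simp

end Pool.Agent.Lib.Npa
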