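import Pool.Agent.Lib.Npa.Defs

/-!
# The word `W` and the enumeration of sequences: definitions
-/

set_option autoImplicit false
set_option linter.unusedSectionVars false

namespace Pool.Agent.Lib.Npa

open Pool.Agent.Lib.Pf720nn (dg dgs PolF)

/-- `∏_{j < r} S(x_{j,0})⁻¹ S(x_{j,1})` -/
def WW {ι : Type} {G : Type} [Group G] (S : (ι → ℕ) → G) (r : ℕ)
    (x : Fin r × Bool × ι → ℕ) : G :=
  (List.ofFn fun j : Fin r => (S fun l => x (j, false, l))⁻¹ * S fun l => x (j, true, l)).prod

/-- all lists of length `n` over a list -/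
def allSeq {κ : Type} (E : List κ) : ℕ → List (List κ)
  | 0 => [[]]
  | n + 1 => E.flatMap fun a => (allSeq E n).map (a :: ·)

/-- all lists of lengths `1, …, J` over a list -/
def allSeqs {κ : Type} (E : List κ) (J : ℕ) : List (List κ) :=
  (List.range J).flatMap fun i => allSeq E (i + 1)

end Pool.Agent.Lib.Npa
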