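import Pool.Agent.Lib.Npa.DDefs

/-!
# Every word is a substitution of `W`
-/

set_option autoImplicit false
set_option linter.unusedSectionVars false

namespace Pool.Agent.Lib.Npa

open Pool.Agent.Lib.Pf720nn (dg dgs PolF)

theorem prod_ofFn_pad {α G : Type} [Group G] (f : α → G) (L : List α) : ∀ r : ℕ, L.length ≤ r →
    (List.ofFn fun j : Fin r => if h : j.1 < L.length then f L[j.1] else 1).prod =
      (L.map f).prod := by
  induction L with
  | nil =>
    intro r _
    refine List.prod_eq_one fun x hx => ?_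
    rw [List.mem_ofFn'] at hx
    obtain ⟨j, rfl⟩ := hx
    simp
  | cons a L ih =>
    intro r hr
    cases r with
    | zero => simp at hr
    | succ r =>
      rw [List.ofFn_succ, List.prod_cons, List.map_cons, List.prod_cons,
        ← ih r (by simpa using hr)]
      congr 1
      congr 1
      refine congrArg _ (funext fun j => ?_)
      by_cases hj : j.1 < L.length
      · rw [dif_pos hj, dif_pos (by simpa using hj)]
        simp
      · rw [dif_neg hj, dif_neg (by simpa using hj)]

variable {ι : Type} {G : Type} [Group G] (S : (ι → ℕ) → G) {κ : Type}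

/-- the substitution of a list of pairs -/
def emb (L : List (((κ → ℕ) →+ (ι → ℕ)) × ((κ → ℕ) →+ (ι → ℕ)))) (r : ℕ) :
    (κ → ℕ) →+ (Fin r × Bool × ι → ℕ) where
  toFun x p := if h : p.1.1 < L.length then (if p.2.1 then L[p.1.1].2 x p.2.2 else L[p.1.1].1 x p.2.2)
    else 0
  map_zero' := by
    funext p
    split <;> simp
  map_add' x y := by
    funext p
    by_cases h : p.1.1 < L.length
    · by_cases h' : p.2.1 = true
      · simp [h, h']
      · simp [h, h']
    · simp [h]

theorem WW_emb (L : List (((κ → ℕ) →+ (ι → ℕ)) × ((κ → ℕ) →+ (ι → ℕ)))) {r : ℕ}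
    (hr : L.length ≤ r) (x : κ → ℕ) : WW S r (emb L r x) = wv S L x := by
  unfold WW wv
  rw [← prod_ofFn_pad _ L r hr]
  congr 1
  refine congrArg _ (funext fun j => ?_)
  by_cases h : j.1 < L.length
  · rw [dif_pos h]
    have h1 : (fun l => emb L r x (j, false, l)) = L[j.1].1 x := by
      funext l
      simp [emb, h]
    have h2 : (fun l => emb L r x (j, true, l)) = L[j.1].2 x := by
      funext l
      simp [emb, h]
    rw [h1, h2]
  · rw [dif_neg h]
    have h1 : (fun l => emb L r x (j, false, l)) = 0 := by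
      funext l
      simp [emb, h]
    have h2 : (fun l => emb L r x (j, true, l)) = 0 := by
      funext l
      simp [emb, h]
    rw [h1, h2, inv_mul_cancel]

theorem exists_emb {v : (κ → ℕ) → G} (hv : IsWord S v) : ∃ r₀ : ℕ, ∀ r, r₀ ≤ r →
    ∃ ρ : (κ → ℕ) →+ (Fin r × Bool × ι → ℕ), ∀ x, v x = WW S r (ρ x) := by
  obtain ⟨L, rfl⟩ := hv
  exact ⟨L.length, fun r hr => ⟨emb L r, fun x => (WW_emb S L hr x).symm⟩⟩

/-- a coordinate block -/
def blk (ι : Type) (r : ℕ) (j : Fin r) (b : Bool) : (Fin r × Bool × ι → ℕ) →+ (ι → ℕ) where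
  toFun x l := x (j, b, l)
  map_zero' := rfl
  map_add' _ _ := rfl

theorem isWord_WW (r : ℕ) : IsWord S (WW S r) := by
  refine ⟨List.ofFn fun j : Fin r => (blk ι r j false, blk ι r j true), ?_⟩
  funext x
  unfold WW wv
  rw [List.map_ofFn]
  rfl

end Pool.Agent.Lib.Npa
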