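import Pool.Agent.Lib.Npa.DDefs

/-!
# Enumeration of sequences
-/

set_option autoImplicit false
set_option linter.unusedSectionVars false

namespace Pool.Agent.Lib.Npa

variable {κ : Type}

theorem mem_allSeq {E : List κ} (hE : ∀ a, a ∈ E) {n : ℕ} {l : List κ} :
    l ∈ allSeq E n ↔ l.length = n := by
  induction n generalizing l with
  | zero => simp [allSeq]
  | succ n ih =>
    simp only [allSeq, List.mem_flatMap, List.mem_map]
    constructor
    · rintro ⟨a, _, t, ht, rfl⟩
      rw [List.length_cons, ih.1 ht]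
    · intro h
      cases l with
      | nil => simp at h
      | cons a t => exact ⟨a, hE a, t, ih.2 (by simpa using h), rfl⟩

theorem mem_allSeqs {E : List κ} (hE : ∀ a, a ∈ E) {J : ℕ} {l : List κ} :
    l ∈ allSeqs E J ↔ 1 ≤ l.length ∧ l.length ≤ J := by
  simp only [allSeqs, List.mem_flatMap, List.mem_range, mem_allSeq hE]
  constructor
  · rintro ⟨a, ha, h⟩
    omega
  · rintro ⟨h1, h2⟩
    exact ⟨l.length - 1, by omega, by omega⟩

theorem allSeqs_pairwise {E : List κ} (hE : ∀ a, a ∈ E) (J : ℕ) :
    (allSeqs E J).Pairwise fun l l' => l.length ≤ l'.length := by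
  unfold allSeqs
  rw [List.pairwise_flatMap]
  constructor
  · intro i _
    refine List.Pairwise.imp_of_mem ?_ (List.pairwise_of_forall (fun _ _ => trivial))
    intro a b ha hb _
    rw [(mem_allSeq hE).1 ha, (mem_allSeq hE).1 hb]
  · refine List.Pairwise.imp ?_ List.pairwise_lt_range
    intro a b hab x hx y hy
    rw [(mem_allSeq hE).1 hx, (mem_allSeq hE).1 hy]
    omega

end Pool.Agent.Lib.Npa
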