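import Pool.Agent.Lib.Npa.Slot

/-!
# Iterated differences are generated by those in the coordinate directions

Claim, by induction on `hs`, for all lists `pre` of coordinates:
`dgs (pre.map e ++ hs) w m ∈ closure {dgs (l.map e) w 0 : l.length = pre.length + hs.length} ⊔ H (a + pre.length + hs.length + 1)`,
`e j = Pi.single j 1`. `hs = []`: `base`. `hs = h :: rest`: the set of `h` with the claim (for all `m`) contains the
unit vectors (induction hypothesis with `pre ++ [j]`) and `0` and is closed under sums (`slot`, the sum of two
subgroups one of which is normal), so it is everything (`Finset.univ_sum_single`, `Finset.sum_induction`).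
-/

set_option autoImplicit false
set_option linter.unusedSectionVars false

namespace Pool.Agent.Lib.Npa

open Pool.Agent.Lib.Pf720nn (dg dgs PolF)

variable {Γ : Type} [Group Γ] {κ : Type} [Fintype κ] [DecidableEq κ] {H : ℕ → Subgroup Γ}

theorem gen_aux (hF : Antitone H) (hc : ∀ i j, ⁅H i, H j⁆ ≤ H (i + j)) (ht : H 1 = ⊤)
    {a : ℕ} {w : (κ → ℕ) → Γ} (hw : PolF H a w) (hs : List (κ → ℕ)) :
    ∀ (pre : List κ) (m : κ → ℕ),
      dgs (pre.map (fun j => (Pi.single j 1 : κ → ℕ)) ++ hs) w m ∈
        Subgroup.closure {g | ∃ l : List κ, l.length = pre.length + hs.length ∧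
          g = dgs (l.map fun j => (Pi.single j 1 : κ → ℕ)) w 0} ⊔
          H (a + pre.length + hs.length + 1) := by
  induction hs with
  | nil =>
    intro pre m
    have h1 := base hF hc ht hw (pre.map fun j => (Pi.single j 1 : κ → ℕ)) m 0
    rw [List.length_map] at h1
    rw [List.append_nil, List.length_nil, Nat.add_zero, Nat.add_zero,
      ← mul_inv_cancel_left (dgs (pre.map fun j => (Pi.single j 1 : κ → ℕ)) w 0)
        (dgs (pre.map fun j => (Pi.single j 1 : κ → ℕ)) w m)]
    refine Subgroup.mul_mem _ ?_ ?_
    · exact Subgroup.mem_sup_left (Subgroup.subset_closure ⟨pre, rfl, rfl⟩)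
    · exact Subgroup.mem_sup_right h1
  | cons h rest ih =>
    intro pre
    set K : Subgroup Γ := Subgroup.closure {g | ∃ l : List κ,
      l.length = pre.length + (h :: rest).length ∧
        g = dgs (l.map fun j => (Pi.single j 1 : κ → ℕ)) w 0} ⊔
        H (a + pre.length + (h :: rest).length + 1) with hK
    let P : (κ → ℕ) → Prop := fun h => ∀ m : κ → ℕ,
      dgs (pre.map (fun j => (Pi.single j 1 : κ → ℕ)) ++ h :: rest) w m ∈ K
    have hP0 : P 0 := by
      intro m
      rw [dgs_of_zero_mem (by simp)]
      exact K.one_mem
    have hPadd : ∀ x y, P x → P y → P (x + y) := by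
      intro x y hx hy m
      have h1 := slot hF hc ht hw (pre.map fun j => (Pi.single j 1 : κ → ℕ)) rest x y m
      rw [List.length_map] at h1
      have h2 : H (a + pre.length + rest.length + 2) ≤ K := by
        have : a + pre.length + rest.length + 2 = a + pre.length + (h :: rest).length + 1 := by
          rw [List.length_cons]
          ring
        rw [this]
        exact le_sup_right
      have h3 := K.mul_mem (K.mul_mem (hx m) (hy m)) (h2 h1)
      rwa [mul_inv_cancel_left] at h3
    have hPe : ∀ j, P (Pi.single j 1) := by
      intro j m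
      have h1 := ih (pre ++ [j]) m
      rw [List.map_append, List.append_assoc] at h1
      have e1 : (pre ++ [j]).length + rest.length = pre.length + (h :: rest).length := by
        rw [List.length_append, List.length_cons, List.length_cons, List.length_nil]
        ring
      have e2 : a + (pre ++ [j]).length + rest.length + 1 =
          a + pre.length + (h :: rest).length + 1 := by
        rw [List.length_append, List.length_cons, List.length_cons, List.length_nil]
        ring
      rw [e1, e2] at h1
      exact h1
    have hPs : ∀ j n, P (Pi.single j n) := by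
      intro j n
      induction n with
      | zero => rw [Pi.single_zero]; exact hP0
      | succ n ihn =>
        have : (Pi.single j (n + 1) : κ → ℕ) = Pi.single j n + Pi.single j 1 := by
          rw [← Pi.single_add]
        rw [this]
        exact hPadd _ _ ihn (hPe j)
    have hPall : P h := by
      rw [← Finset.univ_sum_single h]
      exact Finset.sum_induction _ P hPadd hP0 fun j _ => hPs j _
    exact hPall

theorem dgs_mem_closure (hF : Antitone H) (hc : ∀ i j, ⁅H i, H j⁆ ≤ H (i + j)) (ht : H 1 = ⊤)
    {a : ℕ} {w : (κ → ℕ) → Γ} (hw : PolF H a w) (hs : List (κ → ℕ)) (m : κ → ℕ) :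
    dgs hs w m ∈ Subgroup.closure {g | ∃ l : List κ, l.length = hs.length ∧
      g = dgs (l.map fun j => (Pi.single j 1 : κ → ℕ)) w 0} ⊔ H (a + hs.length + 1) := by
  have h := gen_aux hF hc ht hw hs [] m
  rw [List.length_nil, Nat.zero_add, Nat.add_zero] at h
  exact h

end Pool.Agent.Lib.Npa
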