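import Pool.Agent.Lib.Npa.Dn
import Pool.Agent.Lib.Npa.Gen
import Pool.Agent.Lib.Npa.Emb
import Pool.Agent.Lib.Npa.Enum
import Pool.Agent.Lib.Pf720nn.GNoeth

/-!
# Existence of the algebraic data
-/

set_option autoImplicit false
set_option linter.unusedSectionVars false

namespace Pool.Agent.Lib.Npa

open Pool.Agent.Lib.Pf720nn (dg dgs PolF subgroup_fg dgs_comp)

variable {Γ : Type} [Group Γ] {ι : Type} [Fintype ι] [DecidableEq ι] {S : (ι → ℕ) → Γ}

/-- the inverse of `W` -/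
def VV (S : (ι → ℕ) → Γ) (r : ℕ) (x : Fin r × Bool × ι → ℕ) : Γ := (WW S r x)⁻¹

/-- the iterated differences in coordinate directions -/
def gens (S : (ι → ℕ) → Γ) (r i : ℕ) : Set Γ :=
  {g | ∃ l : List (Fin r × Bool × ι), l.length = i ∧
    g = dgs (l.map fun j => (Pi.single j 1 : Fin r × Bool × ι → ℕ)) (VV S r) 0}

theorem polF_VV (r : ℕ) : PolF (HD S) 0 (VV S r) :=
  polF_HD (isWord_WW S r).inv

theorem mem_gens (ht : HD S 1 = ⊤) {i : ℕ} {t : Γ} (h : InD S i t) :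
    ∃ r₀ : ℕ, ∀ r, r₀ ≤ r → t ∈ Subgroup.closure (gens S r i) ⊔ HD S (i + 1) := by
  obtain ⟨κ, v, c, x, hv, hk, rfl⟩ := h
  obtain ⟨r₀, hr₀⟩ := exists_emb S hv.inv
  refine ⟨r₀, fun r hr => ?_⟩
  obtain ⟨ρ, hρ⟩ := hr₀ r hr
  have h1 : v = fun y => VV S r (ρ y + 0) := by
    funext y
    rw [add_zero, VV, ← hρ y, inv_inv]
  rw [← dgs_of_kills hk x]
  have h2 : dgs ((List.range i).map fun s => rs c s x) v (bs c i x) =
      dgs (((List.range i).map fun s => rs c s x).map ρ) (VV S r) (ρ (bs c i x) + 0) := by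
    conv_lhs => rw [h1]
    exact dgs_comp ρ (fun m n => map_add ρ m n) 0 _ _ _
  rw [h2]
  have h3 := dgs_mem_closure HD_anti HD_comm ht (polF_VV r)
    (((List.range i).map fun s => rs c s x).map ρ) (ρ (bs c i x) + 0)
  have h4 : (((List.range i).map fun s => rs c s x).map ρ).length = i := by simp
  rw [h4, zero_add] at h3
  exact h3

theorem HD_le_gens [Group.IsNilpotent Γ] (hΓ : Group.FG Γ) (ht : HD S 1 = ⊤)
    (i : ℕ) : ∃ r₀ : ℕ, ∀ r, r₀ ≤ r → HD S i ≤ Subgroup.closure (gens S r i) ⊔ HD S (i + 1) := by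
  obtain ⟨T, hT⟩ := subgroup_fg Γ hΓ (HD S i)
  have h1 : ∀ t : Γ, ∃ r₀ : ℕ, t ∈ T → ∀ r, r₀ ≤ r →
      t ∈ Subgroup.closure (gens S r i) ⊔ HD S (i + 1) := by
    intro t
    by_cases htT : t ∈ T
    · have h2 : t ∈ HD S i := by
        rw [← hT]
        exact Subgroup.subset_closure htT
      obtain ⟨r₀, hr₀⟩ := mem_gens ht (mem_HD.1 h2)
      exact ⟨r₀, fun _ => hr₀⟩
    · exact ⟨0, fun h => absurd h htT⟩
  choose R hR using h1
  refine ⟨T.sup R, fun r hr => ?_⟩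
  rw [← hT, Subgroup.closure_le]
  intro t ht'
  exact hR t ht' r ((Finset.le_sup (f := R) ht').trans hr)

theorem exists_data [Group.IsNilpotent Γ] (hΓ : Group.FG Γ) (h0 : S 0 = 1)
    {F : ℕ → Subgroup Γ} (hF : Antitone F) (hc : ∀ i j, ⁅F i, F j⁆ ≤ F (i + j))
    (hSF : PolF F 0 S) {n : ℕ} (hn : F n = ⊥)
    (hgen : Subgroup.closure (Set.range S) = ⊤) :
    ∃ (J b D : ℕ) (z : Fin D → Γ) (lv : Fin D → ℕ)
      (sq : Fin D → List (Fin (2 ^ b) × Bool × ι)),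
      1 ≤ J ∧ Alg (HD S) J z lv ∧ PolF (HD S) 0 S ∧ PolF (HD S) 0 (VV S (2 ^ b)) ∧
      (∀ c, (sq c).length = lv c) ∧
      ∀ c, (dgs ((sq c).map fun j => (Pi.single j 1 : Fin (2 ^ b) × Bool × ι → ℕ))
        (VV S (2 ^ b)) 0)⁻¹ = z c := by
  have ht : HD S 1 = ⊤ := HD_one h0 hgen
  set J : ℕ := n + 1 with hJ
  have hbot : HD S (J + 1) = ⊥ := by
    rw [eq_bot_iff, ← hn]
    exact (HD_le hF hc hSF (J + 1)).trans (hF (by omega))
  choose R hR using fun i => HD_le_gens (S := S) hΓ ht i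
  obtain ⟨b, hb⟩ : ∃ b : ℕ, (Finset.range (J + 1)).sup R ≤ 2 ^ b :=
    ⟨_, (Nat.lt_two_pow_self).le⟩
  have hR' : ∀ i, i ≤ J → HD S i ≤ Subgroup.closure (gens S (2 ^ b) i) ⊔ HD S (i + 1) :=
    fun i hi => hR i _ ((Finset.le_sup (f := R) (Finset.mem_range.2 (Nat.lt_succ_of_le hi))).trans hb)
  have hE : ∀ a : Fin (2 ^ b) × Bool × ι, a ∈ (Finset.univ.toList : List (Fin (2 ^ b) × Bool × ι)) :=
    fun a => Finset.mem_toList.2 (Finset.mem_univ a)
  set L := allSeqs (Finset.univ.toList : List (Fin (2 ^ b) × Bool × ι)) J with hL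
  have hmemL : ∀ c : Fin L.length, 1 ≤ (L.get c).length ∧ (L.get c).length ≤ J := fun c =>
    (mem_allSeqs hE).1 (List.get_mem L c)
  refine ⟨J, b, L.length, fun c => (dgs ((L.get c).map fun j =>
    (Pi.single j 1 : Fin (2 ^ b) × Bool × ι → ℕ)) (VV S (2 ^ b)) 0)⁻¹,
    fun c => (L.get c).length, fun c => L.get c, by omega, ?_, ?_, polF_VV _, fun _ => rfl,
    fun _ => rfl⟩
  · refine ⟨HD_anti, HD_comm, ht, hbot, fun c => (hmemL c).1, fun c => (hmemL c).2, ?_, ?_, ?_⟩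
    · intro c c' hcc
      rcases hcc.lt_or_eq with h | h
      · exact List.pairwise_iff_get.1 (allSeqs_pairwise hE J) c c' h
      · rw [h]
    · intro c
      refine (HD S _).inv_mem ?_
      have := polF_VV (S := S) (2 ^ b) ((L.get c).map fun j =>
        (Pi.single j 1 : Fin (2 ^ b) × Bool × ι → ℕ)) 0
      rwa [List.length_map, zero_add] at this
    · intro i hi1 hiJ
      refine (hR' i hiJ).trans (sup_le_sup_right ?_ _)
      rw [Subgroup.closure_le]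
      rintro g ⟨l, hl, rfl⟩
      obtain ⟨c, hc⟩ := List.get_of_mem ((mem_allSeqs hE (J := J) (l := l)).2 (by omega))
      rw [← inv_inv (dgs _ _ _)]
      refine Subgroup.inv_mem _ (Subgroup.subset_closure ⟨c, ?_, ?_⟩)
      · show (L.get c).length = i
        rw [hc, hl]
      · show _ = (dgs ((L.get c).map _) _ _)⁻¹
        rw [hc]
  · have h1 := isWord_S h0 (AddMonoidHom.id (ι → ℕ))
    exact polF_HD h1

end Pool.Agent.Lib.Npa
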