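import Pool.Agent.Lib.Pf720nn.PDefs

/-!
# NPW, part I (algebra): definitions

Words in a polynomial map `S : ℕ^ι → G`, the filtration `HD S`, binomial monomials, the algebraic data `Alg`,
and the representation predicate `Rep`.
-/

set_option autoImplicit false
set_option linter.unusedSectionVars false

namespace Pool.Agent.Lib.Npa

open Pool.Agent.Lib.Pf720nn (dg dgs PolF lc PolG)

section Words

variable {ι : Type} {G : Type} [Group G]

/-- the product of `S (ρ x)⁻¹ * S (ρ' x)` over a list of pairs `(ρ, ρ')` of additive maps -/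
def wv (S : (ι → ℕ) → G) {κ : Type} (L : List (((κ → ℕ) →+ (ι → ℕ)) × ((κ → ℕ) →+ (ι → ℕ))))
    (x : κ → ℕ) : G := (L.map fun p => (S (p.1 x))⁻¹ * S (p.2 x)).prod

/-- words in `S` -/
def IsWord (S : (ι → ℕ) → G) {κ : Type} (w : (κ → ℕ) → G) : Prop := ∃ L, w = wv S L

/-- `v` is trivial as soon as its argument vanishes on one of the colour classes `0, …, n - 1` -/
def Kills {κ : Type} (c : κ → ℕ) (n : ℕ) (v : (κ → ℕ) → G) : Prop :=
  ∀ s < n, ∀ y : κ → ℕ, (∀ l, c l = s → y l = 0) → v y = 1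

/-- values of words which are killed by `n` disjoint sets of coordinates -/
def InD (S : (ι → ℕ) → G) (n : ℕ) (g : G) : Prop :=
  ∃ (κ : Type) (v : (κ → ℕ) → G) (c : κ → ℕ) (x : κ → ℕ), IsWord S v ∧ Kills c n v ∧ v x = g

/-- the filtration (`InD S n` is already a subgroup, see `Dn.lean`) -/
def HD (S : (ι → ℕ) → G) (n : ℕ) : Subgroup G := Subgroup.closure {g | InD S n g}

/-- restriction to the colour class `s` -/
def rs {κ : Type} (c : κ → ℕ) (s : ℕ) (x : κ → ℕ) : κ → ℕ := fun l => if c l = s then x l else 0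

/-- restriction to the colours `≥ n` -/
def bs {κ : Type} (c : κ → ℕ) (n : ℕ) (x : κ → ℕ) : κ → ℕ := fun l => if c l < n then 0 else x l

end Words

section Poly

variable {κ : Type} {A : Type} [AddCommGroup A]

/-- functions all of whose differences of order `n` vanish -/
def Ed : ℕ → ((κ → ℕ) → A) → Prop
  | 0, f => ∀ m, f m = 0
  | n + 1, f => ∀ h, Ed n (fun m => f (m + h) - f m)

/-- binomial monomials -/
def bin {I : Type} [Fintype I] (m α : I → ℕ) : ℕ := ∏ l, (m l).choose (α l)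

/-- the additive group generated by the binomial monomials of degree `≤ i` which involve a variable of `A`
and a variable of `B` -/
def PC (I : Type) [Fintype I] (i : ℕ) (A B : Finset I) : AddSubgroup ((I → ℕ) → ℤ) :=
  AddSubgroup.closure {f | ∃ α : I → ℕ, ∑ l, α l ≤ i ∧ (∃ l ∈ A, α l ≠ 0) ∧ (∃ l ∈ B, α l ≠ 0) ∧
    f = fun m => (bin m α : ℤ)}

/-- the additive group generated by the binomial monomials of degree `≤ i` -/
def PC0 (I : Type) [Fintype I] (i : ℕ) : AddSubgroup ((I → ℕ) → ℤ) :=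
  AddSubgroup.closure {f | ∃ α : I → ℕ, ∑ l, α l ≤ i ∧ f = fun m => (bin m α : ℤ)}

/-- `∑_{s < w} ∏_{j < w} X_{s,j}` -/
def dsum (w : ℕ) (X : Fin w × Fin w → ℕ) : ℕ := ∑ s : Fin w, ∏ j : Fin w, X (s, j)

end Poly

section Algebra

variable {Γ : Type} [Group Γ]

/-- the algebraic data: a filtration `H` of `Γ`, and elements `z c` of levels `lv c` which generate
`H i` modulo `H (i + 1)` -/
structure Alg (H : ℕ → Subgroup Γ) (J : ℕ) {D : ℕ} (z : Fin D → Γ) (lv : Fin D → ℕ) : Prop where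
  anti : Antitone H
  comm : ∀ i j, ⁅H i, H j⁆ ≤ H (i + j)
  top : H 1 = ⊤
  bot : H (J + 1) = ⊥
  lv_pos : ∀ c, 1 ≤ lv c
  lv_le : ∀ c, lv c ≤ J
  lv_mono : Monotone lv
  mem : ∀ c, z c ∈ H (lv c)
  gen : ∀ i, 1 ≤ i → i ≤ J → H i ≤ Subgroup.closure {g | ∃ c, lv c = i ∧ g = z c} ⊔ H (i + 1)

/-- `K_i = (J!)^(J - i)` -/
def kk (J i : ℕ) : ℕ := J.factorial ^ (J - i)

/-- a product of at most `C` powers `z c ^ e` with `i ≤ lv c`, `kk J (lv c) * q ∣ e` and
`|e| ≤ C * X * Y ^ (lv c - 1)` -/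
def Rep (J : ℕ) {D : ℕ} (z : Fin D → Γ) (lv : Fin D → ℕ) (i C q X Y : ℕ) (g : Γ) : Prop :=
  ∃ L : List (Fin D × ℤ), L.length ≤ C ∧ (L.map fun p => z p.1 ^ p.2).prod = g ∧
    ∀ p ∈ L, i ≤ lv p.1 ∧ ((kk J (lv p.1) * q : ℕ) : ℤ) ∣ p.2 ∧
      |p.2| ≤ ((C * X * Y ^ (lv p.1 - 1) : ℕ) : ℤ)

end Algebra

end Pool.Agent.Lib.Npa
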