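import Pool.Agent.Lib.Npa.Defs

/-!
# A killed map is an iterated difference of itself

More generally, for a list `L` of colours without repetitions such that `v y = 1` whenever `y` vanishes on the
colour `s`, for each `s ∈ L`: `dgs (L.map fun s => rs c s x) v (x off L) = v x`, where `x off L` is `x` with the
coordinates of colour in `L` replaced by `0`. Induction on `L`, for all `v, x`. For `s :: L` let
`v' = dg (rs c s x) v`; `v'` is killed by the colours of `L`; let `x'` be `x` off the colour `s`; then `rs c t x' = rs c t x`
for `t ∈ L`, `x' off L = x off (s :: L)`, and `v' x' = v x * (v x')⁻¹ = v x` as `x'` vanishes on the colour `s`.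
-/

set_option autoImplicit false
set_option linter.unusedSectionVars false

namespace Pool.Agent.Lib.Npa

open Pool.Agent.Lib.Pf720nn (dg dgs PolF)

/-- `x` with the coordinates of colour in `L` replaced by `0` -/
def offL {κ : Type} (c : κ → ℕ) (L : List ℕ) (x : κ → ℕ) : κ → ℕ := fun l => if c l ∈ L then 0 else x l

theorem dgs_off {G : Type} [Group G] {κ : Type} (c : κ → ℕ) (L : List ℕ) :
    ∀ (v : (κ → ℕ) → G) (x : κ → ℕ), L.Nodup →
      (∀ s ∈ L, ∀ y : κ → ℕ, (∀ l, c l = s → y l = 0) → v y = 1) →
      dgs (L.map fun s => rs c s x) v (offL c L x) = v x := by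
  induction L with
  | nil =>
    intro v x _ _
    have h : offL c [] x = x := by
      funext l
      simp [offL]
    simp only [List.map_nil, dgs, h]
  | cons s L ih =>
    intro v x hnd hk
    obtain ⟨hs, hnd'⟩ := List.nodup_cons.mp hnd
    have h1 : offL c L (offL c [s] x) = offL c (s :: L) x := by
      funext l
      simp only [offL, List.mem_cons, List.not_mem_nil, or_false]
      by_cases h : c l = s
      · simp [h]
      · simp [h]
    have h2 : (L.map fun t => rs c t (offL c [s] x)) = L.map fun t => rs c t x := by
      apply List.map_congr_left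
      intro t ht
      funext l
      have hts : t ≠ s := fun h => hs (h ▸ ht)
      by_cases h : c l = t
      · simp [rs, offL, h, hts]
      · simp [rs, h]
    have hv' : ∀ t ∈ L, ∀ y : κ → ℕ, (∀ l, c l = t → y l = 0) → dg (rs c s x) v y = 1 := by
      intro t ht y hy
      have hts : t ≠ s := fun h => hs (h ▸ ht)
      have e1 : v y = 1 := hk t (List.mem_cons_of_mem _ ht) y hy
      have e2 : v (y + rs c s x) = 1 := by
        apply hk t (List.mem_cons_of_mem _ ht)
        intro l hl
        have : c l ≠ s := by rw [hl]; exact hts
        simp [rs, this, hy l hl]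
      simp [dg, e1, e2]
    have key := ih (dg (rs c s x) v) (offL c [s] x) hnd' hv'
    rw [h1, h2] at key
    have e3 : offL c [s] x + rs c s x = x := by
      funext l
      by_cases h : c l = s
      · simp [offL, rs, h]
      · simp [offL, rs, h]
    have e4 : v (offL c [s] x) = 1 := by
      apply hk s List.mem_cons_self
      intro l hl
      simp [offL, hl]
    have e5 : dg (rs c s x) v (offL c [s] x) = v x := by
      simp [dg, e3, e4]
    rw [e5] at key
    simpa only [List.map_cons, dgs] using key

theorem dgs_of_kills {G : Type} [Group G] {κ : Type} {c : κ → ℕ} {n : ℕ} {v : (κ → ℕ) → G}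
    (hv : Kills c n v) (x : κ → ℕ) :
    dgs ((List.range n).map fun s => rs c s x) v (bs c n x) = v x := by
  have h := dgs_off c (List.range n) v x List.nodup_range (fun s hs y hy => hv s (List.mem_range.mp hs) y hy)
  have e : offL c (List.range n) x = bs c n x := by
    funext l
    simp [offL, bs]
  rwa [e] at h

end Pool.Agent.Lib.Npa
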