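import Pool.Agent.Lib.Npa.Words
import Pool.Agent.Lib.Npa.Kill

/-!
# The filtration `HD S`

`InD S n` is closed under products: for `(κ, v, c, x)`, `(κ', v', c', x')` take the word
`y ↦ v (y ∘ inl) * v' (y ∘ inr)` on `κ ⊕ κ'` with the colouring `Sum.elim c c'` (trivial as soon as `y` vanishes on
the colour `s`, as both factors are). Inverses: the inverse word. So `mem_HD` (`Subgroup.closure_induction`).
`InD S n g → InD S k g` for `k ≤ n`: same data. Commutators: `y ↦ ⁅v (y ∘ inl), v' (y ∘ inr)⁆` with the colouring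
`Sum.elim (fun l => if c l < n then c l else n' + c l) (fun l => n + c' l)`, killed by `n + n'` colours.
`HD_one`: with `n = 0` all values of words; a word vanishes at `0`, so with the constant colouring `0` it is killed
by one colour: `HD S 0 = HD S 1`; each `S m = S (id m)` is a value of a word.
`polF_HD`: `IsWord.inD`. `HD_le`: `dgs_of_kills` and `IsWord.polF`.
-/

set_option autoImplicit false
set_option linter.unusedSectionVars false

namespace Pool.Agent.Lib.Npa

open Pool.Agent.Lib.Pf720nn (dg dgs PolF)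

variable {ι : Type} {G : Type} [Group G] {S : (ι → ℕ) → G} {κ κ' : Type}

namespace DnAux

/-- composition with a map of coordinates -/
def cmp {α β : Type} (f : α → β) : (β → ℕ) →+ (α → ℕ) where
  toFun y := y ∘ f
  map_zero' := rfl
  map_add' _ _ := rfl

theorem inD_one (n : ℕ) : InD S n (1 : G) :=
  ⟨PEmpty, fun _ => 1, fun _ => 0, 0, isWord_one, fun _ _ _ _ => rfl, rfl⟩

theorem inD_mul {n : ℕ} {g g' : G} (h : InD S n g) (h' : InD S n g') : InD S n (g * g') := by
  obtain ⟨α, v, c, x, hv, hk, hx⟩ := h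
  obtain ⟨β, v', c', x', hv', hk', hx'⟩ := h'
  refine ⟨α ⊕ β, fun y => v (cmp Sum.inl y) * v' (cmp Sum.inr y), Sum.elim c c', Sum.elim x x',
    (hv.comp (cmp Sum.inl)).mul (hv'.comp (cmp Sum.inr)), ?_, ?_⟩
  · intro s hs y hy
    have h1 : v (cmp Sum.inl y) = 1 := hk s hs _ fun l hl => hy (Sum.inl l) hl
    have h2 : v' (cmp Sum.inr y) = 1 := hk' s hs _ fun l hl => hy (Sum.inr l) hl
    show v (cmp Sum.inl y) * v' (cmp Sum.inr y) = 1
    rw [h1, h2, one_mul]
  · show v (cmp Sum.inl (Sum.elim x x')) * v' (cmp Sum.inr (Sum.elim x x')) = g * g'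
    rw [← hx, ← hx']
    rfl

theorem inD_inv {n : ℕ} {g : G} (h : InD S n g) : InD S n g⁻¹ := by
  obtain ⟨α, v, c, x, hv, hk, hx⟩ := h
  refine ⟨α, fun y => (v y)⁻¹, c, x, hv.inv, ?_, ?_⟩
  · intro s hs y hy
    show (v y)⁻¹ = 1
    rw [hk s hs y hy, inv_one]
  · show (v x)⁻¹ = g⁻¹
    rw [hx]

theorem inD_comm {i j : ℕ} {g g' : G} (h : InD S i g) (h' : InD S j g') :
    InD S (i + j) (g * g' * g⁻¹ * g'⁻¹) := by
  obtain ⟨α, v, c, x, hv, hk, hx⟩ := h
  obtain ⟨β, v', c', x', hv', hk', hx'⟩ := h'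
  have hvl := hv.comp (cmp (Sum.inl : α → α ⊕ β))
  have hvr := hv'.comp (cmp (Sum.inr : β → α ⊕ β))
  refine ⟨α ⊕ β, fun y => v (cmp Sum.inl y) * v' (cmp Sum.inr y) * (v (cmp Sum.inl y))⁻¹ *
    (v' (cmp Sum.inr y))⁻¹, Sum.elim c (fun l => i + c' l), Sum.elim x x',
    ((hvl.mul hvr).mul hvl.inv).mul hvr.inv, ?_, ?_⟩
  · intro s hs y hy
    show v (cmp Sum.inl y) * v' (cmp Sum.inr y) * (v (cmp Sum.inl y))⁻¹ *
      (v' (cmp Sum.inr y))⁻¹ = 1
    by_cases hsi : s < i
    · have h1 : v (cmp Sum.inl y) = 1 := hk s hsi _ fun l hl => hy (Sum.inl l) hl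
      rw [h1, one_mul, inv_one, mul_one, mul_inv_cancel]
    · have h2 : v' (cmp Sum.inr y) = 1 := hk' (s - i) (by omega) _ fun l hl =>
        hy (Sum.inr l) (by show i + c' l = s; omega)
      rw [h2, inv_one, mul_one, mul_one, mul_inv_cancel]
  · show v (cmp Sum.inl (Sum.elim x x')) * v' (cmp Sum.inr (Sum.elim x x')) *
      (v (cmp Sum.inl (Sum.elim x x')))⁻¹ * (v' (cmp Sum.inr (Sum.elim x x')))⁻¹ =
        g * g' * g⁻¹ * g'⁻¹
    rw [← hx, ← hx']
    rfl

end DnAux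

theorem mem_HD {n : ℕ} {g : G} : g ∈ HD S n ↔ InD S n g := by
  constructor
  · intro h
    unfold HD at h
    induction h using Subgroup.closure_induction with
    | mem x hx => exact hx
    | one => exact DnAux.inD_one n
    | mul x y _ _ hx hy => exact DnAux.inD_mul hx hy
    | inv x _ hx => exact DnAux.inD_inv hx
  · exact fun h => Subgroup.subset_closure h

theorem HD_anti : Antitone (HD S) := by
  intro m n hmn g hg
  rw [mem_HD] at hg ⊢
  obtain ⟨α, v, c, x, hv, hk, hx⟩ := hg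
  exact ⟨α, v, c, x, hv, fun s hs => hk s (hs.trans_le hmn), hx⟩

theorem HD_comm (i j : ℕ) : ⁅HD S i, HD S j⁆ ≤ HD S (i + j) := by
  rw [Subgroup.commutator_le]
  intro g hg g' hg'
  rw [mem_HD] at hg hg' ⊢
  exact DnAux.inD_comm hg hg'

theorem HD_zero : HD S 0 = HD S 1 := by
  refine le_antisymm ?_ (HD_anti zero_le_one)
  intro g hg
  rw [mem_HD] at hg ⊢
  obtain ⟨α, v, c, x, hv, _, hx⟩ := hg
  refine ⟨α, v, fun _ => 0, x, hv, fun s hs y hy => ?_, hx⟩
  have h1 : y = 0 := funext fun l => hy l (by show 0 = s; omega)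
  rw [h1]
  exact hv.zero

theorem HD_one (h0 : S 0 = 1) (hgen : Subgroup.closure (Set.range S) = ⊤) : HD S 1 = ⊤ := by
  rw [eq_top_iff, ← hgen, Subgroup.closure_le]
  rintro _ ⟨m, rfl⟩
  rw [← HD_zero, SetLike.mem_coe, mem_HD]
  exact ⟨ι, fun x => S (AddMonoidHom.id _ x), fun _ => 0, m, isWord_S h0 (AddMonoidHom.id _),
    fun s hs => absurd hs (Nat.not_lt_zero s), rfl⟩

theorem polF_HD {v : (κ → ℕ) → G} (hv : IsWord S v) : PolF (HD S) 0 v := by
  intro hs m
  rw [zero_add, mem_HD]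
  exact hv.inD hs m

theorem HD_le {F : ℕ → Subgroup G} (hF : Antitone F) (hc : ∀ i j, ⁅F i, F j⁆ ≤ F (i + j))
    (hS : PolF F 0 S) (n : ℕ) : HD S n ≤ F n := by
  intro g hg
  rw [mem_HD] at hg
  obtain ⟨α, v, c, x, hv, hk, hx⟩ := hg
  have h1 := hv.polF hF hc hS ((List.range n).map fun s => rs c s x) (bs c n x)
  rw [dgs_of_kills hk, hx, zero_add, List.length_map, List.length_range] at h1
  exact h1

end Pool.Agent.Lib.Npa
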