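import Pool.Agent.Lib.Npa.DDefs
import Pool.Agent.Lib.Npa.Conv

/-!
# The interface of part I
-/

set_option autoImplicit false
set_option linter.unusedSectionVars false

namespace Pool.Agent.Lib.Npa

open Pool.Agent.Lib.Pf720nn (dg dgs PolF)

open scoped commutatorElement

/-- the algebraic facts used by the analysis -/
structure AlgI {G : Type} [Group G] {k : ℕ} (S : (Fin k → ℕ) → G) (J b D : ℕ) (z : Fin D → G)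
    (lv : Fin D → ℕ) (sq : Fin D → List (Fin (2 ^ b) × Bool × Fin k)) (C₁ : ℕ) : Prop where
  one_le : 1 ≤ J
  lv_pos : ∀ c, 1 ≤ lv c
  lv_le : ∀ c, lv c ≤ J
  lv_mono : Monotone lv
  sq_len : ∀ c, (sq c).length = lv c
  a1 : ∀ (c c' : Fin D) (q x y m t : ℕ) (e e' : ℤ), 0 < q → kk J 0 * q ≤ 2 ^ m → x ≤ m → y ≤ m →
    (x + J * t ≤ m ∨ y + J * t ≤ m) → |e| ≤ ((2 ^ (x * lv c) : ℕ) : ℤ) →
    |e'| ≤ ((2 ^ (y * lv c') : ℕ) : ℤ) →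
    (((kk J (lv c) * q : ℕ) : ℤ) ∣ e ∨ ((kk J (lv c') * q : ℕ) : ℤ) ∣ e') →
    RepB J z lv C₁ (max c.1 c'.1 + 1) q (m + C₁ - t) ⁅z c ^ e, z c' ^ e'⁆
  a2 : ∀ (c : Fin D) (q x y m t : ℕ) (e : ℤ) (n : Fin k → ℕ), 0 < q → kk J 0 * q ≤ 2 ^ m →
    x ≤ m → y ≤ m → (x + J * t ≤ m ∨ y + J * t ≤ m) → |e| ≤ ((2 ^ (x * lv c) : ℕ) : ℤ) →
    (∀ l, n l ≤ 2 ^ y) → ((kk J (lv c) * q : ℕ) : ℤ) ∣ e →
    RepB J z lv C₁ (c.1 + 1) q (m + C₁ - t) ⁅S n, z c ^ e⁆ ∧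
      RepB J z lv C₁ (c.1 + 1) q (m + C₁ - t) ⁅(S n)⁻¹, z c ^ e⁆
  a3 : ∀ (q x y t : ℕ) (n h : Fin k → ℕ), (∀ l, kk J 0 * q ∣ h l) → (∀ l, n l ≤ 2 ^ y) →
    (∀ l, h l ≤ 2 ^ x) → x + J * t ≤ y → RepB J z lv C₁ 0 q (y + C₁ - t) ((S n)⁻¹ * S (n + h))
  a4 : ∀ (c : Fin D) (q x y t : ℕ) (m : Fin (2 ^ b) × Bool × Fin k → ℕ) (η : List ℕ) (n : ℕ),
    η.length + 1 = lv c → kk J 0 * q ∣ n → (∀ l, m l ≤ 2 ^ y) → (∀ n' ∈ η, n' ≤ 2 ^ y) →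
    n ≤ 2 ^ x → x + J * t ≤ y →
    RepB J z lv C₁ (c.1 + 1) q (y + C₁ - t) ((z c ^ (η.prod * n))⁻¹ *
      (dgs (List.zipWith (fun n j => (Pi.single j n : Fin (2 ^ b) × Bool × Fin k → ℕ))
        (η ++ [n]) (sq c)) (fun x => (WW S (2 ^ b) x)⁻¹) m)⁻¹)

end Pool.Agent.Lib.Npa
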