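import Pool.Agent.Lib.Npa.Data
import Pool.Agent.Lib.Npa.A2
import Pool.Agent.Lib.Npa.A3
import Pool.Agent.Lib.Npa.A4
import Pool.Agent.Lib.Npa.MDefs
import Pool.Agent.Lib.Pf720nn.PLc

/-!
# Existence of the interface
-/

set_option autoImplicit false
set_option linter.unusedSectionVars false

namespace Pool.Agent.Lib.Npa

open Pool.Agent.Lib.Pf720nn (dg dgs PolF PolG lc lc_anti lc_comm subgroup_fg)

open scoped commutatorElement

namespace MainAux

theorem map_dgs {κ Γ G : Type} [Group Γ] [Group G] (φ : Γ →* G) (hs : List (κ → ℕ))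
    (w : (κ → ℕ) → Γ) (m : κ → ℕ) : φ (dgs hs w m) = dgs hs (fun x => φ (w x)) m := by
  induction hs generalizing w with
  | nil => rfl
  | cons h hs ih =>
    rw [Pool.Agent.Lib.Pf720nn.dgs_cons, ih, Pool.Agent.Lib.Pf720nn.dgs_cons]
    congr 1
    funext x
    simp [dg]

theorem map_WW {ι Γ G : Type} [Group Γ] [Group G] (φ : Γ →* G) (S : (ι → ℕ) → Γ) (r : ℕ)
    (x : Fin r × Bool × ι → ℕ) : φ (WW S r x) = WW (fun m => φ (S m)) r x := by
  unfold WW
  rw [map_list_prod, List.map_ofFn]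
  congr 1
  refine congrArg _ (funext fun j => ?_)
  simp

/-- the interface in a group generated by the range of `S` -/
theorem top {Γ : Type} [Group Γ] [Group.IsNilpotent Γ] (hΓ : Group.FG Γ) {k : ℕ}
    {S : (Fin k → ℕ) → Γ} (h0 : S 0 = 1) {F : ℕ → Subgroup Γ} (hF : Antitone F)
    (hc : ∀ i j, ⁅F i, F j⁆ ≤ F (i + j)) (hSF : PolF F 0 S) {n : ℕ} (hn : F n = ⊥)
    (hgen : Subgroup.closure (Set.range S) = ⊤) :
    ∃ (J b D : ℕ) (z : Fin D → Γ) (lv : Fin D → ℕ)
      (sq : Fin D → List (Fin (2 ^ b) × Bool × Fin k)) (C₁ : ℕ), AlgI S J b D z lv sq C₁ := by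
  obtain ⟨J, b, D, z, lv, sq, hJ, hA, hS, hV, hsq, hz⟩ := exists_data hΓ h0 hF hc hSF hn hgen
  obtain ⟨C1, h1⟩ := A1 hA
  obtain ⟨C2, h2⟩ := A2 hA hS h0
  obtain ⟨C3, h3⟩ := A3 hA hS h0
  have h4' : ∀ c : Fin D, ∃ C : ℕ, ∀ (q X Y : ℕ) (m : Fin (2 ^ b) × Bool × Fin k → ℕ)
      (η : List ℕ) (n : ℕ), η.length + 1 = lv c → kk J 0 * q ∣ n → (∀ l, m l ≤ Y) →
      (∀ n' ∈ η, n' ≤ Y) → n ≤ X → X ≤ Y →
      Rep J z lv (lv c + 1) C q X Y ((z c ^ (η.prod * n))⁻¹ *
        (dgs (List.zipWith (fun n j => (Pi.single j n : Fin (2 ^ b) × Bool × Fin k → ℕ))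
          (η ++ [n]) (sq c)) (VV S (2 ^ b)) m)⁻¹) := by
    intro c
    rcases List.eq_nil_or_concat (sq c) with hs | ⟨s, j, hs⟩
    · exfalso
      have := hA.lv_pos c
      rw [← hsq c, hs] at this
      simp at this
    · rw [List.concat_eq_append] at hs
      have hl : s.length + 1 = lv c := by rw [← hsq c, hs]; simp
      obtain ⟨C, hC⟩ := A4 hA hV c s j hl (by rw [← hs]; exact hz c)
      refine ⟨C, fun q X Y m η n h5 h6 h7 h8 h9 h10 => ?_⟩
      have := hC q X Y m η n (by omega) h6 h7 h8 h9 h10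
      rw [← hs] at this
      exact this
  choose C4 h4 using h4'
  refine ⟨J, b, D, z, lv, sq, C1 + C2 + C3 + ∑ c, C4 c, ?_⟩
  refine ⟨hJ, hA.lv_pos, hA.lv_le, hA.lv_mono, hsq, ?_, ?_, ?_, ?_⟩
  · intro c c' q x y m t e e' hq hqm hx hy hxy he he' hd
    refine (h1 c c' q x y m e e' hq hqm hx hy he he' hd).toB hA.lv_pos hA.lv_le hJ ?_ ?_ (by omega)
    · intro c'' hc''
      have e1 : c < c'' := by
        by_contra h
        have := hA.lv_mono (not_lt.1 h)
        have := hA.lv_pos c'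
        omega
      have e2 : c' < c'' := by
        by_contra h
        have := hA.lv_mono (not_lt.1 h)
        have := hA.lv_pos c
        omega
      have e3 : c.1 < c''.1 := e1
      have e4 : c'.1 < c''.1 := e2
      omega
    · rcases hxy with h | h
      · exact (Nat.add_le_add_right (min_le_left x y) _).trans h
      · exact (Nat.add_le_add_right (min_le_right x y) _).trans h
  · intro c q x y m t e n hq hqm hx hy hxy he hn' hd
    have hc' : ∀ c'' : Fin D, lv c + 1 ≤ lv c'' → c.1 + 1 ≤ c''.1 := by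
      intro c'' hc''
      have e1 : c < c'' := by
        by_contra h
        have := hA.lv_mono (not_lt.1 h)
        omega
      exact e1
    have hmin : min x y + J * t ≤ m := by
      rcases hxy with h | h
      · exact (Nat.add_le_add_right (min_le_left x y) _).trans h
      · exact (Nat.add_le_add_right (min_le_right x y) _).trans h
    obtain ⟨e1, e2⟩ := h2 c q x y m e n hq hqm hx hy he hn' hd
    exact ⟨e1.toB hA.lv_pos hA.lv_le hJ hc' hmin (by omega),
      e2.toB hA.lv_pos hA.lv_le hJ hc' hmin (by omega)⟩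
  · intro q x y t n h hd hn' hh hxy
    refine (h3 q (2 ^ x) (2 ^ y) n h hd hn' hh ?_).toB hA.lv_pos hA.lv_le hJ
      (fun _ _ => Nat.zero_le _) hxy (by omega)
    exact Nat.pow_le_pow_right (by norm_num) (by omega)
  · intro c q x y t m η n hl hd hm hη hn' hxy
    have hc' : ∀ c'' : Fin D, lv c + 1 ≤ lv c'' → c.1 + 1 ≤ c''.1 := by
      intro c'' hc''
      have e1 : c < c'' := by
        by_contra h
        have := hA.lv_mono (not_lt.1 h)
        omega
      exact e1
    have hC : C4 c ≤ C1 + C2 + C3 + ∑ c, C4 c :=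
      (Finset.single_le_sum (f := C4) (fun _ _ => Nat.zero_le _) (Finset.mem_univ c)).trans
        (by omega)
    exact (h4 c q (2 ^ x) (2 ^ y) m η n hl hd hm hη hn'
      (Nat.pow_le_pow_right (by norm_num) (by omega))).toB hA.lv_pos hA.lv_le hJ hc' hxy hC

/-- transport along a homomorphism -/
theorem transport {Γ G : Type} [Group Γ] [Group G] (φ : Γ →* G) {k : ℕ} {S' : (Fin k → ℕ) → Γ}
    {J b D : ℕ} {z : Fin D → Γ} {lv : Fin D → ℕ}
    {sq : Fin D → List (Fin (2 ^ b) × Bool × Fin k)} {C₁ : ℕ} (h : AlgI S' J b D z lv sq C₁) :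
    AlgI (fun m => φ (S' m)) J b D (fun c => φ (z c)) lv sq C₁ := by
  refine ⟨h.one_le, h.lv_pos, h.lv_le, h.lv_mono, h.sq_len, ?_, ?_, ?_, ?_⟩
  · intro c c' q x y m t e e' hq hqm hx hy hxy he he' hd
    have := (h.a1 c c' q x y m t e e' hq hqm hx hy hxy he he' hd).map φ
    rw [map_commutatorElement, map_zpow, map_zpow] at this
    exact this
  · intro c q x y m t e n hq hqm hx hy hxy he hn' hd
    obtain ⟨h1, h2⟩ := h.a2 c q x y m t e n hq hqm hx hy hxy he hn' hd
    have h1' := h1.map φ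
    have h2' := h2.map φ
    rw [map_commutatorElement, map_zpow] at h1' h2'
    rw [map_inv] at h2'
    exact ⟨h1', h2'⟩
  · intro q x y t n h' hd hn' hh hxy
    have := (h.a3 q x y t n h' hd hn' hh hxy).map φ
    rw [map_mul, map_inv] at this
    exact this
  · intro c q x y t m η n hl hd hm hη hn' hxy
    have := (h.a4 c q x y t m η n hl hd hm hη hn' hxy).map φ
    rw [map_mul, map_inv, map_inv, map_pow, map_dgs] at this
    simp only [map_inv, map_WW] at this
    exact this

end MainAux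

open MainAux

theorem exists_algI {G : Type} [Group G] [Group.IsNilpotent G] (hG : Group.FG G) {k : ℕ}
    {S : (Fin k → ℕ) → G} (h0 : S 0 = 1) (hS : PolG S) :
    ∃ (J b D : ℕ) (z : Fin D → G) (lv : Fin D → ℕ)
      (sq : Fin D → List (Fin (2 ^ b) × Bool × Fin k)) (C₁ : ℕ), AlgI S J b D z lv sq C₁ := by
  obtain ⟨e, he, hSe⟩ := hS
  obtain ⟨n, hn⟩ := Subgroup.nilpotent_iff_lowerCentralSeries.1 (inferInstance : Group.IsNilpotent G)
  set Γ : Subgroup G := Subgroup.closure (Set.range S) with hΓ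
  have hmem : ∀ m, S m ∈ Γ := fun m => Subgroup.subset_closure ⟨m, rfl⟩
  set S' : (Fin k → ℕ) → Γ := fun m => ⟨S m, hmem m⟩ with hS'
  set F : ℕ → Subgroup Γ := fun i => (lc G e i).comap Γ.subtype with hFd
  have hF : Antitone F := fun i j hij => Subgroup.comap_mono (lc_anti e hij)
  have hc : ∀ i j, ⁅F i, F j⁆ ≤ F (i + j) := by
    intro i j
    rw [Subgroup.commutator_le]
    intro x hx y hy
    show Γ.subtype ⁅x, y⁆ ∈ lc G e (i + j)
    rw [map_commutatorElement]
    exact lc_comm he i j (Subgroup.commutator_mem_commutator hx hy)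
  have hSF : PolF F 0 S' := by
    intro hs m
    show Γ.subtype (dgs hs S' m) ∈ lc G e (0 + hs.length)
    rw [map_dgs]
    exact hSe hs m
  have hn' : F (e * n + 1) = ⊥ := by
    rw [eq_bot_iff]
    intro x hx
    have h1 : Γ.subtype x ∈ lc G e (e * n + 1) := hx
    have h2 : lc G e (e * n + 1) = ⊥ := by
      unfold lc
      rw [Nat.add_sub_cancel, Nat.mul_div_cancel_left n he]
      exact hn
    rw [h2, Subgroup.mem_bot] at h1
    rw [Subgroup.mem_bot]
    exact Subtype.ext h1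
  have hgen : Subgroup.closure (Set.range S') = ⊤ := by
    have h1 := Subgroup.closure_closure_coe_preimage (k := Set.range S)
    have h2 : ((↑) : (Subgroup.closure (Set.range S)) → G) ⁻¹' Set.range S = Set.range S' := by
      ext x
      constructor
      · rintro ⟨m, hm⟩
        exact ⟨m, Subtype.ext hm⟩
      · rintro ⟨m, rfl⟩
        exact ⟨m, rfl⟩
    rw [h2] at h1
    exact h1
  have hFG : Group.FG Γ := (Group.fg_iff_subgroup_fg Γ).2 (subgroup_fg G hG Γ)
  obtain ⟨J, b, D, z, lv, sq, C₁, h⟩ := top hFG (Subtype.ext h0 : S' 0 = 1) hF hc hSF hn' hgen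
  exact ⟨J, b, D, fun c => Γ.subtype (z c), lv, sq, C₁, transport Γ.subtype h⟩

end Pool.Agent.Lib.Npa
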