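import Pool.Agent.Lib.Npa.Defs

/-!
# Newton's formula in several variables, values in an abelian group

Generalise: for a finset `S` of variables and `f` which depends only on the variables of `S`
(`(∀ l ∈ S, m l = m' l) → f m = f m'`) and with `Ed n f`: `f` is in the closure of
`{fun m => bin m α • a : ∑ α < n, α = 0 off S}`. Induction on `S`, for all `n, f`. `S = ∅`: `f` is constant; if `n = 0` it is
`0`, otherwise take `α = 0`. `insert l S`: let `Δ = fwdDiff (Pi.single l 1)`; Newton in one variable
(`shift_eq_sum_fwdDiff_iter`, see `PNewtonAux.newton_one` in Lib/Pf720nn/PNewton.lean for the case of `ℤ`):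
`f m = ∑ j < n, (m l).choose j • (Δ^[j] f) (Function.update m l 0)`; the function `g_j m = (Δ^[j] f) (Function.update m l 0)`
depends only on the variables of `S` and satisfies `Ed (n - j) g_j` (`Ed (k + 1) f → Ed k (Δ f)`; restrictions
`m ↦ Function.update m l 0` are additive maps). Multiplication by `(m l).choose j` maps `bin m β • a`, `β = 0` off `S`, to
`bin m (Function.update β l j) • a`.
-/

set_option autoImplicit false
set_option linter.unusedSectionVars false

namespace Pool.Agent.Lib.Npa

namespace NewtonAux

variable {A : Type} [AddCommGroup A] {I : Type} [DecidableEq I]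

/-- the difference in the direction `l` -/
abbrev dl (l : I) : ((I → ℕ) → A) → ((I → ℕ) → A) := fwdDiff (Pi.single l 1 : I → ℕ)

theorem dl_zero (l : I) (j : ℕ) : (dl (A := A) l)^[j] 0 = 0 := by
  induction j with
  | zero => rfl
  | succ j ih =>
    rw [Function.iterate_succ_apply', ih]
    funext m
    simp [dl, fwdDiff]

theorem update_addv (l : I) (m h : I → ℕ) :
    Function.update (m + h) l 0 = Function.update m l 0 + Function.update h l 0 := by
  funext i
  by_cases hi : i = l
  · subst hi
    simp
  · simp [Function.update_of_ne hi]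

/-- Newton's formula in one variable. -/
theorem newton_one {f : (I → ℕ) → A} {L : ℕ} {l : I} (h : (dl l)^[L] f = 0) (m : I → ℕ) :
    f m = ∑ j ∈ Finset.range L, (m l).choose j •
      ((dl l)^[j] f) (Function.update m l 0) := by
  have h1 := shift_eq_sum_fwdDiff_iter (Pi.single l 1 : I → ℕ) f (m l) (Function.update m l 0)
  have h2 : Function.update m l 0 + (m l) • (Pi.single l 1 : I → ℕ) = m := by
    funext i
    by_cases hi : i = l
    · subst hi
      simp
    · simp [Function.update_of_ne hi, Pi.single_eq_of_ne hi]
  rw [h2] at h1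
  rw [h1]
  have h3 : ∀ j, L ≤ j → (dl l)^[j] f = 0 := by
    intro j hj
    obtain ⟨i, rfl⟩ := Nat.exists_eq_add_of_le hj
    rw [Nat.add_comm, Function.iterate_add_apply, h, dl_zero]
  have e1 : ∑ j ∈ Finset.range (m l + 1), (m l).choose j • ((dl l)^[j] f) (Function.update m l 0) =
      ∑ j ∈ Finset.range (max (m l + 1) L),
        (m l).choose j • ((dl l)^[j] f) (Function.update m l 0) := by
    refine Finset.sum_subset (Finset.range_subset_range.2 (le_max_left _ _)) fun j _ hj => ?_
    rw [Finset.mem_range, not_lt] at hj
    rw [Nat.choose_eq_zero_of_lt (by omega), zero_smul]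
  have e2 : ∑ j ∈ Finset.range L, (m l).choose j • ((dl l)^[j] f) (Function.update m l 0) =
      ∑ j ∈ Finset.range (max (m l + 1) L),
        (m l).choose j • ((dl l)^[j] f) (Function.update m l 0) := by
    refine Finset.sum_subset (Finset.range_subset_range.2 (le_max_right _ _)) fun j _ hj => ?_
    rw [Finset.mem_range, not_lt] at hj
    rw [h3 j hj, Pi.zero_apply, smul_zero]
  exact e1.trans e2.symm

omit [DecidableEq I] in
/-- dependence on the variables of `S` only -/
theorem dep_diff {S : Finset I} {f : (I → ℕ) → A}
    (hf : ∀ m m' : I → ℕ, (∀ l ∈ S, m l = m' l) → f m = f m') (h : I → ℕ) :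
    ∀ m m' : I → ℕ, (∀ l ∈ S, m l = m' l) → fwdDiff h f m = fwdDiff h f m' := by
  intro m m' hm
  rw [fwdDiff, fwdDiff, hf m m' hm, hf (m + h) (m' + h) fun l hl => by
    rw [Pi.add_apply, Pi.add_apply, hm l hl]]

theorem dep_iter {S : Finset I} (l : I) (j : ℕ) : ∀ {f : (I → ℕ) → A},
    (∀ m m' : I → ℕ, (∀ l ∈ S, m l = m' l) → f m = f m') →
    ∀ m m' : I → ℕ, (∀ l ∈ S, m l = m' l) → (dl l)^[j] f m = (dl l)^[j] f m' := by
  induction j with
  | zero => exact fun hf => hf
  | succ j ih =>
    intro f hf
    rw [Function.iterate_succ_apply]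
    exact ih (dep_diff hf _)

omit [DecidableEq I] in
theorem ed_diff {n : ℕ} {f : (I → ℕ) → A} (hf : Ed (n + 1) f) (h : I → ℕ) :
    Ed n (fwdDiff h f) := hf h

theorem ed_iter (l : I) (j : ℕ) : ∀ {k : ℕ} {f : (I → ℕ) → A}, Ed (j + k) f →
    Ed k ((dl l)^[j] f) := by
  induction j with
  | zero =>
    intro k f hf
    rw [Nat.zero_add] at hf
    exact hf
  | succ j ih =>
    intro k f hf
    rw [Function.iterate_succ_apply]
    have h1 : j + 1 + k = (j + k) + 1 := by omega
    rw [h1] at hf
    exact ih (ed_diff hf _)

theorem ed_update (l : I) (n : ℕ) : ∀ {f : (I → ℕ) → A}, Ed n f →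
    Ed n fun m => f (Function.update m l 0) := by
  induction n with
  | zero => exact fun hf m => hf _
  | succ n ih =>
    intro f hf h
    have h1 := ih (hf (Function.update h l 0))
    have h2 : (fun m : I → ℕ => f (Function.update (m + h) l 0) - f (Function.update m l 0)) =
        fun m => f (Function.update m l 0 + Function.update h l 0) - f (Function.update m l 0) := by
      funext m
      rw [update_addv]
    rw [h2]
    exact h1

variable [Fintype I]

/-- the generators -/
def NS (A : Type) [AddCommGroup A] (S : Finset I) (n : ℕ) : Set ((I → ℕ) → A) :=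
  {g | ∃ (α : I → ℕ) (a : A), ∑ l, α l < n ∧ (∀ l ∉ S, α l = 0) ∧ g = fun m => bin m α • a}

theorem bin_update {l : I} {β : I → ℕ} (hβ : β l = 0) (j : ℕ) (m : I → ℕ) :
    bin m (Function.update β l j) = (m l).choose j * bin m β := by
  unfold bin
  rw [← Finset.mul_prod_erase Finset.univ _ (Finset.mem_univ l),
    ← Finset.mul_prod_erase Finset.univ (fun i => (m i).choose (β i)) (Finset.mem_univ l),
    Function.update_self, hβ, Nat.choose_zero_right, one_mul]
  congr 1
  refine Finset.prod_congr rfl fun i hi => ?_
  rw [Function.update_of_ne (Finset.ne_of_mem_erase hi)]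

theorem sum_update {l : I} {β : I → ℕ} (hβ : β l = 0) (j : ℕ) :
    ∑ i, Function.update β l j i = j + ∑ i, β i := by
  rw [← Finset.add_sum_erase Finset.univ _ (Finset.mem_univ l),
    ← Finset.add_sum_erase Finset.univ β (Finset.mem_univ l),
    Function.update_self, hβ, zero_add]
  congr 1
  refine Finset.sum_congr rfl fun i hi => ?_
  rw [Function.update_of_ne (Finset.ne_of_mem_erase hi)]

/-- multiplication by a binomial coefficient of one new variable -/
theorem mul_mem {S : Finset I} {l : I} (hl : l ∉ S) {j k : ℕ} {g : (I → ℕ) → A}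
    (hg : g ∈ AddSubgroup.closure (NS A S k)) :
    (fun m => (m l).choose j • g m) ∈ AddSubgroup.closure (NS A (insert l S) (j + k)) := by
  induction hg using AddSubgroup.closure_induction with
  | mem x hx =>
    obtain ⟨β, a, hsum, hoff, rfl⟩ := hx
    have hβ : β l = 0 := hoff l hl
    refine AddSubgroup.subset_closure ⟨Function.update β l j, a, ?_, ?_, ?_⟩
    · rw [sum_update hβ]
      omega
    · intro i hi
      rw [Finset.mem_insert, not_or] at hi
      rw [Function.update_of_ne hi.1]
      exact hoff i hi.2
    · funext m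
      rw [bin_update hβ, smul_smul]
  | zero =>
    have h1 : (fun m : I → ℕ => (m l).choose j • (0 : (I → ℕ) → A) m) = 0 := by
      funext m
      simp
    rw [h1]
    exact AddSubgroup.zero_mem _
  | add x y _ _ hx hy =>
    have h1 : (fun m : I → ℕ => (m l).choose j • (x + y) m) =
        (fun m => (m l).choose j • x m) + fun m => (m l).choose j • y m := by
      funext m
      simp
    rw [h1]
    exact AddSubgroup.add_mem _ hx hy
  | neg x _ hx =>
    have h1 : (fun m : I → ℕ => (m l).choose j • (-x) m) =
        -(fun m => (m l).choose j • x m) := by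
      funext m
      simp
    rw [h1]
    exact AddSubgroup.neg_mem _ hx

theorem newton_aux (S : Finset I) : ∀ (n : ℕ) (f : (I → ℕ) → A),
    (∀ m m' : I → ℕ, (∀ l ∈ S, m l = m' l) → f m = f m') → Ed n f →
    f ∈ AddSubgroup.closure (NS A S n) := by
  induction S using Finset.induction_on with
  | empty =>
    intro n f hdep hf
    rcases Nat.eq_zero_or_pos n with rfl | hn
    · have h0 : f = 0 := funext hf
      rw [h0]
      exact AddSubgroup.zero_mem _
    · refine AddSubgroup.subset_closure ⟨0, f 0, by simpa using hn, fun _ _ => rfl, ?_⟩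
      funext m
      have h1 : bin m 0 = 1 := by simp [bin]
      rw [h1, one_smul]
      exact hdep m 0 (by simp)
  | insert l S hl ih =>
    intro n f hdep hf
    have hn : (dl l)^[n] f = 0 := by
      have h1 : Ed (n + 0) f := hf
      exact funext (ed_iter l n h1)
    have h1 : f = ∑ j ∈ Finset.range n, fun m : I → ℕ => (m l).choose j •
        ((dl l)^[j] f) (Function.update m l 0) := by
      funext m
      rw [Finset.sum_apply]
      exact newton_one hn m
    rw [h1]
    refine AddSubgroup.sum_mem _ fun j hj => ?_
    have hjn : j < n := Finset.mem_range.1 hj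
    obtain ⟨k, rfl⟩ := Nat.exists_eq_add_of_le hjn.le
    refine mul_mem hl (ih k (fun m => ((dl l)^[j] f) (Function.update m l 0)) ?_ ?_)
    · intro m m' hm
      refine dep_iter l j hdep _ _ fun i hi => ?_
      rcases Finset.mem_insert.1 hi with rfl | hi
      · rw [Function.update_self, Function.update_self]
      · have hne : i ≠ l := fun h => hl (h ▸ hi)
        rw [Function.update_of_ne hne, Function.update_of_ne hne, hm i hi]
    · exact ed_update l k (ed_iter l j hf)

end NewtonAux

theorem newton_ab {A : Type} [AddCommGroup A] {I : Type} [Fintype I] [DecidableEq I]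
    {f : (I → ℕ) → A} {n : ℕ} (hf : Ed (n + 1) f) :
    f ∈ AddSubgroup.closure {g : (I → ℕ) → A | ∃ (α : I → ℕ) (a : A), ∑ l, α l ≤ n ∧
      g = fun m => bin m α • a} := by
  have h1 := NewtonAux.newton_aux (Finset.univ : Finset I) (n + 1) f
    (fun m m' h => by rw [funext fun l => h l (Finset.mem_univ l)]) hf
  refine AddSubgroup.closure_mono ?_ h1
  rintro g ⟨α, a, hs, -, rfl⟩
  exact ⟨α, a, by omega, rfl⟩

end Pool.Agent.Lib.Npa
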