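import Pool.Agent.Lib.Npa.Defs

/-!
# The classes `PC I i A B` of integer valued polynomials

All statements by `AddSubgroup.closure_induction`, after checking them for one monomial `bin m α`.
`pc_project`: `bin (m off A) α` is `bin m α` if `α` vanishes on `A` and `0` otherwise (`0.choose (k + 1) = 0`), so the
combination is `bin m α` if `α` vanishes neither on `A` nor on `B` and `0` otherwise.
`pc_dvd`: some `l ∈ A` has `1 ≤ α l ≤ i ≤ J`; `α l * (m l).choose (α l) = m l * (m l - 1).choose (α l - 1)`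
(`Nat.succ_mul_choose_eq`), `α l ∣ J!`, so `K ∣ (m l).choose (α l)`.
`pc_size`: `(m l).choose (α l) ≤ (m l) ^ α l`; some `l ∈ B` has `α l ≥ 1`: this factor is `≤ X * Y ^ (α l - 1)`, the others
`≤ Y ^ α l`; so `bin m α ≤ X * Y ^ (∑ α - 1) ≤ X * Y ^ (i - 1)` if `Y ≥ 1`, and `bin m α = 0` if `Y = 0`.
-/

set_option autoImplicit false
set_option linter.unusedSectionVars false

namespace Pool.Agent.Lib.Npa

variable {I : Type} [Fintype I] [DecidableEq I]

private theorem bin_zero {α m : I → ℕ} {A : Finset I} (hα : ∃ l ∈ A, α l ≠ 0)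
    (hm : ∀ l ∈ A, m l = 0) : bin m α = 0 := by
  obtain ⟨l, hl, h⟩ := hα
  unfold bin
  apply Finset.prod_eq_zero (Finset.mem_univ l)
  rw [hm l hl]
  exact Nat.choose_eq_zero_of_lt (Nat.pos_of_ne_zero h)

private theorem bin_congr {α m m' : I → ℕ} (h : ∀ l, α l ≠ 0 → m l = m' l) :
    bin m α = bin m' α := by
  unfold bin
  apply Finset.prod_congr rfl
  intro l _
  by_cases hl : α l = 0
  · rw [hl, Nat.choose_zero_right, Nat.choose_zero_right]
  · rw [h l hl]

theorem pc_le (i : ℕ) (A B : Finset I) : PC I i A B ≤ PC0 I i := by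
  apply AddSubgroup.closure_mono
  rintro f ⟨α, h1, _, _, h4⟩
  exact ⟨α, h1, h4⟩

theorem pc_project {i : ℕ} (A B : Finset I) {p : (I → ℕ) → ℤ} (hp : p ∈ PC0 I i) :
    (fun m => p m - p (fun l => if l ∈ A then 0 else m l) - p (fun l => if l ∈ B then 0 else m l) +
      p (fun l => if l ∈ A ∪ B then 0 else m l)) ∈ PC I i A B := by
  unfold PC0 at hp
  induction hp using AddSubgroup.closure_induction with
  | mem f hf =>
    obtain ⟨α, h1, rfl⟩ := hf
    by_cases hA : ∃ l ∈ A, α l ≠ 0
    · by_cases hB : ∃ l ∈ B, α l ≠ 0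
      · apply AddSubgroup.subset_closure
        refine ⟨α, h1, hA, hB, ?_⟩
        funext m
        have e1 : bin (fun l => if l ∈ A then 0 else m l) α = 0 :=
          bin_zero hA (fun l hl => if_pos hl)
        have e2 : bin (fun l => if l ∈ B then 0 else m l) α = 0 :=
          bin_zero hB (fun l hl => if_pos hl)
        have e3 : bin (fun l => if l ∈ A ∪ B then 0 else m l) α = 0 :=
          bin_zero hA (fun l hl => if_pos (Finset.mem_union_left _ hl))
        simp only [e1, e2, e3]
        simp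
      · push Not at hB
        have : (fun m : I → ℕ => ((bin m α : ℕ) : ℤ) -
            ((bin (fun l => if l ∈ A then 0 else m l) α : ℕ) : ℤ) -
            ((bin (fun l => if l ∈ B then 0 else m l) α : ℕ) : ℤ) +
            ((bin (fun l => if l ∈ A ∪ B then 0 else m l) α : ℕ) : ℤ)) = 0 := by
          funext m
          have e1 : bin (fun l => if l ∈ B then 0 else m l) α = bin m α :=
            bin_congr (fun l hl => if_neg (fun h => hl (hB l h)))
          have e2 : bin (fun l => if l ∈ A ∪ B then 0 else m l) α =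
              bin (fun l => if l ∈ A then 0 else m l) α := by
            apply bin_congr
            intro l hl
            have : l ∉ B := fun h => hl (hB l h)
            simp [this]
          rw [e1, e2]
          simp
        rw [this]
        exact AddSubgroup.zero_mem _
    · push Not at hA
      have : (fun m : I → ℕ => ((bin m α : ℕ) : ℤ) -
          ((bin (fun l => if l ∈ A then 0 else m l) α : ℕ) : ℤ) -
          ((bin (fun l => if l ∈ B then 0 else m l) α : ℕ) : ℤ) +
          ((bin (fun l => if l ∈ A ∪ B then 0 else m l) α : ℕ) : ℤ)) = 0 := by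
        funext m
        have e1 : bin (fun l => if l ∈ A then 0 else m l) α = bin m α :=
          bin_congr (fun l hl => if_neg (fun h => hl (hA l h)))
        have e2 : bin (fun l => if l ∈ A ∪ B then 0 else m l) α =
            bin (fun l => if l ∈ B then 0 else m l) α := by
          apply bin_congr
          intro l hl
          have : l ∉ A := fun h => hl (hA l h)
          simp [this]
        rw [e1, e2]
        simp
      rw [this]
      exact AddSubgroup.zero_mem _
  | zero =>
    have : (fun m : I → ℕ => (0 : (I → ℕ) → ℤ) m -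
        (0 : (I → ℕ) → ℤ) (fun l => if l ∈ A then 0 else m l) -
        (0 : (I → ℕ) → ℤ) (fun l => if l ∈ B then 0 else m l) +
        (0 : (I → ℕ) → ℤ) (fun l => if l ∈ A ∪ B then 0 else m l)) = 0 := by
      funext m; simp
    rw [this]
    exact AddSubgroup.zero_mem _
  | add f g _ _ hf hg =>
    have := AddSubgroup.add_mem _ hf hg
    convert this using 1
    funext m
    simp only [Pi.add_apply]
    ring
  | neg f _ hf =>
    have := AddSubgroup.neg_mem _ hf
    convert this using 1
    funext m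
    simp only [Pi.neg_apply]
    ring

private theorem choose_dvd {J K a n : ℕ} (ha : a ≠ 0) (haJ : a ≤ J) (h : J.factorial * K ∣ n) :
    K ∣ n.choose a := by
  obtain ⟨b, rfl⟩ := Nat.exists_eq_succ_of_ne_zero ha
  rcases Nat.eq_zero_or_pos n with h0 | h0
  · rw [h0, Nat.choose_zero_succ]; exact dvd_zero _
  · obtain ⟨k, rfl⟩ := Nat.exists_eq_succ_of_ne_zero h0.ne'
    have h1 : k.succ * k.choose b = k.succ.choose b.succ * b.succ := Nat.add_one_mul_choose_eq k b
    obtain ⟨d, hd⟩ : b.succ ∣ J.factorial := Nat.dvd_factorial (Nat.succ_pos b) haJ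
    obtain ⟨t, ht⟩ := h
    rw [hd] at ht
    have h2 : b.succ * (K * (d * t * k.choose b)) = b.succ * (k.succ.choose b.succ) := by
      rw [mul_comm b.succ (k.succ.choose b.succ), ← h1]
      calc b.succ * (K * (d * t * k.choose b)) = (b.succ * d * K * t) * k.choose b := by ring
        _ = k.succ * k.choose b := by rw [← ht]
    have h3 := Nat.eq_of_mul_eq_mul_left (Nat.succ_pos b) h2
    exact ⟨_, h3.symm⟩

theorem pc_dvd {i J : ℕ} (hJ : i ≤ J) {A B : Finset I} {p : (I → ℕ) → ℤ} (hp : p ∈ PC I i A B)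
    {K : ℕ} {m : I → ℕ} (hm : ∀ l ∈ A, J.factorial * K ∣ m l) : (K : ℤ) ∣ p m := by
  unfold PC at hp
  induction hp using AddSubgroup.closure_induction with
  | mem f hf =>
    obtain ⟨α, h1, ⟨l, hl, hα⟩, _, rfl⟩ := hf
    have h2 : α l ≤ i := (Finset.single_le_sum (f := α) (fun _ _ => Nat.zero_le _)
      (Finset.mem_univ l)).trans h1
    have h3 := choose_dvd hα (h2.trans hJ) (hm l hl)
    show (K : ℤ) ∣ ((bin m α : ℕ) : ℤ)
    rw [Int.natCast_dvd_natCast]
    exact h3.trans (Finset.dvd_prod_of_mem (fun l => (m l).choose (α l)) (Finset.mem_univ l))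
  | zero => exact dvd_zero _
  | add f g _ _ hf hg => exact dvd_add hf hg
  | neg f _ hf => exact (dvd_neg).2 hf

private theorem choose_le_pow' (n k : ℕ) : n.choose k ≤ n ^ k := by
  have h1 := Nat.choose_le_descFactorial n k
  exact h1.trans (Nat.descFactorial_le_pow n k)

private theorem bin_le {α m : I → ℕ} {i X Y : ℕ} {B : Finset I} (h1 : ∑ l, α l ≤ i)
    (hB : ∃ l ∈ B, α l ≠ 0) (hX : ∀ l ∈ B, m l ≤ X) (hY : ∀ l, m l ≤ Y) :
    bin m α ≤ X * Y ^ (i - 1) := by
  obtain ⟨l, hl, hα⟩ := hB
  rcases Nat.eq_zero_or_pos Y with h0 | h0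
  · have : bin m α = 0 := bin_zero (A := {l}) ⟨l, Finset.mem_singleton_self l, hα⟩ (by
      intro l' _
      have := hY l'
      omega)
    rw [this]; exact Nat.zero_le _
  · obtain ⟨b, hb⟩ := Nat.exists_eq_succ_of_ne_zero hα
    have e1 : bin m α = (m l).choose (α l) * ∏ l' ∈ Finset.univ.erase l, (m l').choose (α l') := by
      unfold bin
      rw [Finset.mul_prod_erase _ (fun l => (m l).choose (α l)) (Finset.mem_univ l)]
    have e2 : (m l).choose (α l) ≤ X * Y ^ b := by
      refine (choose_le_pow' _ _).trans ?_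
      rw [hb, pow_succ, mul_comm]
      exact Nat.mul_le_mul (hX l hl) (Nat.pow_le_pow_left (hY l) b)
    have e3 : ∏ l' ∈ Finset.univ.erase l, (m l').choose (α l') ≤
        Y ^ (∑ l' ∈ Finset.univ.erase l, α l') := by
      rw [← Finset.prod_pow_eq_pow_sum]
      apply Finset.prod_le_prod' 
      intro l' _
      exact (choose_le_pow' _ _).trans (Nat.pow_le_pow_left (hY l') _)
    have e4 : ∑ l' ∈ Finset.univ.erase l, α l' + α l = ∑ l, α l :=
      Finset.sum_erase_add _ _ (Finset.mem_univ l)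
    rw [e1]
    calc (m l).choose (α l) * ∏ l' ∈ Finset.univ.erase l, (m l').choose (α l')
        ≤ (X * Y ^ b) * Y ^ (∑ l' ∈ Finset.univ.erase l, α l') := Nat.mul_le_mul e2 e3
      _ = X * Y ^ (b + ∑ l' ∈ Finset.univ.erase l, α l') := by rw [mul_assoc, ← pow_add]
      _ ≤ X * Y ^ (i - 1) := by
          apply Nat.mul_le_mul_left
          apply Nat.pow_le_pow_right h0
          omega

theorem pc_size {i : ℕ} {A B : Finset I} {p : (I → ℕ) → ℤ} (hp : p ∈ PC I i A B) :
    ∃ C : ℕ, ∀ (X Y : ℕ) (m : I → ℕ), (∀ l ∈ B, m l ≤ X) → (∀ l, m l ≤ Y) →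
      |p m| ≤ ((C * X * Y ^ (i - 1) : ℕ) : ℤ) := by
  unfold PC at hp
  induction hp using AddSubgroup.closure_induction with
  | mem f hf =>
    obtain ⟨α, h1, _, hB, rfl⟩ := hf
    refine ⟨1, ?_⟩
    intro X Y m hX hY
    have := bin_le h1 hB hX hY
    rw [one_mul]
    show |((bin m α : ℕ) : ℤ)| ≤ _
    rw [Nat.abs_cast]
    exact_mod_cast this
  | zero =>
    refine ⟨0, ?_⟩
    intro X Y m _ _
    simp
  | add f g _ _ hf hg =>
    obtain ⟨C, hC⟩ := hf
    obtain ⟨C', hC'⟩ := hg
    refine ⟨C + C', ?_⟩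
    intro X Y m hX hY
    have a1 := hC X Y m hX hY
    have a2 := hC' X Y m hX hY
    have a3 : |(f + g) m| ≤ |f m| + |g m| := abs_add_le _ _
    have a4 : (((C + C') * X * Y ^ (i - 1) : ℕ) : ℤ) =
        ((C * X * Y ^ (i - 1) : ℕ) : ℤ) + ((C' * X * Y ^ (i - 1) : ℕ) : ℤ) := by
      push_cast; ring
    rw [a4]
    linarith
  | neg f _ hf =>
    obtain ⟨C, hC⟩ := hf
    refine ⟨C, ?_⟩
    intro X Y m hX hY
    have := hC X Y m hX hY
    rw [Pi.neg_apply, abs_neg]
    exact this

theorem pc_zeroA {i : ℕ} {A B : Finset I} {p : (I → ℕ) → ℤ} (hp : p ∈ PC I i A B) {m : I → ℕ}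
    (hm : ∀ l ∈ A, m l = 0) : p m = 0 := by
  unfold PC at hp
  induction hp using AddSubgroup.closure_induction with
  | mem f hf =>
    obtain ⟨α, _, hA, _, rfl⟩ := hf
    show ((bin m α : ℕ) : ℤ) = 0
    rw [bin_zero hA hm]; rfl
  | zero => rfl
  | add f g _ _ hf hg => rw [Pi.add_apply, hf, hg, add_zero]
  | neg f _ hf => rw [Pi.neg_apply, hf, neg_zero]

theorem pc_zeroB {i : ℕ} {A B : Finset I} {p : (I → ℕ) → ℤ} (hp : p ∈ PC I i A B) {m : I → ℕ}
    (hm : ∀ l ∈ B, m l = 0) : p m = 0 := by
  unfold PC at hp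
  induction hp using AddSubgroup.closure_induction with
  | mem f hf =>
    obtain ⟨α, _, _, hB, rfl⟩ := hf
    show ((bin m α : ℕ) : ℤ) = 0
    rw [bin_zero hB hm]; rfl
  | zero => rfl
  | add f g _ _ hf hg => rw [Pi.add_apply, hf, hg, add_zero]
  | neg f _ hf => rw [Pi.neg_apply, hf, neg_zero]

end Pool.Agent.Lib.Npa
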