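import Pool.Agent.Lib.Npa.Words

/-!
# Iterated differences are additive in each direction, one level deeper

`H` is antitone, `⁅H i, H j⁆ ≤ H (i + j)`, `H 1 = ⊤` (so all `H n` are normal, `H_normal`). Everything modulo
`H (a + length + 1)`.

(0) `PolF.commu`: from `PGrpAux.main`. (1) `base`: `dgs hs w (m + h) * (dgs hs w m)⁻¹ = dgs (hs ++ [h]) w m ∈ H (a + hs.length + 1)`;
compare `m` and `m'` with `0`. (2) For `b ≥ 1`, `A, B ∈ PolF H b`, `C ∈ PolF H (b + 1)`:
`dg k (A B C) = dg k A * dg k B * C''` with `C'' ∈ PolF H (b + 2)`, namely, with `A' = dg k A` etc. (so `A (m + k) = A' A`),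
`C'' = ⁅B'⁻¹, ⁅A, B'⁆⁆ * ⁅A, B'⁆ * ⁅A * B, C'⁆ * C'`. Hence by induction on `rest`: for `b ≥ 1` there is
`C' ∈ PolF H (b + rest.length + 1)` with `dgs rest (A B C) m = dgs rest A m * dgs rest B m * C' m`. (3) `slot`: by
`dgs_append` we may assume `pre = []` (replace `w` by `dgs pre w`, `a` by `a + pre.length`);
`dg (h + h') w m = dg h' w (m + h) * dg h w m`, use (2) with `b = a + 1`, `A = (dg h' w) (· + h)`, `B = dg h w`, `C = 1`;
`dgs rest A m = dgs (h' :: rest) w (m + h)` (`dgs_comp`), use (1). The quotient by `H (a + pre.length + rest.length + 1 + 1)`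
is commutative on `H (a + pre.length + rest.length + 1)` (if `a + pre.length + rest.length + 1 = s ≥ 1` then
`⁅H s, H s⁆ ≤ H (s + 1)`). (4) `slot_smul`: induction on `n` (`n = 0`: `dgs_of_zero_mem`). (5) `slots_smul`: change
the entries of the list one after the other (induction on the list with a prefix), then `base`.
-/

set_option autoImplicit false
set_option linter.unusedSectionVars false

namespace Pool.Agent.Lib.Npa

open Pool.Agent.Lib.Pf720nn (dg dgs PolF)

open scoped commutatorElement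

variable {Γ : Type} [Group Γ] {κ : Type} {H : ℕ → Subgroup Γ}

theorem H_normal (hF : Antitone H) (hc : ∀ i j, ⁅H i, H j⁆ ≤ H (i + j)) (ht : H 1 = ⊤) (n : ℕ) :
    (H n).Normal := by
  constructor
  intro x hx g
  have h1 : ⁅g, x⁆ ∈ H (1 + n) :=
    hc 1 n (Subgroup.commutator_mem_commutator (by rw [ht]; exact Subgroup.mem_top g) hx)
  have h2 : ⁅g, x⁆ ∈ H n := hF (by omega) h1
  have e : g * x * g⁻¹ = ⁅g, x⁆ * x := by rw [commutatorElement_def]; group
  rw [e]
  exact (H n).mul_mem h2 hx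

theorem PolF.commu (hF : Antitone H) (hc : ∀ i j, ⁅H i, H j⁆ ≤ H (i + j)) {a b : ℕ}
    {w v : (κ → ℕ) → Γ} (hw : PolF H a w) (hv : PolF H b v) :
    PolF H (a + b) fun m => ⁅w m, v m⁆ :=
  Pf720nn.PGrpAux.T.toPolF fun n => (Pf720nn.PGrpAux.main hF hc n).2.2 a b w v
    (Pf720nn.PGrpAux.ofPolF hw n) (Pf720nn.PGrpAux.ofPolF hv n)

theorem base (hF : Antitone H) (hc : ∀ i j, ⁅H i, H j⁆ ≤ H (i + j)) (ht : H 1 = ⊤) {a : ℕ}
    {w : (κ → ℕ) → Γ} (hw : PolF H a w) (hs : List (κ → ℕ)) (m m' : κ → ℕ) :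
    (dgs hs w m')⁻¹ * dgs hs w m ∈ H (a + hs.length + 1) := by
  have := H_normal hF hc ht (a + hs.length + 1)
  have key : ∀ m : κ → ℕ, dgs hs w m * (dgs hs w 0)⁻¹ ∈ H (a + hs.length + 1) := by
    intro m
    have h := hw (hs ++ [m]) 0
    rw [dgs_append, List.length_append, List.length_singleton, ← add_assoc] at h
    have e : dgs [m] (dgs hs w) 0 = dgs hs w m * (dgs hs w 0)⁻¹ := by
      show dgs hs w (0 + m) * (dgs hs w 0)⁻¹ = _
      rw [zero_add]
    rwa [e] at h
  have h1 := key m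
  have h2 := key m'
  have h3 := (H (a + hs.length + 1)).mul_mem ((H (a + hs.length + 1)).inv_mem h2) h1
  have h4 := this.conj_mem _ h3 (dgs hs w 0)⁻¹
  have e : (dgs hs w 0)⁻¹ * ((dgs hs w m' * (dgs hs w 0)⁻¹)⁻¹ * (dgs hs w m * (dgs hs w 0)⁻¹)) *
      (dgs hs w 0)⁻¹⁻¹ = (dgs hs w m')⁻¹ * dgs hs w m := by group
  rwa [e] at h4

private theorem polF_dg {a : ℕ} {w : (κ → ℕ) → Γ} (hw : PolF H a w) (k : κ → ℕ) :
    PolF H (a + 1) (dg k w) := by
  intro hs m
  have h := hw (k :: hs) m
  rw [Pf720nn.dgs_cons, List.length_cons] at h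
  have e : a + (hs.length + 1) = a + 1 + hs.length := by ring
  rwa [e] at h

private theorem polF_one (b : ℕ) : PolF H b (fun _ : κ → ℕ => (1 : Γ)) := by
  intro hs m
  have h := Pf720nn.dgs_mem (K := (⊥ : Subgroup Γ)) (w := fun _ : κ → ℕ => (1 : Γ))
    (fun _ => Subgroup.mem_bot.2 rfl) hs m
  rw [Subgroup.mem_bot] at h
  rw [h]
  exact Subgroup.one_mem _

private theorem dgs_mul3 (hF : Antitone H) (hc : ∀ i j, ⁅H i, H j⁆ ≤ H (i + j))
    (rest : List (κ → ℕ)) : ∀ {b : ℕ} (_ : 1 ≤ b) {A B C : (κ → ℕ) → Γ} (_ : PolF H b A)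
    (_ : PolF H b B) (_ : PolF H (b + 1) C), ∃ C' : (κ → ℕ) → Γ,
      PolF H (b + rest.length + 1) C' ∧ ∀ m, dgs rest (fun m => A m * B m * C m) m =
        dgs rest A m * dgs rest B m * C' m := by
  induction rest with
  | nil =>
    intro b _ A B C _ _ hC
    exact ⟨C, hC, fun m => rfl⟩
  | cons k rest ih =>
    intro b hb A B C hA hB hC
    have hA' := polF_dg hA k
    have hB' := polF_dg hB k
    have hC' := polF_dg hC k
    set C'' : (κ → ℕ) → Γ := fun m =>
      ⁅(dg k B m)⁻¹, ⁅A m, dg k B m⁆⁆ * ⁅A m, dg k B m⁆ * ⁅A m * B m, dg k C m⁆ * dg k C m with hC''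
    have p1 : PolF H (b + 2) fun m => ⁅A m, dg k B m⁆ :=
      (PolF.commu hF hc hA hB').anti hF (by omega)
    have p2 : PolF H (b + 1) fun m => (dg k B m)⁻¹ := Pf720nn.PolF.inv hF hc hB'
    have p3 : PolF H (b + 2) fun m => ⁅(dg k B m)⁻¹, ⁅A m, dg k B m⁆⁆ :=
      (PolF.commu hF hc p2 p1).anti hF (by omega)
    have p4 : PolF H b fun m => A m * B m := Pf720nn.PolF.mul hF hc hA hB
    have p5 : PolF H (b + 2) fun m => ⁅A m * B m, dg k C m⁆ :=
      (PolF.commu hF hc p4 hC').anti hF (by omega)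
    have p6 : PolF H (b + 2) C'' := by
      have q1 := Pf720nn.PolF.mul hF hc p3 p1
      have q2 := Pf720nn.PolF.mul hF hc q1 p5
      exact Pf720nn.PolF.mul hF hc q2 hC'
    obtain ⟨C', h1, h2⟩ := ih (b := b + 1) (by omega) hA' hB' (C := C'') p6
    refine ⟨C', ?_, ?_⟩
    · have e : b + (k :: rest).length + 1 = b + 1 + rest.length + 1 := by
        rw [List.length_cons]; ring
      rw [e]; exact h1
    · intro m
      rw [Pf720nn.dgs_cons, Pf720nn.dgs_cons, Pf720nn.dgs_cons, ← h2 m]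
      congr 1
      funext m
      simp only [hC'', dg, commutatorElement_def]
      group

private theorem slot0 (hF : Antitone H) (hc : ∀ i j, ⁅H i, H j⁆ ≤ H (i + j)) (ht : H 1 = ⊤)
    {a : ℕ} {w : (κ → ℕ) → Γ} (hw : PolF H a w) (rest : List (κ → ℕ)) (h h' m : κ → ℕ) :
    (dgs (h :: rest) w m * dgs (h' :: rest) w m)⁻¹ * dgs ((h + h') :: rest) w m ∈
      H (a + rest.length + 2) := by
  have hN := H_normal hF hc ht (a + rest.length + 2)
  have hA : PolF H (a + 1) fun m => dg h' w (m + h) := by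
    have := (polF_dg hw h').comp (fun x => x) (fun _ _ => rfl) h
    exact this
  have hB : PolF H (a + 1) (dg h w) := polF_dg hw h
  obtain ⟨C', h1, h2⟩ := dgs_mul3 hF hc rest (b := a + 1) (by omega) hA hB
    (polF_one (a + 1 + 1))
  have e1 : dg (h + h') w = fun m => dg h' w (m + h) * dg h w m * 1 := by
    funext m
    have e : m + (h + h') = m + h + h' := by rw [add_assoc]
    simp only [dg, e]
    group
  have e2 : dgs rest (fun m => dg h' w (m + h)) m = dgs (h' :: rest) w (m + h) := by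
    have := Pf720nn.dgs_comp (fun x : κ → ℕ => x) (fun _ _ => rfl) h rest (dg h' w) m
    rw [List.map_id'] at this
    exact this
  have h3 := h2 m
  rw [← e1, e2] at h3
  have h4 : C' m ∈ H (a + rest.length + 2) := by
    have := h1 [] m
    have e : a + 1 + rest.length + 1 + ([] : List (κ → ℕ)).length = a + rest.length + 2 := by
      rw [List.length_nil]; ring
    rwa [e] at this
  rw [Pf720nn.dgs_cons (h + h'), h3]
  have h5 := base hF hc ht hw (h' :: rest) (m + h) m
  rw [List.length_cons, ← add_assoc] at h5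
  have hx : dgs (h :: rest) w m ∈ H (a + rest.length + 1) := by
    have := hw (h :: rest) m
    rwa [List.length_cons, ← add_assoc] at this
  have hy : dgs (h' :: rest) w m ∈ H (a + rest.length + 1) := by
    have := hw (h' :: rest) m
    rwa [List.length_cons, ← add_assoc] at this
  have e3 : dgs rest (dg h w) m = dgs (h :: rest) w m := rfl
  rw [e3]
  generalize dgs (h :: rest) w m = x at *
  generalize dgs (h' :: rest) w m = y at *
  generalize dgs (h' :: rest) w (m + h) = z at *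
  generalize C' m = c at *
  have h6 : ⁅y⁻¹, x⁻¹⁆ ∈ H (a + rest.length + 2) :=
    hF (by omega) (hc (a + rest.length + 1) (a + rest.length + 1)
      (Subgroup.commutator_mem_commutator (Subgroup.inv_mem _ hy) (Subgroup.inv_mem _ hx)))
  have h7 := hN.conj_mem _ h5 x⁻¹
  have h8 := Subgroup.mul_mem _ (Subgroup.mul_mem _ h6 h7) h4
  have e4 : ⁅y⁻¹, x⁻¹⁆ * (x⁻¹ * (y⁻¹ * z) * x⁻¹⁻¹) * c = (x * y)⁻¹ * (z * x * c) := by
    rw [commutatorElement_def]; group
  rwa [e4] at h8

private theorem polF_dgs {a : ℕ} {w : (κ → ℕ) → Γ} (hw : PolF H a w) (pre : List (κ → ℕ)) :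
    PolF H (a + pre.length) (dgs pre w) := by
  intro hs m
  have := hw (pre ++ hs) m
  rwa [dgs_append, List.length_append, ← add_assoc] at this

theorem slot (hF : Antitone H) (hc : ∀ i j, ⁅H i, H j⁆ ≤ H (i + j)) (ht : H 1 = ⊤) {a : ℕ}
    {w : (κ → ℕ) → Γ} (hw : PolF H a w) (pre rest : List (κ → ℕ)) (h h' m : κ → ℕ) :
    (dgs (pre ++ h :: rest) w m * dgs (pre ++ h' :: rest) w m)⁻¹ *
      dgs (pre ++ (h + h') :: rest) w m ∈ H (a + pre.length + rest.length + 2) := by
  rw [dgs_append, dgs_append, dgs_append]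
  exact slot0 hF hc ht (polF_dgs hw pre) rest h h' m

theorem slot_smul (hF : Antitone H) (hc : ∀ i j, ⁅H i, H j⁆ ≤ H (i + j)) (ht : H 1 = ⊤) {a : ℕ}
    {w : (κ → ℕ) → Γ} (hw : PolF H a w) (pre rest : List (κ → ℕ)) (n : ℕ) (h m : κ → ℕ) :
    (dgs (pre ++ h :: rest) w m ^ n)⁻¹ * dgs (pre ++ (n • h) :: rest) w m ∈
      H (a + pre.length + rest.length + 2) := by
  have hN := H_normal hF hc ht (a + pre.length + rest.length + 2)
  rw [← QuotientGroup.eq]
  induction n with
  | zero =>
    rw [pow_zero, zero_smul, dgs_of_zero_mem (by simp)]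
  | succ n ih =>
    have h1 := slot hF hc ht hw pre rest (n • h) h m
    rw [← QuotientGroup.eq, ← succ_nsmul] at h1
    rw [← h1, QuotientGroup.mk_mul, ← ih, pow_succ, QuotientGroup.mk_mul]

private theorem slots_aux (hF : Antitone H) (hc : ∀ i j, ⁅H i, H j⁆ ≤ H (i + j)) (ht : H 1 = ⊤)
    {a : ℕ} {w : (κ → ℕ) → Γ} (hw : PolF H a w) (m : κ → ℕ) (η : List ℕ) :
    ∀ (pre hs : List (κ → ℕ)) (_ : η.length = hs.length),
    (dgs (pre ++ hs) w m ^ η.prod)⁻¹ *
      dgs (pre ++ List.zipWith (fun n h => n • h) η hs) w m ∈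
      H (a + pre.length + hs.length + 1) := by
  induction η with
  | nil =>
    intro pre hs hl
    have : hs = [] := List.length_eq_zero_iff.1 hl.symm
    subst this
    rw [List.prod_nil, pow_one, List.zipWith_nil_left, inv_mul_cancel]
    exact Subgroup.one_mem _
  | cons n η ih =>
    intro pre hs hl
    cases hs with
    | nil => simp at hl
    | cons h hs =>
      rw [List.length_cons, List.length_cons, Nat.add_right_cancel_iff] at hl
      have h1 := ih (pre ++ [n • h]) hs hl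
      have h2 := slot_smul hF hc ht hw pre hs n h m
      rw [List.length_append, List.length_singleton, List.append_assoc, List.append_assoc,
        List.singleton_append, List.singleton_append] at h1
      have e1 : a + (pre.length + 1) + hs.length + 1 = a + pre.length + hs.length + 2 := by ring
      have e2 : a + pre.length + (h :: hs).length + 1 = a + pre.length + hs.length + 2 := by
        rw [List.length_cons]; ring
      rw [e1] at h1
      rw [e2, List.zipWith_cons_cons, List.prod_cons]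
      have hN := H_normal hF hc ht (a + pre.length + hs.length + 2)
      rw [← QuotientGroup.eq] at h1 h2 ⊢
      rw [← h1, pow_mul, QuotientGroup.mk_pow, QuotientGroup.mk_pow _ _ η.prod, h2]

theorem slots_smul (hF : Antitone H) (hc : ∀ i j, ⁅H i, H j⁆ ≤ H (i + j)) (ht : H 1 = ⊤) {a : ℕ}
    {w : (κ → ℕ) → Γ} (hw : PolF H a w) (η : List ℕ) (hs : List (κ → ℕ))
    (hl : η.length = hs.length) (m : κ → ℕ) :
    (dgs hs w 0 ^ η.prod)⁻¹ * dgs (List.zipWith (fun n h => n • h) η hs) w m ∈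
      H (a + hs.length + 1) := by
  have hN := H_normal hF hc ht (a + hs.length + 1)
  have h1 := slots_aux hF hc ht hw m η [] hs hl
  rw [List.nil_append, List.nil_append, List.length_nil, add_zero] at h1
  have h2 := base hF hc ht hw hs m 0
  rw [← QuotientGroup.eq] at h1 h2 ⊢
  rw [← h1, QuotientGroup.mk_pow, QuotientGroup.mk_pow, h2]

end Pool.Agent.Lib.Npa
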