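import Pool.Agent.Lib.Npa.Slot
import Pool.Agent.Lib.Npa.Bin
import Pool.Agent.Lib.Npa.PCls
import Pool.Agent.Lib.Npa.Newton

/-!
# One level of theorem T

Let `N` be the image of `H i` in `Γ ⧸ H (i + 1)` (`H_normal`); it is commutative (`⁅H i, H i⁆ ≤ H (i + i) ≤ H (i + 1)`), let
`A = Additive N`. The map `f m = F m` in `A` satisfies `Ed (i + 1) f` (iterated differences of `f` are the images of
`dgs hs F m`, which is in `H (i + 1)` for `hs.length = i + 1`; generalise over `hs`). By `newton_ab` it is in the closure of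
the `bin m α • a`, `∑ α ≤ i`; by `gen`, each `a ∈ A` is a sum `∑_{lv c = i} n_c z_c`; so (closure induction) there are
`p₀ c ∈ PC0 I i` (`p₀ c = 0` unless `lv c = i`) with `f m = ∑ c, p₀ c m • z_c`. Put
`p c m = p₀ c m - p₀ c (m off A) - p₀ c (m off B) + p₀ c (m off A ∪ B)` (`pc_project`); as `F` is trivial at the three other
points (`m off A` vanishes on `A`), `f m = ∑ c, p c m • z_c`. Back in `Γ`.
-/

set_option autoImplicit false
set_option linter.unusedSectionVars false

namespace Pool.Agent.Lib.Npa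

open Pool.Agent.Lib.Pf720nn (dg dgs PolF)

open scoped commutatorElement

namespace StepAux

variable {I : Type} [Fintype I] [DecidableEq I]

/-- values of a map with values in a generated abelian group -/
theorem coeffs {A : Type} [AddCommGroup A] {D : ℕ} (zA : Fin D → A)
    (hz : ∀ a : A, ∃ n : Fin D → ℤ, a = ∑ c, n c • zA c) {f : (I → ℕ) → A} {i : ℕ}
    (hf : Ed (i + 1) f) :
    ∃ p : Fin D → (I → ℕ) → ℤ, (∀ c, p c ∈ PC0 I i) ∧ ∀ m, f m = ∑ c, p c m • zA c := by
  have h1 := newton_ab hf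
  clear hf
  induction h1 using AddSubgroup.closure_induction with
  | mem g hg =>
    obtain ⟨α, a, hα, rfl⟩ := hg
    obtain ⟨n, rfl⟩ := hz a
    refine ⟨fun c => n c • fun m => (bin m α : ℤ), fun c => ?_, fun m => ?_⟩
    · exact AddSubgroup.zsmul_mem (PC0 I i) (AddSubgroup.subset_closure ⟨α, hα, rfl⟩) (n c)
    · show bin m α • ∑ c, n c • zA c = _
      rw [Finset.smul_sum]
      refine Finset.sum_congr rfl fun c _ => ?_
      show bin m α • n c • zA c = (n c * (bin m α : ℤ)) • zA c
      rw [mul_comm, mul_smul, natCast_zsmul]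
  | zero => exact ⟨fun _ => 0, fun c => (PC0 I i).zero_mem, fun m => by simp⟩
  | add g g' _ _ ih ih' =>
    obtain ⟨p, hp, hpf⟩ := ih
    obtain ⟨p', hp', hpf'⟩ := ih'
    refine ⟨fun c => p c + p' c, fun c => (PC0 I i).add_mem (hp c) (hp' c), fun m => ?_⟩
    rw [Pi.add_apply, hpf, hpf', ← Finset.sum_add_distrib]
    refine Finset.sum_congr rfl fun c _ => ?_
    exact (add_smul (p c m) (p' c m) (zA c)).symm
  | neg g _ ih =>
    obtain ⟨p, hp, hpf⟩ := ih
    refine ⟨fun c => - p c, fun c => (PC0 I i).neg_mem (hp c), fun m => ?_⟩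
    rw [Pi.neg_apply, hpf, ← Finset.sum_neg_distrib]
    refine Finset.sum_congr rfl fun c _ => ?_
    exact (neg_smul (p c m) (zA c)).symm

/-- integral combinations of finitely many generators -/
theorem combo {A : Type} [AddCommGroup A] {D : ℕ} (zA : Fin D → A)
    (hz : ∀ a : A, a ∈ AddSubgroup.closure (Set.range zA)) (a : A) :
    ∃ n : Fin D → ℤ, a = ∑ c, n c • zA c := by
  have h := hz a
  induction h using AddSubgroup.closure_induction with
  | mem x hx =>
    obtain ⟨c, rfl⟩ := hx
    refine ⟨fun c' => if c' = c then 1 else 0, ?_⟩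
    simp
  | zero => exact ⟨0, by simp⟩
  | add x y _ _ hx hy =>
    obtain ⟨n, rfl⟩ := hx
    obtain ⟨n', rfl⟩ := hy
    exact ⟨n + n', by simp [add_smul, Finset.sum_add_distrib]⟩
  | neg x _ hx =>
    obtain ⟨n, rfl⟩ := hx
    exact ⟨-n, by simp [neg_smul, Finset.sum_neg_distrib]⟩

end StepAux

open StepAux

theorem stepT {Γ : Type} [Group Γ] {H : ℕ → Subgroup Γ} {J D : ℕ} {z : Fin D → Γ}
    {lv : Fin D → ℕ} (h : Alg H J z lv) {I : Type} [Fintype I] [DecidableEq I] {i : ℕ}
    (hi : 1 ≤ i) (hiJ : i ≤ J) {F : (I → ℕ) → Γ} (hF : PolF H 0 F) (hv : ∀ m, F m ∈ H i)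
    {A B : Finset I} (hA : ∀ m : I → ℕ, (∀ l ∈ A, m l = 0) → F m = 1)
    (hB : ∀ m : I → ℕ, (∀ l ∈ B, m l = 0) → F m = 1) :
    ∃ p : Fin D → (I → ℕ) → ℤ, (∀ c, p c ∈ PC I i A B) ∧ (∀ c, lv c ≠ i → p c = 0) ∧
      ∀ m, ((List.finRange D).map fun c => z c ^ p c m).prod⁻¹ * F m ∈ H (i + 1) := by
  have hnorm : (H (i + 1)).Normal := H_normal h.anti h.comm h.top (i + 1)
  set π : Γ →* Γ ⧸ H (i + 1) := QuotientGroup.mk' (H (i + 1)) with hπ
  have hker : ∀ g, π g = 1 ↔ g ∈ H (i + 1) := fun g => QuotientGroup.eq_one_iff g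
  set N : Subgroup (Γ ⧸ H (i + 1)) := (H i).map π with hN
  have hcomm : ∀ x y : N, x * y = y * x := by
    rintro ⟨_, x, hx, rfl⟩ ⟨_, y, hy, rfl⟩
    apply Subtype.ext
    show π x * π y = π y * π x
    have h1 : ⁅x, y⁆ ∈ H (i + 1) :=
      h.anti (by omega) (h.comm i i (Subgroup.commutator_mem_commutator hx hy))
    rw [← hker, map_commutatorElement, commutatorElement_eq_one_iff_mul_comm] at h1
    exact h1
  letI : CommGroup N := { (inferInstance : Group N) with mul_comm := hcomm }
  have hmem : ∀ g ∈ H i, π g ∈ N := fun g hg => Subgroup.mem_map_of_mem π hg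
  -- differences
  have hEd : ∀ (k : ℕ) (w : (I → ℕ) → Γ) (hw : ∀ m, w m ∈ H i),
      (∀ hs : List (I → ℕ), hs.length = k → ∀ m, dgs hs w m ∈ H (i + 1)) →
      Ed k (fun m => Additive.ofMul (⟨π (w m), hmem _ (hw m)⟩ : N)) := by
    intro k
    induction k with
    | zero =>
      intro w hw h0 m
      have h1 := h0 [] rfl m
      rw [Pool.Agent.Lib.Pf720nn.dgs_nil, ← hker] at h1
      show Additive.ofMul (⟨π (w m), _⟩ : N) = 0
      rw [← ofMul_one]
      congr 1
      exact Subtype.ext h1
    | succ k ih =>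
      intro w hw h0 k'
      have hw' : ∀ m, dg k' w m ∈ H i := fun m => (H i).mul_mem (hw _) ((H i).inv_mem (hw _))
      have h1 := ih (dg k' w) hw' fun hs hl m => h0 (k' :: hs) (by simp [hl]) m
      have e : (fun m => Additive.ofMul (⟨π (w (m + k')), hmem _ (hw _)⟩ : N) -
          Additive.ofMul (⟨π (w m), hmem _ (hw m)⟩ : N)) =
          fun m => Additive.ofMul (⟨π (dg k' w m), hmem _ (hw' m)⟩ : N) := by
        funext m
        have e1 : (⟨π (dg k' w m), hmem _ (hw' m)⟩ : N) =
            ⟨π (w (m + k')), hmem _ (hw _)⟩ * (⟨π (w m), hmem _ (hw m)⟩ : N)⁻¹ :=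
          Subtype.ext (by
            show π (w (m + k') * (w m)⁻¹) = π (w (m + k')) * (π (w m))⁻¹
            rw [map_mul, map_inv])
        rw [e1, ofMul_mul, ofMul_inv, sub_eq_add_neg]
      show Ed k (fun m => Additive.ofMul (⟨π (w (m + k')), hmem _ (hw _)⟩ : N) -
          Additive.ofMul (⟨π (w m), hmem _ (hw m)⟩ : N))
      rw [e]
      exact h1
  set f : (I → ℕ) → Additive N := fun m => Additive.ofMul (⟨π (F m), hmem _ (hv m)⟩ : N) with hf
  have hfE : Ed (i + 1) f := by
    refine hEd (i + 1) F hv fun hs hl m => ?_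
    have := hF hs m
    rwa [zero_add, hl] at this
  -- generators
  set zA : Fin D → Additive N := fun c =>
    if hc : lv c = i then Additive.ofMul (⟨π (z c), hmem _ (hc ▸ h.mem c)⟩ : N) else 0 with hzA
  have hgen' : ∀ x : N, Additive.ofMul x ∈ AddSubgroup.closure (Set.range zA) := by
    rintro ⟨_, g, hg, rfl⟩
    have h1 := h.gen i hi hiJ hg
    rw [Subgroup.mem_sup_of_normal_right] at h1
    obtain ⟨y, hy, n, hn, rfl⟩ := h1
    have hyn : π (y * n) = π y := by
      rw [map_mul, (hker n).2 hn, mul_one]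
    have key : ∀ y ∈ Subgroup.closure {g | ∃ c, lv c = i ∧ g = z c},
        ∃ hy : π y ∈ N, Additive.ofMul (⟨π y, hy⟩ : N) ∈ AddSubgroup.closure (Set.range zA) := by
      intro y hy
      induction hy using Subgroup.closure_induction with
      | mem x hx =>
        obtain ⟨c, hc, rfl⟩ := hx
        refine ⟨hmem _ (hc ▸ h.mem c), ?_⟩
        refine AddSubgroup.subset_closure ⟨c, ?_⟩
        rw [hzA]
        simp only [hc, dite_true]
      | one =>
        refine ⟨by rw [map_one]; exact N.one_mem, ?_⟩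
        have : (⟨π 1, by rw [map_one]; exact N.one_mem⟩ : N) = 1 := Subtype.ext (map_one π)
        rw [this, ofMul_one]
        exact AddSubgroup.zero_mem _
      | mul x y _ _ hx hy =>
        obtain ⟨hx1, hx2⟩ := hx
        obtain ⟨hy1, hy2⟩ := hy
        refine ⟨by rw [map_mul]; exact N.mul_mem hx1 hy1, ?_⟩
        have : (⟨π (x * y), by rw [map_mul]; exact N.mul_mem hx1 hy1⟩ : N) =
            ⟨π x, hx1⟩ * ⟨π y, hy1⟩ := Subtype.ext (map_mul π x y)
        rw [this, ofMul_mul]
        exact AddSubgroup.add_mem _ hx2 hy2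
      | inv x _ hx =>
        obtain ⟨hx1, hx2⟩ := hx
        refine ⟨by rw [map_inv]; exact N.inv_mem hx1, ?_⟩
        have : (⟨π x⁻¹, by rw [map_inv]; exact N.inv_mem hx1⟩ : N) =
            (⟨π x, hx1⟩ : N)⁻¹ := Subtype.ext (map_inv π x)
        rw [this, ofMul_inv]
        exact AddSubgroup.neg_mem _ hx2
    obtain ⟨hy1, hy2⟩ := key y hy
    have h2 : (⟨π (y * n), Subgroup.mem_map_of_mem π hg⟩ : N) = ⟨π y, hy1⟩ := Subtype.ext hyn
    rw [← h2] at hy2
    exact hy2
  have hgen : ∀ a : Additive N, a ∈ AddSubgroup.closure (Set.range zA) := fun a =>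
    hgen' (Additive.toMul a)
  obtain ⟨p₀, hp₀, hfp⟩ := coeffs zA (combo zA hgen) hfE
  -- the projection
  set p : Fin D → (I → ℕ) → ℤ := fun c => if lv c = i then
    fun m => p₀ c m - p₀ c (fun l => if l ∈ A then 0 else m l) -
      p₀ c (fun l => if l ∈ B then 0 else m l) + p₀ c (fun l => if l ∈ A ∪ B then 0 else m l)
    else 0 with hp
  have hf0 : ∀ m : I → ℕ, F m = 1 → f m = 0 := by
    intro m hm
    have h1 : (⟨π (F m), hmem _ (hv m)⟩ : N) = 1 := Subtype.ext (by
      show π (F m) = 1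
      rw [hm, map_one])
    show Additive.ofMul (⟨π (F m), hmem _ (hv m)⟩ : N) = 0
    rw [h1, ofMul_one]
  have hf0A : ∀ m : I → ℕ, (∀ l ∈ A, m l = 0) → f m = 0 := fun m hm => hf0 m (hA m hm)
  have hf0B : ∀ m : I → ℕ, (∀ l ∈ B, m l = 0) → f m = 0 := fun m hm => hf0 m (hB m hm)
  have hfp' : ∀ m, f m = ∑ c, p c m • zA c := by
    intro m
    have h1 := hf0A (fun l => if l ∈ A then 0 else m l) fun l hl => if_pos hl
    have h2 := hf0B (fun l => if l ∈ B then 0 else m l) fun l hl => if_pos hl
    have h3 := hf0A (fun l => if l ∈ A ∪ B then 0 else m l)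
      fun l hl => if_pos (Finset.mem_union_left _ hl)
    rw [hfp] at h1 h2 h3
    have h4 : f m = ∑ c, p₀ c m • zA c - ∑ c, p₀ c (fun l => if l ∈ A then 0 else m l) • zA c -
        ∑ c, p₀ c (fun l => if l ∈ B then 0 else m l) • zA c +
        ∑ c, p₀ c (fun l => if l ∈ A ∪ B then 0 else m l) • zA c := by
      rw [h1, h2, h3, sub_zero, sub_zero, add_zero]
      exact hfp m
    rw [h4, ← Finset.sum_sub_distrib, ← Finset.sum_sub_distrib, ← Finset.sum_add_distrib]
    refine Finset.sum_congr rfl fun c _ => ?_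
    by_cases hc : lv c = i
    · rw [hp]
      simp only [hc, if_true]
      rw [add_smul, sub_smul, sub_smul]
    · have : zA c = 0 := by
        rw [hzA]
        simp only [hc, dite_false]
      rw [this]
      simp only [smul_zero, sub_zero, add_zero]
  refine ⟨p, fun c => ?_, fun c hc => ?_, fun m => ?_⟩
  · rw [hp]
    by_cases hc : lv c = i
    · simp only [hc, if_true]
      exact pc_project A B (hp₀ c)
    · simp only [hc, if_false]
      exact (PC I i A B).zero_mem
  · rw [hp]
    simp only [hc, if_false]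
  · rw [← hker, map_mul, map_inv, inv_mul_eq_one]
    have key : ∀ l : List (Fin D), π ((l.map fun c => z c ^ p c m).prod) =
        ((Additive.toMul ((l.map fun c => p c m • zA c).sum) : N) : Γ ⧸ H (i + 1)) := by
      intro l
      induction l with
      | nil => simp
      | cons c l ih =>
        rw [List.map_cons, List.prod_cons, List.map_cons, List.sum_cons, map_mul, ih, toMul_add,
          Subgroup.coe_mul]
        congr 1
        by_cases hc : lv c = i
        · rw [map_zpow, hzA]
          simp only [hc, dite_true]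
          rw [toMul_zsmul, toMul_ofMul]
          rfl
        · have : p c m = 0 := by
            rw [hp]
            simp only [hc, if_false]
            rfl
          rw [this, zpow_zero, zero_smul, map_one]
          rfl
    rw [key, ← Fin.sum_univ_def, ← hfp']
    rfl

end Pool.Agent.Lib.Npa
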