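import Pool.Agent.Lib.Npa.Step

/-!
# Theorem T: divisibility and size

Induction on `J + 1 - i`. If `i ≥ J + 1` then `F = 1` and the empty list works. Otherwise `stepT` gives `p c`; let
`F₁ m = (∏ c, z c ^ p c m)⁻¹ * F m`; it is `PolF H 0` (`polF_zpow` with `ed_PC0`, `pc_le`, for `lv c = i`, `z c ∈ H i`; the
factors with `lv c ≠ i` are `1`; `PolF.mul`, `PolF.inv`, induction over the list), has values in `H (i + 1)`, and is
trivial if `m` vanishes on `A` or on `B` (`pc_zeroA`, `pc_zeroB`). `J! * kk J (i + 1) * q ∣ J! * kk J i * q`, so the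
induction hypothesis applies to `F₁`. The first product is a list of at most `D` terms (drop those with `lv c ≠ i`:
their exponent is `0`; e.g. filter, or map them away), with `kk J i * q ∣ p c m` (`pc_dvd` with `K = kk J i * q`) and
`|p c m| ≤ C X Y ^ (i - 1)` (`pc_size`). Take `C` = sum of all the constants, `Rep` is monotone in `C` (`Rep.mono`).
-/

set_option autoImplicit false
set_option linter.unusedSectionVars false

namespace Pool.Agent.Lib.Npa

open Pool.Agent.Lib.Pf720nn (dg dgs PolF)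

variable {Γ : Type} [Group Γ] {H : ℕ → Subgroup Γ} {J D : ℕ} {z : Fin D → Γ} {lv : Fin D → ℕ}

theorem Rep.mono {i C C' q X Y : ℕ} {g : Γ} (hC : C ≤ C') (h : Rep J z lv i C q X Y g) :
    Rep J z lv i C' q X Y g := by
  obtain ⟨L, hL, hg, hp⟩ := h
  refine ⟨L, hL.trans hC, hg, fun p hpL => ⟨(hp p hpL).1, (hp p hpL).2.1, (hp p hpL).2.2.trans ?_⟩⟩
  exact_mod_cast Nat.mul_le_mul_right _ (Nat.mul_le_mul_right _ hC)

namespace ThmTAux

/-- products of representable elements -/
theorem rep_mul {i i' C C' q X Y : ℕ} {g g' : Γ} (hi : i ≤ i')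
    (h : Rep J z lv i C q X Y g) (h' : Rep J z lv i' C' q X Y g') :
    Rep J z lv i (C + C') q X Y (g * g') := by
  obtain ⟨L, hL, hg, hp⟩ := h
  obtain ⟨L', hL', hg', hp'⟩ := h'
  refine ⟨L ++ L', ?_, ?_, ?_⟩
  · rw [List.length_append]
    omega
  · rw [List.map_append, List.prod_append, hg, hg']
  · intro p hpL
    rcases List.mem_append.1 hpL with h1 | h1
    · refine ⟨(hp p h1).1, (hp p h1).2.1, (hp p h1).2.2.trans ?_⟩
      exact_mod_cast Nat.mul_le_mul_right _ (Nat.mul_le_mul_right _ (Nat.le_add_right C C'))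
    · refine ⟨hi.trans (hp' p h1).1, (hp' p h1).2.1, (hp' p h1).2.2.trans ?_⟩
      exact_mod_cast Nat.mul_le_mul_right _ (Nat.mul_le_mul_right _ (Nat.le_add_left C' C))

theorem rep_one (i C q X Y : ℕ) : Rep J z lv i C q X Y (1 : Γ) :=
  ⟨[], Nat.zero_le _, rfl, fun _ hp => absurd hp List.not_mem_nil⟩

/-- dropping trivial factors -/
theorem prod_filter {i : ℕ} {e : Fin D → ℤ} (he : ∀ c, lv c ≠ i → e c = 0) (l : List (Fin D)) :
    ((l.filter fun c => lv c = i).map fun c => z c ^ e c).prod = (l.map fun c => z c ^ e c).prod := by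
  induction l with
  | nil => rfl
  | cons c l ih =>
    rw [List.map_cons, List.prod_cons, List.filter_cons]
    by_cases hc : lv c = i
    · simp only [hc, decide_true, if_true, List.map_cons, List.prod_cons, ih]
    · simp only [hc, decide_false, Bool.false_eq_true, if_false, ih]
      rw [he c hc, zpow_zero, one_mul]

theorem polF_one {κ : Type} : PolF H 0 (fun _ : κ → ℕ => (1 : Γ)) := by
  intro hs m
  have h1 := Pool.Agent.Lib.Pf720nn.dgs_mem (K := (⊥ : Subgroup Γ))
    (w := fun _ : κ → ℕ => (1 : Γ)) (fun _ => Subgroup.mem_bot.2 rfl) hs m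
  rw [Subgroup.mem_bot] at h1
  rw [h1]
  exact Subgroup.one_mem _

theorem polF_prod (h : Alg H J z lv) {I : Type} [Fintype I] [DecidableEq I] {i : ℕ}
    {A B : Finset I} {p : Fin D → (I → ℕ) → ℤ} (hp : ∀ c, p c ∈ PC I i A B)
    (hp0 : ∀ c, lv c ≠ i → p c = 0) (l : List (Fin D)) :
    PolF H 0 fun m => (l.map fun c => z c ^ p c m).prod := by
  induction l with
  | nil =>
    simp only [List.map_nil, List.prod_nil]
    exact polF_one
  | cons c l ih =>
    simp only [List.map_cons, List.prod_cons]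
    refine Pool.Agent.Lib.Pf720nn.PolF.mul h.anti h.comm ?_ ih
    by_cases hc : lv c = i
    · have h1 : z c ∈ H i := hc ▸ h.mem c
      exact polF_zpow h.anti h1 (ed_PC0 (pc_le i A B (hp c)))
    · rw [hp0 c hc]
      simp only [Pi.zero_apply, zpow_zero]
      exact polF_one

theorem thmT_aux (h : Alg H J z lv) {I : Type} [Fintype I] [DecidableEq I] {A B : Finset I}
    (t : ℕ) : ∀ {i : ℕ}, 1 ≤ i → J + 1 ≤ i + t → ∀ {F : (I → ℕ) → Γ}, PolF H 0 F →
    (∀ m, F m ∈ H i) → (∀ m : I → ℕ, (∀ l ∈ A, m l = 0) → F m = 1) →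
    (∀ m : I → ℕ, (∀ l ∈ B, m l = 0) → F m = 1) →
    ∃ C : ℕ, ∀ (q X Y : ℕ) (m : I → ℕ), (∀ l ∈ A, J.factorial * (kk J i * q) ∣ m l) →
      (∀ l ∈ B, m l ≤ X) → (∀ l, m l ≤ Y) → Rep J z lv i C q X Y (F m) := by
  have hbig : ∀ {i : ℕ}, J + 1 ≤ i → ∀ {F : (I → ℕ) → Γ}, (∀ m, F m ∈ H i) → ∀ m, F m = 1 := by
    intro i hi F hv m
    have h1 := h.anti hi (hv m)
    rw [h.bot, Subgroup.mem_bot] at h1
    exact h1
  induction t with
  | zero =>
    intro i hi hJ F hF hv hA hB
    refine ⟨0, fun q X Y m _ _ _ => ?_⟩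
    rw [hbig (by omega) hv m]
    exact rep_one _ _ _ _ _
  | succ t ih =>
    intro i hi hJ F hF hv hA hB
    by_cases hiJ : i ≤ J
    swap
    · refine ⟨0, fun q X Y m _ _ _ => ?_⟩
      rw [hbig (by omega) hv m]
      exact rep_one _ _ _ _ _
    obtain ⟨p, hp, hp0, hp1⟩ := stepT h hi hiJ hF hv hA hB
    choose Cc hCc using fun c => pc_size (hp c)
    have hzero : ∀ m : I → ℕ, (∀ c, p c m = 0) →
        ((List.finRange D).map fun c => z c ^ p c m).prod = 1 := by
      intro m hm
      refine List.prod_eq_one fun g hg => ?_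
      obtain ⟨c, -, rfl⟩ := List.mem_map.1 hg
      rw [hm c, zpow_zero]
    obtain ⟨C', hC'⟩ := ih (i := i + 1) (by omega) (by omega)
      (F := fun m => ((List.finRange D).map fun c => z c ^ p c m).prod⁻¹ * F m)
      (Pool.Agent.Lib.Pf720nn.PolF.mul h.anti h.comm
        (Pool.Agent.Lib.Pf720nn.PolF.inv h.anti h.comm (polF_prod h hp hp0 _)) hF) hp1
      (fun m hm => by
        rw [hA m hm, hzero m fun c => pc_zeroA (hp c) hm, inv_one, one_mul])
      (fun m hm => by
        rw [hB m hm, hzero m fun c => pc_zeroB (hp c) hm, inv_one, one_mul])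
    refine ⟨(D + ∑ c, Cc c) + C', fun q X Y m hmA hmB hmY => ?_⟩
    have h1 : F m = ((List.finRange D).map fun c => z c ^ p c m).prod *
        (((List.finRange D).map fun c => z c ^ p c m).prod⁻¹ * F m) := by
      rw [mul_inv_cancel_left]
    rw [h1]
    refine rep_mul (Nat.le_succ i) ?_ (hC' q X Y m (fun l hl => ?_) hmB hmY)
    · refine ⟨((List.finRange D).filter fun c => lv c = i).map fun c => (c, p c m), ?_, ?_, ?_⟩
      · rw [List.length_map]
        refine (List.length_filter_le _ _).trans ?_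
        rw [List.length_finRange]
        omega
      · rw [List.map_map]
        exact prod_filter (e := fun c => p c m) (fun c hc => congrFun (hp0 c hc) m) _
      · intro r hr
        obtain ⟨c, hc, rfl⟩ := List.mem_map.1 hr
        have hci : lv c = i := by
          have := (List.mem_filter.1 hc).2
          exact of_decide_eq_true this
        refine ⟨hci.ge, ?_, ?_⟩
        · show ((kk J (lv c) * q : ℕ) : ℤ) ∣ p c m
          rw [hci]
          exact pc_dvd hiJ (hp c) hmA
        · show |p c m| ≤ (((D + ∑ c, Cc c) * X * Y ^ (lv c - 1) : ℕ) : ℤ)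
          rw [hci]
          refine (hCc c X Y m hmB hmY).trans ?_
          have h2 : Cc c ≤ D + ∑ c, Cc c :=
            (Finset.single_le_sum (fun _ _ => Nat.zero_le _) (Finset.mem_univ c)).trans
              (Nat.le_add_left _ _)
          exact_mod_cast Nat.mul_le_mul_right _ (Nat.mul_le_mul_right _ h2)
    · refine dvd_trans (Nat.mul_dvd_mul_left _ (Nat.mul_dvd_mul_right ?_ _)) (hmA l hl)
      exact pow_dvd_pow _ (by omega)

end ThmTAux

theorem thmT (h : Alg H J z lv) {I : Type} [Fintype I] [DecidableEq I] {i : ℕ} (hi : 1 ≤ i)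
    {F : (I → ℕ) → Γ} (hF : PolF H 0 F) (hv : ∀ m, F m ∈ H i) {A B : Finset I}
    (hA : ∀ m : I → ℕ, (∀ l ∈ A, m l = 0) → F m = 1)
    (hB : ∀ m : I → ℕ, (∀ l ∈ B, m l = 0) → F m = 1) :
    ∃ C : ℕ, ∀ (q X Y : ℕ) (m : I → ℕ), (∀ l ∈ A, J.factorial * (kk J i * q) ∣ m l) →
      (∀ l ∈ B, m l ≤ X) → (∀ l, m l ≤ Y) → Rep J z lv i C q X Y (F m) :=
  ThmTAux.thmT_aux h (J + 1) hi (by omega) hF hv hA hB

end Pool.Agent.Lib.Npa
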