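import Pool.Agent.Lib.Npa.Main
import Pool.Agent.Lib.Npw.Defs

/-!
# The data of part I in the format of the analysis
-/

set_option autoImplicit false
set_option linter.unusedSectionVars false

namespace Pool.Agent.Lib.Npa

open Pool.Agent.Lib.Pf720nn (dg dgs PolF PolG)
open Pool.Agent.Lib.Npw (Dat ld lds)

open scoped commutatorElement

namespace ToAux

variable {κ G : Type} [Group G]

theorem dgs_inv (L : List (κ → ℕ)) (F : (κ → ℕ) → G) (m : κ → ℕ) :
    (dgs L (fun x => (F x)⁻¹) m)⁻¹ = lds L F m := by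
  induction L generalizing F with
  | nil => exact inv_inv _
  | cons h L ih =>
    have e : dg h (fun x => (F x)⁻¹) = fun x => (ld h F x)⁻¹ := by
      funext x
      simp [dg, ld]
    rw [Pool.Agent.Lib.Pf720nn.dgs_cons, e, ih]
    rfl

theorem lds_append (L : List (κ → ℕ)) (h : κ → ℕ) (F : (κ → ℕ) → G) :
    lds (L ++ [h]) F = ld h (lds L F) := by
  induction L generalizing F with
  | nil => rfl
  | cons h' L ih => exact ih _

theorem zipWith_ofFn {α β γ : Type} (f : α → β → γ) {n : ℕ} (a : Fin n → α) (b : Fin n → β) :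
    List.zipWith f (List.ofFn a) (List.ofFn b) = List.ofFn fun j => f (a j) (b j) := by
  induction n with
  | zero => simp
  | succ n ih => rw [List.ofFn_succ, List.ofFn_succ, List.ofFn_succ, List.zipWith_cons_cons, ih]

theorem exists_split {α : Type} (l : List α) {n : ℕ} (hl : l.length = n + 1) :
    ∃ (f : Fin n → α) (a : α), l = List.ofFn f ++ [a] := by
  rcases List.eq_nil_or_concat l with hs | ⟨s, j, hs⟩
  · rw [hs] at hl
    simp at hl
  · rw [List.concat_eq_append] at hs
    have hn : s.length = n := by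
      rw [hs, List.length_append] at hl
      simpa using hl
    subst hn
    exact ⟨s.get, j, by rw [List.ofFn_get]; exact hs⟩

end ToAux

open ToAux

theorem exists_dat {G : Type} [Group G] [Group.IsNilpotent G] (hG : Group.FG G) {k : ℕ}
    {S : (Fin k → ℕ) → G} (h0 : S 0 = 1) (hS : PolG S) :
    ∃ (J D ρ C1 : ℕ) (z : Fin D → G) (lv : Fin D → ℕ)
      (co : (c : Fin D) → Fin (lv c) → Fin (2 ^ ρ) × Bool × Fin k)
      (cl : Fin D → Fin (2 ^ ρ) × Bool × Fin k),
      (Dat.mk k J D ρ C1 z lv S co cl).Ok := by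
  obtain ⟨J, b, D, z, lv, sq, C₁, h⟩ := exists_algI hG h0 hS
  have hlv : ∀ c, lv c = (lv c - 1) + 1 := fun c => by
    have := h.lv_pos c
    omega
  choose co cl hco using fun c => exists_split (sq c) ((h.sq_len c).trans (hlv c))
  set A : Dat G := Dat.mk k J D b C₁ z (fun c => lv c - 1) S co cl with hA
  have hw : ∀ c, A.w c = lv c := fun c => (hlv c).symm
  have hK : ∀ c, A.K c = kk J (lv c) := fun c => by
    show J.factorial ^ (J - A.w c) = J.factorial ^ (J - lv c)
    rw [hw]
  have hP : A.P0 = kk J 0 := by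
    show J.factorial ^ J = J.factorial ^ (J - 0)
    rw [Nat.sub_zero]
  have hB : ∀ (C c0 q x : ℕ) (g : G), RepB J z lv C c0 q x g → g ∈ A.BN C c0 q x := by
    rintro C c0 q x g ⟨L, hL, hg, hp⟩
    refine ⟨L.map fun p => z p.1 ^ p.2, by rw [List.length_map]; exact hL, ?_, hg⟩
    intro y hy
    rw [List.mem_map] at hy
    obtain ⟨p, hpL, rfl⟩ := hy
    obtain ⟨h1, h2, h3⟩ := hp p hpL
    refine ⟨p.1, p.2, h1, ?_, ?_, rfl⟩
    · rw [hK]
      exact h2
    · rw [hw]
      push_cast at h3
      exact h3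
  refine ⟨J, D, b, C₁, z, fun c => lv c - 1, co, cl, ?_⟩
  rw [← hA]
  refine ⟨h0, fun c => ?_, ?_, ?_, ?_, ?_, ?_⟩
  · rw [hw]
    exact h.lv_le c
  · intro c c' hcc
    exact Nat.sub_le_sub_right (h.lv_mono hcc) 1
  · intro c c' e e' q x y m t hq he he' hd hPq hx hy hxy
    rw [hw] at he he'
    rw [hK, hK] at hd
    rw [hP] at hPq
    exact hB _ _ _ _ _ (h.a1 c c' q x y m t e e' hq hPq hx hy hxy (by push_cast; exact he)
      (by push_cast; exact he') hd)
  · intro c e g v q x y m t hq hg hv he hd hPq hx hy hxy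
    rw [hw] at he
    rw [hK] at hd
    rw [hP] at hPq
    obtain ⟨h1, h2⟩ := h.a2 c q x y m t e v hq hPq hx hy hxy (by push_cast; exact he) hv hd
    rcases hg with rfl | rfl
    · exact hB _ _ _ _ _ h1
    · exact hB _ _ _ _ _ h2
  · intro v h' q x m t hq hd hv hh hxm
    rw [hP] at hd
    exact hB _ _ _ _ _ (h.a3 q x m t v h' hd hv hh hxm)
  · intro c v η h' q x m t hq hd hv hη hh hxm
    rw [hP] at hd
    have h1 := h.a4 c q x m t v (List.ofFn η) h' (by rw [List.length_ofFn]; exact (hlv c).symm)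
      hd hv (by
        intro n hn
        rw [List.mem_ofFn'] at hn
        obtain ⟨j, rfl⟩ := hn
        exact hη j) hh hxm
    refine ⟨_, hB _ _ _ _ _ h1, ?_⟩
    rw [hco c, List.zipWith_append (by rw [List.length_ofFn, List.length_ofFn]), zipWith_ofFn,
      List.zipWith_cons_cons, List.zipWith_nil_left, dgs_inv, lds_append, List.prod_ofFn,
      mul_inv_cancel_left]
    rfl

end Pool.Agent.Lib.Npa
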