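import Pool.Agent.Lib.Npa.Defs
import Pool.Agent.Lib.Pf720nn.PGrp

/-!
# Words

Products: concatenate the lists. Inverses: reverse the list and swap the components
(`List.prod_inv_reverse`). `comp`: compose all additive maps with `ρ`. `isWord_S`: the list `[(0, ρ)]`.

`IsWord.inD`: for `y : ℕ × κ → ℕ` let `𝔇 n y = dgs [y (1, ·), …, y (n, ·)] v (y (0, ·))`. It is a word in `y`: by
`dgs (L ++ [h]) w = dg h (dgs L w)`, `𝔇 (n + 1) y = 𝔇 n (y with y (0, ·) replaced by y (0, ·) + y (n + 1, ·)) * (𝔇 n y)⁻¹`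
(additive substitutions). It is `1` if `y (s + 1, ·) = 0` for some `s < n` (an iterated difference with a zero
direction is trivial). Colour: `c (0, l) = n`, `c (s + 1, l) = s`; `x (0, ·) = m`, `x (s + 1, ·) = hs.getD s 0`.
-/

set_option autoImplicit false
set_option linter.unusedSectionVars false

namespace Pool.Agent.Lib.Npa

open Pool.Agent.Lib.Pf720nn (dg dgs PolF)

variable {ι : Type} {G : Type} [Group G] {S : (ι → ℕ) → G} {κ κ' : Type}

theorem isWord_one : IsWord S (fun _ : κ → ℕ => (1 : G)) := ⟨[], rfl⟩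

theorem IsWord.mul {v w : (κ → ℕ) → G} (hv : IsWord S v) (hw : IsWord S w) :
    IsWord S fun x => v x * w x := by
  obtain ⟨L, rfl⟩ := hv
  obtain ⟨L', rfl⟩ := hw
  refine ⟨L ++ L', ?_⟩
  funext x
  unfold wv
  rw [List.map_append, List.prod_append]

theorem wordsAux_inv (L : List (((κ → ℕ) →+ (ι → ℕ)) × ((κ → ℕ) →+ (ι → ℕ)))) (x : κ → ℕ) :
    (wv S L x)⁻¹ = wv S (L.map Prod.swap).reverse x := by
  unfold wv
  rw [List.prod_inv_reverse, List.map_reverse, List.map_map, List.map_map]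
  congr 2
  refine List.map_congr_left fun p _ => ?_
  simp only [Function.comp_apply, mul_inv_rev, inv_inv, Prod.fst_swap, Prod.snd_swap]

theorem IsWord.inv {v : (κ → ℕ) → G} (hv : IsWord S v) : IsWord S fun x => (v x)⁻¹ := by
  obtain ⟨L, rfl⟩ := hv
  exact ⟨(L.map Prod.swap).reverse, funext fun x => wordsAux_inv L x⟩

theorem IsWord.comp {v : (κ → ℕ) → G} (hv : IsWord S v) (ρ : (κ' → ℕ) →+ (κ → ℕ)) :
    IsWord S fun x => v (ρ x) := by
  obtain ⟨L, rfl⟩ := hv
  refine ⟨L.map fun p => (p.1.comp ρ, p.2.comp ρ), ?_⟩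
  funext x
  unfold wv
  rw [List.map_map]
  rfl

theorem IsWord.zero {v : (κ → ℕ) → G} (hv : IsWord S v) : v 0 = 1 := by
  obtain ⟨L, rfl⟩ := hv
  unfold wv
  refine List.prod_eq_one fun g hg => ?_
  obtain ⟨p, _, rfl⟩ := List.mem_map.1 hg
  rw [map_zero, map_zero, inv_mul_cancel]

theorem isWord_S (h0 : S 0 = 1) (ρ : (κ → ℕ) →+ (ι → ℕ)) : IsWord S fun x => S (ρ x) := by
  refine ⟨[(0, ρ)], ?_⟩
  funext x
  unfold wv
  rw [List.map_singleton, List.prod_singleton, AddMonoidHom.zero_apply, h0, inv_one, one_mul]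

theorem wordsAux_dgs_one (L : List (κ → ℕ)) (m : κ → ℕ) :
    dgs L (fun _ : κ → ℕ => (1 : G)) m = 1 := by
  induction L with
  | nil => rfl
  | cons h L ih =>
    rw [Pool.Agent.Lib.Pf720nn.dgs_cons]
    have e : dg h (fun _ : κ → ℕ => (1 : G)) = fun _ => 1 := by
      funext n
      show (1 : G) * 1⁻¹ = 1
      rw [inv_one, mul_one]
    rw [e, ih]

theorem IsWord.polF {F : ℕ → Subgroup G} (hF : Antitone F) (hc : ∀ i j, ⁅F i, F j⁆ ≤ F (i + j))
    (hS : PolF F 0 S) {v : (κ → ℕ) → G} (hv : IsWord S v) : PolF F 0 v := by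
  obtain ⟨L, rfl⟩ := hv
  have hρ : ∀ ρ : (κ → ℕ) →+ (ι → ℕ), PolF F 0 fun x => S (ρ x) := by
    intro ρ
    have := hS.comp (fun x => ρ x) (fun m n => map_add ρ m n) 0
    simpa using this
  induction L with
  | nil =>
    intro hs m
    have e : wv S ([] : List (((κ → ℕ) →+ (ι → ℕ)) × ((κ → ℕ) →+ (ι → ℕ)))) = fun _ => 1 := rfl
    rw [e, wordsAux_dgs_one]
    exact (F _).one_mem
  | cons p L ih =>
    have e : wv S (p :: L) = fun x => ((S (p.1 x))⁻¹ * S (p.2 x)) * wv S L x := by
      funext x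
      unfold wv
      rw [List.map_cons, List.prod_cons]
    rw [e]
    exact (((hρ p.1).inv hF hc).mul hF hc (hρ p.2)).mul hF hc ih

theorem dgs_append (L L' : List (κ → ℕ)) (w : (κ → ℕ) → G) :
    dgs (L ++ L') w = dgs L' (dgs L w) := by
  induction L generalizing w with
  | nil => rfl
  | cons h L ih =>
    rw [List.cons_append, Pool.Agent.Lib.Pf720nn.dgs_cons, Pool.Agent.Lib.Pf720nn.dgs_cons, ih]

theorem dgs_of_zero_mem {L : List (κ → ℕ)} (h : (0 : κ → ℕ) ∈ L) (w : (κ → ℕ) → G) (m : κ → ℕ) :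
    dgs L w m = 1 := by
  induction L generalizing w with
  | nil => exact absurd h List.not_mem_nil
  | cons a L ih =>
    rw [Pool.Agent.Lib.Pf720nn.dgs_cons]
    rcases List.mem_cons.1 h with h0 | h0
    · have e : dg a w = fun _ => 1 := by
        funext n
        show w (n + a) * (w n)⁻¹ = 1
        rw [← h0, add_zero, mul_inv_cancel]
      rw [e, wordsAux_dgs_one]
    · exact ih h0 _

/-- the directions -/
def wordsAuxL (n : ℕ) (y : ℕ × κ → ℕ) : List (κ → ℕ) :=
  (List.range n).map fun s l => y (s + 1, l)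

/-- the substitution -/
def wordsAuxR (n : ℕ) : ((ℕ × κ) → ℕ) →+ ((ℕ × κ) → ℕ) where
  toFun y := fun z => if z.1 = 0 then y z + y (n + 1, z.2) else y z
  map_zero' := by
    funext z
    simp
  map_add' := by
    intro y y'
    funext z
    simp only [Pi.add_apply]
    split_ifs
    · ring
    · rfl

/-- the base point -/
def wordsAux0 : ((ℕ × κ) → ℕ) →+ (κ → ℕ) where
  toFun y := fun l => y (0, l)
  map_zero' := rfl
  map_add' _ _ := rfl

theorem wordsAux_isWord {v : (κ → ℕ) → G} (hv : IsWord S v) (n : ℕ) :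
    IsWord S fun y : ℕ × κ → ℕ => dgs (wordsAuxL n y) v (wordsAux0 y) := by
  induction n with
  | zero => exact hv.comp wordsAux0
  | succ n ih =>
    have e : (fun y : ℕ × κ → ℕ => dgs (wordsAuxL (n + 1) y) v (wordsAux0 y)) =
        fun y => dgs (wordsAuxL n (wordsAuxR n y)) v (wordsAux0 (wordsAuxR n y)) *
          (dgs (wordsAuxL n y) v (wordsAux0 y))⁻¹ := by
      funext y
      have e1 : wordsAuxL (n + 1) y = wordsAuxL n y ++ [fun l => y (n + 1, l)] := by
        unfold wordsAuxL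
        rw [List.range_succ, List.map_append, List.map_singleton]
      have e2 : wordsAuxL n (wordsAuxR n y) = wordsAuxL n y := by
        unfold wordsAuxL
        refine List.map_congr_left fun s _ => ?_
        funext l
        show (if s + 1 = 0 then y (s + 1, l) + y (n + 1, l) else y (s + 1, l)) = y (s + 1, l)
        rw [if_neg (Nat.succ_ne_zero s)]
      have e3 : wordsAux0 (wordsAuxR n y) = wordsAux0 y + fun l => y (n + 1, l) := by
        funext l
        show (if (0 : ℕ) = 0 then y (0, l) + y (n + 1, l) else y (0, l)) = y (0, l) + y (n + 1, l)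
        rw [if_pos rfl]
      rw [e1, dgs_append, e2, e3]
      rfl
    rw [e]
    exact (ih.comp (wordsAuxR n)).mul ih.inv

theorem IsWord.inD {v : (κ → ℕ) → G} (hv : IsWord S v) (hs : List (κ → ℕ)) (m : κ → ℕ) :
    InD S hs.length (dgs hs v m) := by
  refine ⟨ℕ × κ, fun y => dgs (wordsAuxL hs.length y) v (wordsAux0 y),
    fun z => if z.1 = 0 then hs.length else z.1 - 1,
    fun z => if z.1 = 0 then m z.2 else hs.getD (z.1 - 1) 0 z.2, wordsAux_isWord hv _, ?_, ?_⟩
  · intro s hsn y hy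
    refine dgs_of_zero_mem ?_ _ _
    unfold wordsAuxL
    rw [List.mem_map]
    refine ⟨s, List.mem_range.2 hsn, ?_⟩
    funext l
    exact hy (s + 1, l) (by simp)
  · have e1 : wordsAuxL hs.length (fun z : ℕ × κ => if z.1 = 0 then m z.2 else
        hs.getD (z.1 - 1) 0 z.2) = hs := by
      unfold wordsAuxL
      refine List.ext_getElem (by simp) fun i h1 h2 => ?_
      rw [List.getElem_map, List.getElem_range]
      funext l
      show (if i + 1 = 0 then m l else hs.getD (i + 1 - 1) 0 l) = hs[i] l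
      rw [if_neg (Nat.succ_ne_zero i), Nat.add_sub_cancel, List.getD_eq_getElem hs 0 h2]
    have e2 : wordsAux0 (fun z : ℕ × κ => if z.1 = 0 then m z.2 else
        hs.getD (z.1 - 1) 0 z.2) = m := by
      funext l
      show (if (0 : ℕ) = 0 then m l else hs.getD (0 - 1) 0 l) = m l
      rw [if_pos rfl]
    show dgs (wordsAuxL hs.length _) v (wordsAux0 _) = dgs hs v m
    rw [e1, e2]

end Pool.Agent.Lib.Npa
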